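import Pool.Agent.Lib_MP_752436_mv.MkDisc
import Pool.Agent.Lib_MP_752436_gt.NoTrap
import Pool.Agent.Lib_MP_752436_gt.BirthDefs

/-!
Critical points of the height of a Morse disc.
-/

open Metric Set Filter
open scoped ContDiff Topology

namespace Pool.Agent.Lib_MP_752436_mv

open Pool.Agent.Lib_MP_752436_gt Pool.Agent.Lib_MP_752436_tp Pool.Agent.Lib_MP_752436_rb

theorem crit_posDef {h : Plane → ℝ} (hh : ContDiff ℝ ∞ h) {x : Plane}
    (hnd : ∀ u, u ≠ 0 → ∃ w, fderiv ℝ (fderiv ℝ h) x u w ≠ 0)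
    (hnn : ∀ u, 0 ≤ fderiv ℝ (fderiv ℝ h) x u u) :
    ∀ u, u ≠ 0 → 0 < fderiv ℝ (fderiv ℝ h) x u u := by
  have hc1 : ContDiff ℝ ∞ (fderiv ℝ h) := hh.fderiv_right (by simp)
  have hsymm : ∀ u w, fderiv ℝ (fderiv ℝ h) x u w = fderiv ℝ (fderiv ℝ h) x w u := by
    intro u w
    have hf : ∀ y, HasFDerivAt h (fderiv ℝ h y) y := fun y =>
      ((hh.differentiable (by simp)) y).hasFDerivAt
    have hx : HasFDerivAt (fderiv ℝ h) (fderiv ℝ (fderiv ℝ h) x) x :=
      ((hc1.differentiable (by simp)) x).hasFDerivAt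
    exact second_derivative_symmetric hf hx u w
  intro u hu
  rcases (hnn u).lt_or_eq with h1 | h1
  · exact h1
  exfalso
  obtain ⟨w, hw⟩ := hnd u hu
  set a : ℝ := fderiv ℝ (fderiv ℝ h) x u w with ha
  set b : ℝ := fderiv ℝ (fderiv ℝ h) x w w with hb
  have key : ∀ s : ℝ, 0 ≤ 2 * s * a + s ^ 2 * b := by
    intro s
    have h2 := hnn (u + s • w)
    have h3 : fderiv ℝ (fderiv ℝ h) x (u + s • w) (u + s • w) = 2 * s * a + s ^ 2 * b := by
      simp only [map_add, map_smul, add_apply, smul_apply, smul_eq_mul]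
      rw [← h1, hsymm w u, ← ha, ← hb]
      ring
    rw [h3] at h2
    exact h2
  have hb0 : 0 ≤ b := hnn w
  have k1 := key (-a / (b + 1))
  have hb1 : 0 < b + 1 := by linarith
  have k2 : 2 * (-a / (b + 1)) * a + (-a / (b + 1)) ^ 2 * b
      = -(a ^ 2 * (b + 2)) / (b + 1) ^ 2 := by
    field_simp
    ring
  rw [k2] at k1
  have ha2 : 0 < a ^ 2 := by positivity
  have k3 : -(a ^ 2 * (b + 2)) / (b + 1) ^ 2 < 0 := by
    apply div_neg_of_neg_of_pos
    · have : 0 < a ^ 2 * (b + 2) := by positivity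
      linarith
    · positivity
  linarith

theorem crit_localMin {h : Plane → ℝ} (hh : ContDiff ℝ ∞ h) {x : Plane}
    (h0 : fderiv ℝ h x = 0) (hnd : ∀ u, u ≠ 0 → ∃ w, fderiv ℝ (fderiv ℝ h) x u w ≠ 0)
    (hnn : ∀ u, 0 ≤ fderiv ℝ (fderiv ℝ h) x u u) : IsLocalMin h x := by
  have hc1 : ContDiff ℝ ∞ (fderiv ℝ h) := hh.fderiv_right (by simp)
  have hc2 : ContDiff ℝ ∞ (fderiv ℝ (fderiv ℝ h)) := hc1.fderiv_right (by simp)
  have hpos : ∀ u, u ≠ 0 → 0 < fderiv ℝ (fderiv ℝ h) x u u := crit_posDef hh hnd hnn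
  have hev : ∀ᶠ y in 𝓝 x, ∀ u ∈ sphere (0 : Plane) 1, 0 < fderiv ℝ (fderiv ℝ h) y u u := by
    apply IsCompact.eventually_forall_of_forall_eventually (isCompact_sphere _ _)
    intro u hu
    have hcont : Continuous (fun z : Plane × Plane => fderiv ℝ (fderiv ℝ h) z.1 z.2 z.2) :=
      ((hc2.continuous.comp continuous_fst).clm_apply continuous_snd).clm_apply continuous_snd
    have hu0 : u ≠ 0 := by
      rintro rfl
      simp at hu
    exact (isOpen_lt continuous_const hcont).mem_nhds (hpos u hu0)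
  obtain ⟨r, hr, hball⟩ := Metric.eventually_nhds_iff_ball.1 hev
  have hnonneg : ∀ y ∈ ball x r, ∀ w, 0 ≤ fderiv ℝ (fderiv ℝ h) y w w := by
    intro y hy w
    by_cases hw : w = 0
    · rw [hw]; simp
    · have hn : 0 < ‖w‖ := norm_pos_iff.2 hw
      have h1 := hball y hy (‖w‖⁻¹ • w) (by
        rw [mem_sphere_zero_iff_norm, norm_smul, norm_inv, norm_norm, inv_mul_cancel₀ hn.ne'])
      simp only [map_smul, smul_apply, smul_eq_mul] at h1
      have h2 : 0 < ‖w‖⁻¹ := inv_pos.2 hn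
      have h3 := (pos_iff_pos_of_mul_pos h1).1 h2
      have h4 := (pos_iff_pos_of_mul_pos h3).1 h2
      exact h4.le
  refine Metric.eventually_nhds_iff_ball.2 ⟨r, hr, ?_⟩
  intro y hy
  set w : Plane := y - x with hw
  set z : ℝ → Plane := fun s => x + s • w with hz
  have hzm : ∀ s ∈ Icc (0 : ℝ) 1, z s ∈ ball x r := by
    intro s hs
    rw [mem_ball_iff_norm]
    simp only [hz, add_sub_cancel_left]
    rw [norm_smul, Real.norm_eq_abs, abs_of_nonneg hs.1]
    have h1 : ‖w‖ < r := by rw [hw]; exact mem_ball_iff_norm.1 hy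
    calc s * ‖w‖ ≤ 1 * ‖w‖ := mul_le_mul_of_nonneg_right hs.2 (norm_nonneg _)
      _ < r := by rw [one_mul]; exact h1
  have hzd : ∀ s : ℝ, HasDerivAt z w s := by
    intro s
    have h1 : HasDerivAt (fun s : ℝ => s • w) ((1 : ℝ) • w) s := (hasDerivAt_id s).smul_const w
    rw [one_smul] at h1
    exact h1.const_add x
  have hD1 : ∀ s : ℝ, HasDerivAt (fun s => h (z s)) (fderiv ℝ h (z s) w) s := by
    intro s
    have h1 : HasFDerivAt h (fderiv ℝ h (z s)) (z s) :=
      ((hh.differentiable (by simp)) _).hasFDerivAt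
    exact h1.comp_hasDerivAt s (hzd s)
  have hD2 : ∀ s : ℝ, HasDerivAt (fun s => fderiv ℝ h (z s) w)
      (fderiv ℝ (fderiv ℝ h) (z s) w w) s := by
    intro s
    have h1 : HasFDerivAt (fderiv ℝ h) (fderiv ℝ (fderiv ℝ h) (z s)) (z s) :=
      ((hc1.differentiable (by simp)) _).hasFDerivAt
    have h2 := (h1.comp_hasDerivAt s (hzd s)).clm_apply (hasDerivAt_const s w)
    simpa using h2
  have hz0 : z 0 = x := by simp [hz]
  have hz1 : z 1 = y := by simp [hz, hw]
  have hmono : MonotoneOn (fun s => fderiv ℝ h (z s) w) (Icc (0 : ℝ) 1) := by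
    apply monotoneOn_of_deriv_nonneg (convex_Icc 0 1)
    · exact fun s _ => (hD2 s).continuousAt.continuousWithinAt
    · exact fun s _ => (hD2 s).differentiableAt.differentiableWithinAt
    · intro s hs
      rw [(hD2 s).deriv]
      rw [interior_Icc] at hs
      exact hnonneg _ (hzm s ⟨hs.1.le, hs.2.le⟩) w
  have hge : ∀ s ∈ Icc (0 : ℝ) 1, 0 ≤ fderiv ℝ h (z s) w := by
    intro s hs
    have h1 := hmono (left_mem_Icc.2 zero_le_one) hs hs.1
    simp only [hz0, h0] at h1
    simpa using h1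
  have hmono2 : MonotoneOn (fun s => h (z s)) (Icc (0 : ℝ) 1) := by
    apply monotoneOn_of_deriv_nonneg (convex_Icc 0 1)
    · exact fun s _ => (hD1 s).continuousAt.continuousWithinAt
    · exact fun s _ => (hD1 s).differentiableAt.differentiableWithinAt
    · intro s hs
      rw [(hD1 s).deriv]
      rw [interior_Icc] at hs
      exact hge s ⟨hs.1.le, hs.2.le⟩
  have h5 := hmono2 (left_mem_Icc.2 zero_le_one) (right_mem_Icc.2 zero_le_one) zero_le_one
  simp only [hz0, hz1] at h5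
  exact h5

theorem crit_dd {h : Plane → ℝ} (hh : ContDiff ℝ ∞ h) (x u w : Plane) :
    dd (dd h w) u x = fderiv ℝ (fderiv ℝ h) x u w := by
  have h1 : HasFDerivAt (fderiv ℝ h) (fderiv ℝ (fderiv ℝ h) x) x :=
    (((hh.fderiv_right (m := ∞) (by simp)).differentiable (by simp)) x).hasFDerivAt
  have h2 := h1.clm_apply (hasFDerivAt_const w x)
  have h3 : dd (dd h w) u x = fderiv ℝ (fun y => fderiv ℝ h y w) x u := rfl
  rw [h3, h2.fderiv]
  simp

section

variable {F : Plane → EuclideanSpace ℝ (Fin 4)}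

theorem crit_nondeg (hF : MorseDisc F) {x : Plane} (hx : x ∈ ball (0 : Plane) 1)
    (h0 : fderiv ℝ (fun y => F y 3) x = 0) :
    ∀ u, u ≠ 0 → ∃ w, fderiv ℝ (fderiv ℝ (fun y => F y 3)) x u w ≠ 0 := by
  have hs : ContDiff ℝ ∞ (fun y => F y 3) := contDiff_coord' hF.slice 3
  intro u hu
  obtain ⟨w, hw⟩ := hF.morse x hx (fun v => by
    show fderiv ℝ (fun y => F y 3) x v = 0
    rw [h0]; rfl) u hu
  exact ⟨w, by rw [← crit_dd hs]; exact hw⟩

/-- At a birth the Hessian of the height is positive definite. -/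
theorem births_posDef (hF : MorseDisc F) {x : Plane} (hx : x ∈ births F) :
    fderiv ℝ (fun y => F y 3) x = 0 ∧
      ∀ u, u ≠ 0 → 0 < fderiv ℝ (fderiv ℝ (fun y => F y 3)) x u u := by
  have hs : ContDiff ℝ ∞ (fun y => F y 3) := contDiff_coord' hF.slice 3
  have hloc : IsLocalMin (fun y => F y 3) x := hx.2
  have h0 : fderiv ℝ (fun y => F y 3) x = 0 := hloc.fderiv_eq_zero
  exact ⟨h0, crit_posDef hs (crit_nondeg hF hx.1 h0) (noTrap_second hs hloc)⟩

theorem crit_mem_ball (hF : MorseDisc F) {x : Plane} (hx : x ∈ closedBall (0 : Plane) 1)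
    (h0 : fderiv ℝ (fun y => F y 3) x = 0) : x ∈ ball (0 : Plane) 1 := by
  rcases (mem_closedBall.1 hx).lt_or_eq with h | h
  · exact mem_ball.2 h
  · obtain ⟨u, hu⟩ := hF.neat x (mem_sphere.2 h)
    apply absurd _ hu
    show fderiv ℝ (fun y => F y 3) x u = 0
    rw [h0]; rfl

/-- A critical point of the height is a birth or has a direction of negative second derivative. -/
theorem crit_cases (hF : MorseDisc F) {x : Plane} (hx : x ∈ closedBall (0 : Plane) 1)
    (h0 : fderiv ℝ (fun y => F y 3) x = 0) :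
    (∃ u, fderiv ℝ (fderiv ℝ (fun y => F y 3)) x u u < 0) ∨ x ∈ births F := by
  have hs : ContDiff ℝ ∞ (fun y => F y 3) := contDiff_coord' hF.slice 3
  have hb := crit_mem_ball hF hx h0
  by_cases h : ∃ u, fderiv ℝ (fderiv ℝ (fun y => F y 3)) x u u < 0
  · exact Or.inl h
  · push Not at h
    exact Or.inr ⟨hb, crit_localMin hs h0 (crit_nondeg hF hb h0) h⟩

/-- The height has only finitely many critical points. -/
theorem finite_critical (hF : MorseDisc F) :
    {x | x ∈ closedBall (0 : Plane) 1 ∧ fderiv ℝ (fun y => F y 3) x = 0}.Finite := by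
  have hs : ContDiff ℝ ∞ (fun y => F y 3) := contDiff_coord' hF.slice 3
  by_contra hinf
  have hclosed : IsClosed {x : Plane | fderiv ℝ (fun y => F y 3) x = 0} :=
    isClosed_eq (hs.continuous_fderiv (by simp)) continuous_const
  have hcomp : IsCompact {x | x ∈ closedBall (0 : Plane) 1 ∧ fderiv ℝ (fun y => F y 3) x = 0} :=
    (isCompact_closedBall (0 : Plane) 1).inter_right hclosed
  obtain ⟨x, hx, hacc⟩ := Set.Infinite.exists_accPt_of_subset_isCompact hinf hcomp subset_rfl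
  have hm := crit_nondeg hF (crit_mem_ball hF hx.1 hx.2) hx.2
  rw [accPt_iff_frequently] at hacc
  have hd : HasFDerivAt (fderiv ℝ (fun y => F y 3))
      (fderiv ℝ (fderiv ℝ (fun y => F y 3)) x) x :=
    (((hs.fderiv_right (m := ∞) (by simp)).differentiable (by simp)) x).hasFDerivAt
  have hker : LinearMap.ker (fderiv ℝ (fderiv ℝ (fun y => F y 3)) x :
      Plane →ₗ[ℝ] (Plane →L[ℝ] ℝ)) = ⊥ := by
    rw [LinearMap.ker_eq_bot']
    intro u hu
    by_contra h
    obtain ⟨w, hw⟩ := hm u h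
    apply hw
    have : fderiv ℝ (fderiv ℝ (fun y => F y 3)) x u = 0 := hu
    rw [this]
    simp
  obtain ⟨K, -, hK⟩ := LinearMap.exists_antilipschitzWith _ hker
  have hev : ∀ᶠ y in 𝓝[≠] x, fderiv ℝ (fun y => F y 3) y ≠ 0 := hd.eventually_ne ⟨K, hK⟩
  rw [eventually_nhdsWithin_iff] at hev
  exact hacc (hev.mono fun y hy hy' => hy hy'.1 hy'.2.2)

theorem births_subset_critical (hF : MorseDisc F) :
    births F ⊆ {x | x ∈ closedBall (0 : Plane) 1 ∧ fderiv ℝ (fun y => F y 3) x = 0} :=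
  fun _ hx => ⟨ball_subset_closedBall hx.1, (births_posDef hF hx).1⟩

end

end Pool.Agent.Lib_MP_752436_mv
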