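import Pool.Agent.Lib_MP_752436_mv.Assembly
import Pool.Agent.Lib_MP_752436_nb.GenericIff

/-!
Ribbon knots are the knots which bound a slice disc whose movie has no Reidemeister III move after
the first birth.
-/

open Metric Set Filter
open scoped ContDiff Topology

namespace Pool.Agent.Lib_MP_752436_mv

open Pool.Agent.Lib_MP_752436_gt Pool.Agent.Lib_MP_752436_tp Pool.Agent.Lib_MP_752436_rb
  Pool.Agent.Lib_MP_752436_nb Pool.Agent.Lib_MP_752436_rc

/-- A ribbon knot bounds a Morse slice disc without births. -/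
theorem exists_noBirths_of_ribbon {K : Set Space} (hK : IsRibbonKnot K) :
    ∃ G, MorseDisc G ∧ births G = ∅ ∧ boundaryKnot G = K := by
  obtain ⟨F, hF, hg, hFK, h0⟩ := exists_generic hK
  obtain ⟨G, hG, hn, hs⟩ := births_of_locked hF hg.generalPosition (n := 0) (P := ∅) (by simp)
    fun S hS => absurd hS (noLocked_of_encard_le (by rw [h0]; simp) S)
  refine ⟨G, hG, ?_, ?_⟩
  · rw [← Set.encard_eq_zero]
    exact le_antisymm (by simpa using hn) bot_le
  · rw [← hFK]
    unfold boundaryKnot
    exact image_congr fun x _ => hs x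

/-- The conditions above a level higher than the disc are empty. -/
theorem exists_high_level {G : Plane → EuclideanSpace ℝ (Fin 4)} (hG : IsSliceDisc G) :
    ∃ s, GenericMovie G s ∧ moves G s = ∅ := by
  obtain ⟨C, hC⟩ := (isCompact_closedBall (0 : Plane) 1).exists_bound_of_continuousOn
    (contDiff_coord' hG 3).continuous.continuousOn
  have hno : ∀ x ∈ closedBall (0 : Plane) 1, ¬ (C + 1 ≤ G x 3) := by
    intro x hx h
    have h1 := hC x hx
    have h2 := le_abs_self (G x 3)
    rw [Real.norm_eq_abs] at h1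
    linarith
  have hcr : ∀ p, p ∉ Crossings G (C + 1) := fun p hp => hno p.1 hp.1 hp.2.2.1
  refine ⟨C + 1, ⟨fun x hx h => absurd h (hno x hx), fun p q h => absurd h (hcr _),
    fun p q h => absurd h (hcr _), fun p q r w h => absurd h (hcr _)⟩, ?_⟩
  rw [eq_empty_iff_forall_notMem]
  rintro r ⟨p, q, h, -⟩
  exact hcr _ h

theorem ribbon_iff_movie (K : Set Space) :
    IsRibbonKnot K ↔ ∃ F s, MorseDisc F ∧ boundaryKnot F = K ∧ GenericMovie F s ∧
      (∀ x ∈ births F, s < F x 3) ∧ moves F s = ∅ := by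
  constructor
  · intro hK
    obtain ⟨G, hG, hb, hGK⟩ := exists_noBirths_of_ribbon hK
    obtain ⟨s, hs, hm⟩ := exists_high_level hG.slice
    exact ⟨G, s, hG, hGK, hs, fun x hx => by rw [hb] at hx; exact absurd hx (notMem_empty x), hm⟩
  · rintro ⟨F, s, hF, hFK, hg, hb, hm⟩
    obtain ⟨G, hG, hGk, hGn⟩ := births_of_moves hF hg (n := 0) (by rw [hm]; simp)
    have h0 : births F ∩ {x | F x 3 ≤ s} = ∅ := by
      rw [eq_empty_iff_forall_notMem]
      rintro x ⟨hx, hxs⟩
      exact absurd (hb x hx) (not_lt.2 hxs)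
    have hb' : births G = ∅ := by
      rw [← Set.encard_eq_zero]
      refine le_antisymm (hGn.trans ?_) bot_le
      rw [h0]
      simp
    rw [← hFK, ← hGk]
    exact isRibbonKnot_of_noBirths hG hb'

end Pool.Agent.Lib_MP_752436_mv
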