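import Pool.Agent.Lib_MP_752436_mv.Crit
import Pool.Agent.Lib_MP_752436_tp.FlowBox
import Pool.Agent.Lib_MP_752436_gt.DiagramBirths

/-!
The choice of the level and of small balls around the moves.
-/

open Metric Set Filter
open scoped ContDiff Topology

namespace Pool.Agent.Lib_MP_752436_mv

open Pool.Agent.Lib_MP_752436_gt Pool.Agent.Lib_MP_752436_tp Pool.Agent.Lib_MP_752436_rb

/-- A common lower bound for the distances of finitely many points. -/
theorem exists_separation (P : Finset Plane) :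
    ∃ δ > 0, ∀ p ∈ P, ∀ q ∈ P, p ≠ q → δ ≤ dist p q := by
  classical
  rcases P.offDiag.eq_empty_or_nonempty with h | h
  · refine ⟨1, one_pos, fun p hp q hq hpq => ?_⟩
    have : (p, q) ∈ P.offDiag := Finset.mem_offDiag.2 ⟨hp, hq, hpq⟩
    rw [h] at this
    exact absurd this (Finset.notMem_empty _)
  · obtain ⟨e, he, hmin⟩ := P.offDiag.exists_min_image (fun e => dist e.1 e.2) h
    refine ⟨dist e.1 e.2, dist_pos.2 (Finset.mem_offDiag.1 he).2.2, fun p hp q hq hpq => ?_⟩
    exact hmin (p, q) (Finset.mem_offDiag.2 ⟨hp, hq, hpq⟩)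

/-- Small balls around the moves contain no overcrossing point and no singular point. -/
theorem exists_ballRadius {F : Plane → EuclideanSpace ℝ (Fin 4)} {s s1 : ℝ} (hF : IsSliceDisc F)
    (hg : GenericMovie F s) (P : Finset Plane) (hP : ∀ p ∈ P, p ∈ moves F s) (h1 : 0 < s1)
    (hPs : ∀ p ∈ P, s1 < F p 3) :
    ∃ R > 0, (∀ p ∈ P, ∀ x ∈ closedBall p R, x ∈ ball (0 : Plane) 1 ∧ s1 < F x 3 ∧
      Function.Injective (fderiv ℝ (movie F) x) ∧ ∀ y, (x, y) ∉ Crossings F s) ∧
      ∀ p ∈ P, ∀ q ∈ P, p ≠ q → 2 * R < dist p q := by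
  have hmc : Continuous (movie F) := (contDiff_movie hF).continuous
  have hzc : Continuous (fun x => F x 2) := (contDiff_coord' hF 2).continuous
  have htc : Continuous (fun x => F x 3) := (contDiff_coord' hF 3).continuous
  set C : Set (Plane × Plane) := closure (Crossings F s) with hC
  have hcl : C ⊆ {c : Plane × Plane | (c.1 ∈ closedBall (0 : Plane) 1 ∧
      c.2 ∈ closedBall (0 : Plane) 1) ∧
      (s ≤ F c.1 3 ∧ (movie F c.1 = movie F c.2 ∧ F c.2 2 ≤ F c.1 2))} := by
    refine closure_minimal (fun c hc => ⟨⟨hc.1, hc.2.1⟩, hc.2.2.1, hc.2.2.2.1, hc.2.2.2.2.le⟩) ?_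
    exact ((isClosed_closedBall.preimage continuous_fst).inter
      (isClosed_closedBall.preimage continuous_snd)).inter
      ((isClosed_le continuous_const (htc.comp continuous_fst)).inter
      ((isClosed_eq (hmc.comp continuous_fst) (hmc.comp continuous_snd)).inter
      (isClosed_le (hzc.comp continuous_snd) (hzc.comp continuous_fst))))
  have hCc : IsCompact C :=
    ((isCompact_closedBall (0 : Plane) 1).prod (isCompact_closedBall (0 : Plane) 1)).of_isClosed_subset
      isClosed_closure (fun c hc => ⟨(hcl hc).1.1, (hcl hc).1.2⟩)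
  set W : Set Plane := (ball (0 : Plane) 1 ∩ {x | s1 < F x 3}) ∩
    ({x | Function.Injective (fderiv ℝ (movie F) x)} ∩ (Prod.fst '' C)ᶜ) with hW
  have hinj : IsOpen {x | Function.Injective (fderiv ℝ (movie F) x)} :=
    (ContinuousLinearMap.isOpen_injective (𝕜 := ℝ) (E := Plane) (F := Space)).preimage
      ((contDiff_movie hF).continuous_fderiv (by simp))
  have hWo : IsOpen W :=
    (isOpen_ball.inter (isOpen_lt continuous_const htc)).inter
      (hinj.inter (hCc.image continuous_fst).isClosed.isOpen_compl)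
  have hPW : ∀ p ∈ P, p ∈ W := by
    intro p hp
    obtain ⟨a, b, hab, hbp⟩ := hP p hp
    have hip : Function.Injective (fderiv ℝ (movie F) p) := hg.inj_snd hbp
    refine ⟨⟨mem_ball_of_height hF hbp.2.1 (h1.trans (hPs p hp)), hPs p hp⟩, hip, ?_⟩
    rintro ⟨c, hc, hcp⟩
    obtain ⟨⟨c1, c2⟩, c3, c4, c5⟩ := hcl hc
    by_cases hcc : c.1 = c.2
    · obtain ⟨N, hN, hNinj⟩ := eventually_injOn_of_strict
        (((contDiff_movie hF).contDiffAt (x := p)).hasStrictFDerivAt (by simp)) hip
      have hO : N ×ˢ N ∈ 𝓝 c := by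
        rw [show c = (c.1, c.2) from rfl, ← hcc, hcp]
        exact prod_mem_nhds hN hN
      obtain ⟨e, heO, heD⟩ := mem_closure_iff_nhds.mp hc _ hO
      exact Crossings.ne heD (hNinj heO.1 heO.2 heD.2.2.2.1)
    · have hlt : F c.2 2 < F c.1 2 := lt_of_le_of_ne c5 fun h5 =>
        hcc (eq_of_movie hF c1 c2 c4 h5.symm)
      have hcr : (c.1, c.2) ∈ Crossings F s := ⟨c1, c2, c3, c4, hlt⟩
      rw [hcp] at hcr
      exact hg.quadruple a b p c.2 hab hbp hcr
  obtain ⟨R, hR, hRW⟩ := exists_radius_of_finset P hWo hPW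
  obtain ⟨δ, hδ, hsep⟩ := exists_separation P
  refine ⟨min R (δ / 3), lt_min hR (by linarith), ?_, ?_⟩
  · intro p hp x hx
    have hxW := hRW p hp (closedBall_subset_closedBall (min_le_left _ _) hx)
    exact ⟨hxW.1.1, hxW.1.2, hxW.2.1, fun y hy => hxW.2.2 ⟨(x, y), subset_closure hy, rfl⟩⟩
  · intro p hp q hq hpq
    have h2 := hsep p hp q hq hpq
    have h3 := min_le_right R (δ / 3)
    linarith

/-- A strip above a regular level without critical points. -/
theorem exists_strip {t : Plane → ℝ} (ht : ContDiff ℝ ∞ t) {s : ℝ}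
    (hreg : ∀ x ∈ closedBall (0 : Plane) 1, t x = s → fderiv ℝ t x ≠ 0) :
    ∃ d₀ > 0, ∃ c₁ > 0, ∀ x ∈ closedBall (0 : Plane) 1, s ≤ t x → t x ≤ s + d₀ →
      c₁ ≤ fderiv ℝ t x (EuclideanSpace.single 0 1) ^ 2 +
        fderiv ℝ t x (EuclideanSpace.single 1 1) ^ 2 := by
  have htf : Continuous (fderiv ℝ t) := ht.continuous_fderiv (by simp)
  set q : Plane → ℝ := fun x => fderiv ℝ t x (EuclideanSpace.single 0 1) ^ 2 +
        fderiv ℝ t x (EuclideanSpace.single 1 1) ^ 2 with hq
  have hqc : Continuous q :=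
    ((htf.clm_apply continuous_const).pow 2).add ((htf.clm_apply continuous_const).pow 2)
  have hq0 : ∀ x, 0 ≤ q x := fun x => by positivity
  have hqz : ∀ x, q x = 0 → fderiv ℝ t x = 0 := by
    intro x hx
    have h0 : fderiv ℝ t x (EuclideanSpace.single 0 1) = 0 := by
      have h1 := sq_nonneg (fderiv ℝ t x (EuclideanSpace.single 0 1))
      have h2 := sq_nonneg (fderiv ℝ t x (EuclideanSpace.single 1 1))
      have h3 : fderiv ℝ t x (EuclideanSpace.single 0 1) ^ 2 = 0 := by
        simp only [hq] at hx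
        linarith
      exact pow_eq_zero_iff two_ne_zero |>.1 h3
    have h1 : fderiv ℝ t x (EuclideanSpace.single 1 1) = 0 := by
      have h2 := sq_nonneg (fderiv ℝ t x (EuclideanSpace.single 1 1))
      have h3 : fderiv ℝ t x (EuclideanSpace.single 1 1) ^ 2 = 0 := by
        simp only [hq] at hx
        rw [h0] at hx
        linarith
      exact pow_eq_zero_iff two_ne_zero |>.1 h3
    ext u
    have hu : u = u 0 • EuclideanSpace.single 0 (1 : ℝ) +
        u 1 • EuclideanSpace.single 1 (1 : ℝ) := by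
      ext i; fin_cases i <;> simp
    rw [hu, map_add, map_smul, map_smul, h0, h1]
    simp
  have hK : IsCompact (closedBall (0 : Plane) 1 ∩ {x | s ≤ t x}) :=
    (isCompact_closedBall (0 : Plane) 1).inter_right (isClosed_le continuous_const ht.continuous)
  rcases (closedBall (0 : Plane) 1 ∩ {x | s ≤ t x}).eq_empty_or_nonempty with he | hne
  · refine ⟨1, one_pos, 1, one_pos, fun x hx hsx _ => ?_⟩
    have : x ∈ closedBall (0 : Plane) 1 ∩ {x | s ≤ t x} := ⟨hx, hsx⟩
    rw [he] at this
    exact absurd this (notMem_empty x)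
  · obtain ⟨a, ha, hmin⟩ := hK.exists_isMinOn hne
      (f := fun x => max (t x - s) (q x))
      (((ht.continuous.sub continuous_const).max hqc).continuousOn)
    set m : ℝ := max (t a - s) (q a) with hm
    have hm0 : 0 < m := by
      have ha2 : s ≤ t a := ha.2
      rcases ha2.eq_or_lt with h | h
      · have h1 : q a ≠ 0 := fun h0 => hreg a ha.1 h.symm (hqz a h0)
        exact (lt_of_le_of_ne (hq0 a) h1.symm).trans_le (le_max_right _ _)
      · exact lt_of_lt_of_le (by linarith) (le_max_left _ _)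
    refine ⟨m / 2, by linarith, m, hm0, fun x hx hsx hxs => ?_⟩
    have h1 : m ≤ max (t x - s) (q x) := hmin ⟨hx, hsx⟩
    rcases le_max_iff.1 h1 with h2 | h2
    · linarith
    · exact h2

/-- A regular level `s' ≥ s` with the same births below and without moves on the level. -/
theorem exists_level {F : Plane → EuclideanSpace ℝ (Fin 4)} (hF : MorseDisc F) {s : ℝ}
    (hfin : (moves F s).Finite) :
    ∃ s', s ≤ s' ∧ 0 < s' ∧
      (∀ x ∈ closedBall (0 : Plane) 1, F x 3 = s' → fderiv ℝ (fun y => F y 3) x ≠ 0) ∧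
      (∀ r ∈ moves F s', s' < F r 3) ∧
      births F ∩ {x | F x 3 ≤ s'} = births F ∩ {x | F x 3 ≤ s} := by
  set Bad : Set ℝ := (fun x => F x 3) '' ({x | x ∈ closedBall (0 : Plane) 1 ∧
    fderiv ℝ (fun y => F y 3) x = 0} ∪ moves F s) with hBad
  have hBf : Bad.Finite := ((finite_critical hF).union hfin).image _
  set b : ℝ := max s 0 with hb
  have hcl : IsClosed (Bad \ {b}) := (hBf.subset sdiff_subset).isClosed
  obtain ⟨ε, hε, hball⟩ := Metric.isOpen_iff.1 hcl.isOpen_compl b (fun h => h.2 rfl)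
  have hno : ∀ u ∈ Bad, u ≤ b + ε / 2 → u ≤ b := by
    intro u hu hle
    by_contra hcon
    push Not at hcon
    have h1 : u ∈ ball b ε := by
      rw [mem_ball, Real.dist_eq, abs_of_pos (by linarith)]
      linarith
    exact hball h1 ⟨hu, fun h => hcon.ne' h⟩
  refine ⟨b + ε / 2, ?_, ?_, ?_, ?_, ?_⟩
  · have := le_max_left s 0
    linarith
  · have := le_max_right s 0
    linarith
  · intro x hx hxs h0
    have h1 : F x 3 ∈ Bad := ⟨x, Or.inl ⟨hx, h0⟩, rfl⟩
    have h2 := hno _ h1 hxs.le
    linarith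
  · intro r hr
    have hle : s ≤ b + ε / 2 := by
      have := le_max_left s 0
      linarith
    have h1 : F r 3 ∈ Bad := ⟨r, Or.inr (moves_mono hle hr), rfl⟩
    obtain ⟨p, q, hpq, hqr⟩ := hr
    have h2 : b + ε / 2 ≤ F r 3 := by
      rw [← Crossings.height_eq hqr]
      exact hqr.2.2.1
    by_contra hcon
    push Not at hcon
    have := hno _ h1 hcon
    linarith
  · ext x
    constructor
    · rintro ⟨hx, hxs⟩
      refine ⟨hx, ?_⟩
      have h1 : F x 3 ∈ Bad := ⟨x, Or.inl (births_subset_critical hF hx), rfl⟩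
      have h2 := hno _ h1 hxs
      have h3 : 0 < F x 3 := hF.slice.interior x hx.1
      rcases le_max_iff.1 h2 with h4 | h4
      · exact h4
      · linarith
    · rintro ⟨hx, hxs⟩
      have h1 : F x 3 ≤ s := hxs
      have := le_max_left s 0
      exact ⟨hx, by
        show F x 3 ≤ b + ε / 2
        linarith⟩

end Pool.Agent.Lib_MP_752436_mv
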