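import Mathlib

/-!
P8a: the cut off function of the hybrid function.
-/

open Metric Set Filter
open scoped ContDiff Topology

namespace Pool.Agent.Lib_MP_752436_mv

/-- the numerator -/
private noncomputable def chiF (d u : ℝ) : ℝ :=
  expNegInvGlue u / (expNegInvGlue u + expNegInvGlue (d - u))

private lemma chi_den {d : ℝ} (hd : 0 < d) (u : ℝ) :
    0 < expNegInvGlue u + expNegInvGlue (d - u) := by
  rcases lt_or_ge 0 u with h | h
  · exact add_pos_of_pos_of_nonneg (expNegInvGlue.pos_of_pos h) (expNegInvGlue.nonneg _)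
  · exact add_pos_of_nonneg_of_pos (expNegInvGlue.nonneg _)
      (expNegInvGlue.pos_of_pos (by linarith))

private lemma chi_smooth {d : ℝ} (hd : 0 < d) : ContDiff ℝ ∞ (chiF d) := by
  have h1 : ContDiff ℝ ∞ expNegInvGlue := expNegInvGlue.contDiff
  have h2 : ContDiff ℝ ∞ (fun u => expNegInvGlue (d - u)) :=
    h1.comp (contDiff_const.sub contDiff_id)
  exact h1.div (h1.add h2) (fun u => (chi_den hd u).ne')

private lemma chi_mono {d : ℝ} (hd : 0 < d) : Monotone (chiF d) := by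
  intro u v huv
  unfold chiF
  rw [div_le_div_iff₀ (chi_den hd u) (chi_den hd v)]
  have h1 : expNegInvGlue u ≤ expNegInvGlue v := expNegInvGlue.monotone huv
  have h2 : expNegInvGlue (d - v) ≤ expNegInvGlue (d - u) :=
    expNegInvGlue.monotone (by linarith)
  have := mul_le_mul h1 h2 (expNegInvGlue.nonneg _) (expNegInvGlue.nonneg _)
  nlinarith

/-- the exponent -/
private noncomputable def chiS (d u : ℝ) : ℝ := Real.exp (u⁻¹ - (d - u)⁻¹)

/-- minus the derivative of the exponent -/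
private noncomputable def chiA (d u : ℝ) : ℝ := (u ^ 2)⁻¹ + ((d - u) ^ 2)⁻¹

private lemma chi_eq {d u : ℝ} (h0 : 0 < u) (hd : u < d) : chiF d u = (1 + chiS d u)⁻¹ := by
  unfold chiF chiS expNegInvGlue
  rw [if_neg (not_le.2 h0), if_neg (by linarith), Real.exp_sub, Real.exp_neg, Real.exp_neg]
  have h1 := Real.exp_pos u⁻¹
  have h2 := Real.exp_pos (d - u)⁻¹
  field_simp

private lemma chiS_deriv {d u : ℝ} (h0 : 0 < u) (hd : u < d) :
    HasDerivAt (chiS d) (-(chiA d u * chiS d u)) u := by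
  have h1 : HasDerivAt (fun u : ℝ => u⁻¹) (-(u ^ 2)⁻¹) u := hasDerivAt_inv h0.ne'
  have h2 : HasDerivAt (fun u : ℝ => (d - u)⁻¹) (-(-1) / (d - u) ^ 2) u :=
    ((hasDerivAt_id u).const_sub d).inv (by simpa using (sub_pos.2 hd).ne')
  have h3 : HasDerivAt (chiS d) (Real.exp (u⁻¹ - (d - u)⁻¹) * (-(u ^ 2)⁻¹ -
      -(-1) / (d - u) ^ 2)) u := (h1.sub h2).exp
  refine h3.congr_deriv ?_
  unfold chiA chiS
  ring

private lemma chiA_deriv {d u : ℝ} (h0 : 0 < u) (hd : u < d) :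
    HasDerivAt (chiA d) (-(2 / u ^ 3) + 2 / (d - u) ^ 3) u := by
  have hu : u ≠ 0 := h0.ne'
  have hdu : d - u ≠ 0 := (sub_pos.2 hd).ne'
  have h1 : HasDerivAt (fun u : ℝ => (u ^ 2)⁻¹) (-(2 * u) / (u ^ 2) ^ 2) u := by
    have h := (hasDerivAt_pow 2 u).inv (pow_ne_zero 2 hu)
    have h' : HasDerivAt (fun u : ℝ => (u ^ 2)⁻¹) (-((2 : ℕ) * u ^ (2 - 1)) / (u ^ 2) ^ 2) u := h
    refine h'.congr_deriv ?_
    norm_num
  have h2 : HasDerivAt (fun u : ℝ => ((d - u) ^ 2)⁻¹)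
      (-(2 * (d - u) * (-1)) / ((d - u) ^ 2) ^ 2) u := by
    have h := (((hasDerivAt_id u).const_sub d).pow 2).inv (pow_ne_zero 2 hdu)
    have h' : HasDerivAt (fun u : ℝ => ((d - u) ^ 2)⁻¹)
      (-((2 : ℕ) * (d - u) ^ (2 - 1) * (-1)) / ((d - u) ^ 2) ^ 2) u := h
    refine h'.congr_deriv ?_
    norm_num
  have h3 : HasDerivAt (chiA d) (-(2 * u) / (u ^ 2) ^ 2 +
    -(2 * (d - u) * (-1)) / ((d - u) ^ 2) ^ 2) u := h1.add h2
  refine h3.congr_deriv ?_
  field_simp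

private lemma chi_deriv1 {d u : ℝ} (h0 : 0 < u) (hd : u < d) :
    HasDerivAt (chiF d) (chiA d u * chiS d u / (1 + chiS d u) ^ 2) u := by
  have hpos : 0 < 1 + chiS d u := by
    have : 0 < chiS d u := Real.exp_pos _
    linarith
  have h1 := ((chiS_deriv h0 hd).const_add 1).inv hpos.ne'
  have h2 : (fun v => 1 + chiS d v)⁻¹ =ᶠ[𝓝 u] chiF d := by
    filter_upwards [Ioo_mem_nhds h0 hd] with v hv
    rw [chi_eq hv.1 hv.2]
    rfl
  have h3 := h1.congr_of_eventuallyEq h2.symm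
  refine h3.congr_deriv ?_
  ring

private lemma chi_deriv2 {d u : ℝ} (h0 : 0 < u) (hd : u < d) :
    HasDerivAt (deriv (chiF d)) (((-(2 / u ^ 3) + 2 / (d - u) ^ 3) - chiA d u ^ 2) * chiS d u /
      (1 + chiS d u) ^ 2 + 2 * chiA d u ^ 2 * chiS d u ^ 2 / (1 + chiS d u) ^ 3) u := by
  have hpos : 0 < 1 + chiS d u := by
    have : 0 < chiS d u := Real.exp_pos _
    linarith
  have hS := chiS_deriv h0 hd
  have hA := chiA_deriv h0 hd
  have h1 := (hA.mul hS).div ((hS.const_add 1).pow 2) (pow_ne_zero 2 hpos.ne')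
  have h2 : (fun v => chiA d v * chiS d v / (1 + chiS d v) ^ 2) =ᶠ[𝓝 u] deriv (chiF d) := by
    filter_upwards [Ioo_mem_nhds h0 hd] with v hv
    exact (chi_deriv1 hv.1 hv.2).deriv.symm
  have h3 := h1.congr_of_eventuallyEq h2.symm
  refine h3.congr_deriv ?_
  have e1 : ((fun x => 1 + chiS d x) ^ 2) u = (1 + chiS d u) ^ 2 := rfl
  have e2 : (chiA d * chiS d) u = chiA d u * chiS d u := rfl
  rw [e1, e2]
  generalize -(2 / u ^ 3) + 2 / (d - u) ^ 3 = B
  have hne : (1 + chiS d u) ≠ 0 := hpos.ne'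
  push_cast
  field_simp
  ring

/-- P8a -/
theorem exists_chi {C c₁ d₀ : ℝ} (hC : 0 < C) (hc : 0 < c₁) (hd₀ : 0 < d₀) :
    ∃ d, 0 < d ∧ d ≤ d₀ ∧ ∃ χ : ℝ → ℝ, ContDiff ℝ ∞ χ ∧ (∀ u ≤ 0, χ u = 0) ∧
      (∀ u, d ≤ u → χ u = 1) ∧ (∀ u, 0 ≤ χ u) ∧ (∀ u, χ u ≤ 1) ∧ (∀ u, 0 < u → 0 < χ u) ∧
      (∀ u, 0 ≤ deriv χ u) ∧ ∀ u ∈ Ioo 0 d,
        deriv (deriv χ) u * χ u - 2 * deriv χ u ^ 2 ≤ -(C / c₁) * deriv χ u * χ u ∧
        C * (1 - χ u) * χ u ≤ 2 * c₁ * deriv χ u := by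
  obtain ⟨d, hd, hdd, hd4, hdC⟩ : ∃ d, 0 < d ∧ d ≤ d₀ ∧ d ≤ 1 / 4 ∧ d ≤ c₁ / (2 * C) :=
    ⟨min d₀ (min (1 / 4) (c₁ / (2 * C))), by positivity, min_le_left _ _,
      (min_le_right _ _).trans (min_le_left _ _), (min_le_right _ _).trans (min_le_right _ _)⟩
  refine ⟨d, hd, hdd, chiF d, chi_smooth hd, ?_, ?_, ?_, ?_, ?_, ?_, ?_⟩
  · intro u hu
    unfold chiF
    rw [expNegInvGlue.zero_of_nonpos hu, zero_div]
  · intro u hu
    unfold chiF
    rw [expNegInvGlue.zero_of_nonpos (show d - u ≤ 0 by linarith), add_zero]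
    exact div_self (expNegInvGlue.pos_of_pos (by linarith)).ne'
  · intro u
    exact div_nonneg (expNegInvGlue.nonneg _) (chi_den hd u).le
  · intro u
    unfold chiF
    rw [div_le_one (chi_den hd u)]
    linarith [expNegInvGlue.nonneg (d - u)]
  · intro u hu
    exact div_pos (expNegInvGlue.pos_of_pos hu) (chi_den hd u)
  · intro u
    exact (chi_mono hd).deriv_nonneg
  · rintro u ⟨h0, hu⟩
    have hS : 0 < chiS d u := Real.exp_pos _
    have hpos : 0 < 1 + chiS d u := by linarith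
    have hdu : 0 < d - u := sub_pos.2 hu
    have hdu' : d - u ≤ d := by linarith
    rw [(chi_deriv2 h0 hu).deriv, (chi_deriv1 h0 hu).deriv, chi_eq h0 hu]
    have hX : ((d - u) ^ 2)⁻¹ ≤ chiA d u := by
      unfold chiA
      have : 0 ≤ (u ^ 2)⁻¹ := by positivity
      linarith
    have hX0 : 0 < ((d - u) ^ 2)⁻¹ := by positivity
    have hA : 0 < chiA d u := lt_of_lt_of_le hX0 hX
    have hAd : 1 / d ^ 2 ≤ chiA d u := by
      refine le_trans ?_ hX
      rw [← one_div]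
      exact one_div_le_one_div_of_le (by positivity) (by nlinarith)
    have hd2 : d ^ 2 ≤ c₁ / (2 * C) := le_trans (by nlinarith) hdC
    have hCA : 2 * C / c₁ ≤ chiA d u := by
      refine le_trans ?_ hAd
      rw [div_le_div_iff₀ hc (by positivity)]
      have : d ^ 2 * (2 * C) ≤ c₁ := (le_div_iff₀ (by positivity)).1 hd2
      linarith
    have h3 : 2 / (d - u) ^ 3 ≤ 1 / 2 * chiA d u ^ 2 := by
      have e1 : 2 / (d - u) ^ 3 = 2 * (d - u) * (((d - u) ^ 2)⁻¹) ^ 2 := by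
        field_simp
      rw [e1]
      have e2 : (((d - u) ^ 2)⁻¹) ^ 2 ≤ chiA d u ^ 2 := pow_le_pow_left₀ hX0.le hX 2
      exact mul_le_mul (by linarith) e2 (by positivity) (by norm_num)
    have h4 : 0 < 2 / u ^ 3 := by positivity
    have h5 : C / c₁ * chiA d u ≤ 1 / 2 * chiA d u ^ 2 := by
      have : 2 * C / c₁ * chiA d u ≤ chiA d u * chiA d u :=
        mul_le_mul_of_nonneg_right hCA hA.le
      have e : C / c₁ * chiA d u = 1 / 2 * (2 * C / c₁ * chiA d u) := by ring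
      rw [e]
      nlinarith
    constructor
    · have e1 : (((-(2 / u ^ 3) + 2 / (d - u) ^ 3) - chiA d u ^ 2) * chiS d u /
          (1 + chiS d u) ^ 2 + 2 * chiA d u ^ 2 * chiS d u ^ 2 / (1 + chiS d u) ^ 3) *
          (1 + chiS d u)⁻¹ - 2 * (chiA d u * chiS d u / (1 + chiS d u) ^ 2) ^ 2 =
          ((-(2 / u ^ 3) + 2 / (d - u) ^ 3) - chiA d u ^ 2) *
            (chiS d u / (1 + chiS d u) ^ 3) := by
        field_simp
        ring
      have e2 : -(C / c₁) * (chiA d u * chiS d u / (1 + chiS d u) ^ 2) * (1 + chiS d u)⁻¹ =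
          (-(C / c₁ * chiA d u)) * (chiS d u / (1 + chiS d u) ^ 3) := by
        field_simp
      rw [e1, e2]
      exact mul_le_mul_of_nonneg_right (by linarith) (by positivity)
    · have e1 : C * (1 - (1 + chiS d u)⁻¹) * (1 + chiS d u)⁻¹ =
          C * (chiS d u / (1 + chiS d u) ^ 2) := by
        field_simp
        ring
      have e2 : 2 * c₁ * (chiA d u * chiS d u / (1 + chiS d u) ^ 2) =
          2 * c₁ * chiA d u * (chiS d u / (1 + chiS d u) ^ 2) := by ring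
      rw [e1, e2]
      refine mul_le_mul_of_nonneg_right ?_ (by positivity)
      have : 2 * C ≤ chiA d u * c₁ := (div_le_iff₀ hc).1 hCA
      nlinarith

end Pool.Agent.Lib_MP_752436_mv
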