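import Pool.Agent.Lib_MP_752436_mv.Defs
import Pool.Agent.Lib_MP_752436_gt.Lap

/-!
Piece P8b: the hybrid function `t + χ (t - s) g`.
-/

open Metric Set Filter
open scoped ContDiff Topology

namespace Pool.Agent.Lib_MP_752436_mv

open Pool.Agent.Lib_MP_752436_gt Pool.Agent.Lib_MP_752436_tp Pool.Agent.Lib_MP_752436_rb

private theorem hybrid_deriv_smooth {χ : ℝ → ℝ} (hχ : ContDiff ℝ ∞ χ) :
    ContDiff ℝ ∞ (deriv χ) := by
  exact (contDiff_infty_iff_deriv.1 hχ).2

private theorem hybrid_hasFDerivAt_comp {t : EuclideanSpace ℝ (Fin 2) → ℝ} (ht : ContDiff ℝ ∞ t)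
    {χ : ℝ → ℝ} (hχ : ContDiff ℝ ∞ χ) (s : ℝ) (y : EuclideanSpace ℝ (Fin 2)) :
    HasFDerivAt (fun y => χ (t y - s)) (deriv χ (t y - s) • fderiv ℝ t y) y := by
  have h1 : HasFDerivAt t (fderiv ℝ t y) y :=
    ((ht.differentiable (by simp)) y).hasFDerivAt
  have h2 : HasFDerivAt (fun y => t y - s) (fderiv ℝ t y) y := h1.sub_const s
  have h3 : HasDerivAt χ (deriv χ (t y - s)) (t y - s) :=
    ((hχ.differentiable (by simp)) (t y - s)).hasDerivAt
  exact h3.comp_hasFDerivAt y h2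

private theorem hybrid_fderiv {t g : EuclideanSpace ℝ (Fin 2) → ℝ} (ht : ContDiff ℝ ∞ t)
    (hg : ContDiff ℝ ∞ g) {χ : ℝ → ℝ} (hχ : ContDiff ℝ ∞ χ) (s : ℝ) :
    (fderiv ℝ fun y => t y + χ (t y - s) * g y) = fun y =>
      (1 + deriv χ (t y - s) * g y) • fderiv ℝ t y + χ (t y - s) • fderiv ℝ g y := by
  funext y
  have h1 : HasFDerivAt t (fderiv ℝ t y) y :=
    ((ht.differentiable (by simp)) y).hasFDerivAt
  have h2 : HasFDerivAt g (fderiv ℝ g y) y :=
    ((hg.differentiable (by simp)) y).hasFDerivAt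
  have h3 := hybrid_hasFDerivAt_comp ht hχ s y
  have h4 : HasFDerivAt (fun y => t y + χ (t y - s) * g y) _ y := h1.add (h3.mul h2)
  rw [h4.fderiv]
  ext v
  simp only [add_apply, smul_apply, smul_eq_mul]
  ring

private theorem hybrid_fderiv_two {t g : EuclideanSpace ℝ (Fin 2) → ℝ} (ht : ContDiff ℝ ∞ t)
    (hg : ContDiff ℝ ∞ g) {χ : ℝ → ℝ} (hχ : ContDiff ℝ ∞ χ) (s : ℝ)
    (x v w : EuclideanSpace ℝ (Fin 2)) :
    fderiv ℝ (fderiv ℝ fun y => t y + χ (t y - s) * g y) x v w =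
      (1 + deriv χ (t x - s) * g x) * fderiv ℝ (fderiv ℝ t) x v w +
      (deriv (deriv χ) (t x - s) * fderiv ℝ t x v * g x + deriv χ (t x - s) * fderiv ℝ g x v) *
        fderiv ℝ t x w +
      χ (t x - s) * fderiv ℝ (fderiv ℝ g) x v w +
      deriv χ (t x - s) * fderiv ℝ t x v * fderiv ℝ g x w := by
  rw [hybrid_fderiv ht hg hχ s]
  have ht2 : ContDiff ℝ ∞ (fderiv ℝ t) := ht.fderiv_right (by simp)
  have hg2 : ContDiff ℝ ∞ (fderiv ℝ g) := hg.fderiv_right (by simp)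
  have h1 : HasFDerivAt (fderiv ℝ t) (fderiv ℝ (fderiv ℝ t) x) x :=
    ((ht2.differentiable (by simp)) x).hasFDerivAt
  have h2 : HasFDerivAt (fderiv ℝ g) (fderiv ℝ (fderiv ℝ g) x) x :=
    ((hg2.differentiable (by simp)) x).hasFDerivAt
  have h0 : HasFDerivAt g (fderiv ℝ g x) x :=
    ((hg.differentiable (by simp)) x).hasFDerivAt
  have h3 := hybrid_hasFDerivAt_comp ht hχ s x
  have h4 := hybrid_hasFDerivAt_comp ht (hybrid_deriv_smooth hχ) s x
  have h5 := (h4.mul h0).const_add 1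
  have h6 : HasFDerivAt (fun y => (1 + deriv χ (t y - s) * g y) • fderiv ℝ t y +
      χ (t y - s) • fderiv ℝ g y) _ x := (h5.smul h1).add (h3.smul h2)
  rw [h6.fderiv]
  simp only [add_apply, smul_apply, smul_eq_mul, ContinuousLinearMap.smulRight_apply,
    Pi.mul_apply]
  ring

/-- P8b: a critical point of the hybrid function above the level `s`. -/
theorem hybrid_lap_neg {t g : Plane → ℝ} (ht : ContDiff ℝ ∞ t) (hg : ContDiff ℝ ∞ g)
    {χ : ℝ → ℝ} (hχ : ContDiff ℝ ∞ χ) {C c₁ s d : ℝ} (hc : 0 < c₁)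
    (hχ0 : ∀ u, 0 ≤ χ u) (hχ1 : ∀ u, d ≤ u → χ u = 1) (hχle : ∀ u, χ u ≤ 1)
    (hpos : ∀ u, 0 < u → 0 < χ u) (hmono : ∀ u, 0 ≤ deriv χ u)
    (hi : ∀ u ∈ Ioo 0 d,
        deriv (deriv χ) u * χ u - 2 * deriv χ u ^ 2 ≤ -(C / c₁) * deriv χ u * χ u ∧
        C * (1 - χ u) * χ u ≤ 2 * c₁ * deriv χ u) {x : Plane} (hx : s < t x)
    (hC : |lap t x| ≤ C)
    (hc₁ : t x < s + d → c₁ ≤ fderiv ℝ t x (EuclideanSpace.single 0 1) ^ 2 +
      fderiv ℝ t x (EuclideanSpace.single 1 1) ^ 2)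
    (hg0 : 0 ≤ g x) (hlap : lap g x ≤ -(C + 1))
    (hcrit : fderiv ℝ (fun y => t y + χ (t y - s) * g y) x = 0) :
    lap (fun y => t y + χ (t y - s) * g y) x < 0 := by
  have hu : 0 < t x - s := by linarith
  have hX := hpos _ hu
  have hcr : ∀ v, (1 + deriv χ (t x - s) * g x) * fderiv ℝ t x v +
      χ (t x - s) * fderiv ℝ g x v = 0 := by
    intro v
    have h1 := congrFun (hybrid_fderiv ht hg hχ s) x
    rw [hcrit] at h1
    have h2 := congrArg (fun l : EuclideanSpace ℝ (Fin 2) →L[ℝ] ℝ => l v) h1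
    simp only [add_apply, smul_apply, smul_eq_mul, zero_apply] at h2
    exact h2.symm
  have h0 := hcr (EuclideanSpace.single 0 1)
  have h1 := hcr (EuclideanSpace.single 1 1)
  have hl : lap (fun y => t y + χ (t y - s) * g y) x =
      (1 + deriv χ (t x - s) * g x) * lap t x + χ (t x - s) * lap g x +
      deriv (deriv χ) (t x - s) * g x * (fderiv ℝ t x (EuclideanSpace.single 0 1) ^ 2 +
        fderiv ℝ t x (EuclideanSpace.single 1 1) ^ 2) +
      2 * deriv χ (t x - s) * (fderiv ℝ t x (EuclideanSpace.single 0 1) *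
        fderiv ℝ g x (EuclideanSpace.single 0 1) +
        fderiv ℝ t x (EuclideanSpace.single 1 1) * fderiv ℝ g x (EuclideanSpace.single 1 1)) := by
    unfold lap
    rw [hybrid_fderiv_two ht hg hχ, hybrid_fderiv_two ht hg hχ]
    ring
  rw [hl]
  have hC' := abs_le.1 hC
  have hC0 : 0 ≤ C := (abs_nonneg _).trans hC
  rcases le_or_gt (s + d) (t x) with hd | hd
  · -- beyond the transition
    have hmax : IsLocalMax χ (t x - s) := by
      refine Filter.Eventually.of_forall fun u => ?_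
      rw [hχ1 _ (by linarith : d ≤ t x - s)]
      exact hχle u
    have hd1 : deriv χ (t x - s) = 0 := hmax.deriv_eq_zero
    have hmin : IsLocalMin (deriv χ) (t x - s) := by
      refine Filter.Eventually.of_forall fun u => ?_
      rw [hd1]
      exact hmono u
    have hd2 : deriv (deriv χ) (t x - s) = 0 := hmin.deriv_eq_zero
    rw [hd1, hd2, hχ1 _ (by linarith : d ≤ t x - s)]
    linarith [hC'.2]
  · have hP := hc₁ hd
    obtain ⟨hi1, hi2⟩ := hi (t x - s) ⟨hu, by linarith⟩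
    have hX' := hmono (t x - s)
    have hXle := hχle (t x - s)
    generalize χ (t x - s) = X at *
    generalize deriv (deriv χ) (t x - s) = X2 at *
    generalize deriv χ (t x - s) = X1 at *
    generalize fderiv ℝ t x (EuclideanSpace.single 0 1) = t0 at *
    generalize fderiv ℝ t x (EuclideanSpace.single 1 1) = t1 at *
    generalize fderiv ℝ g x (EuclideanSpace.single 0 1) = g0 at *
    generalize fderiv ℝ g x (EuclideanSpace.single 1 1) = g1 at *
    generalize lap t x = L at *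
    generalize lap g x = M at *
    generalize g x = G at *
    have hmul : X * ((1 + X1 * G) * L + X * M + X2 * G * (t0 ^ 2 + t1 ^ 2) +
        2 * X1 * (t0 * g0 + t1 * g1)) = X * (1 + X1 * G) * L + X ^ 2 * M +
        (X2 * X - 2 * X1 ^ 2) * (G * (t0 ^ 2 + t1 ^ 2)) - 2 * X1 * (t0 ^ 2 + t1 ^ 2) := by
      have e0 : X * g0 = -((1 + X1 * G) * t0) := by linarith
      have e1 : X * g1 = -((1 + X1 * G) * t1) := by linarith
      calc X * ((1 + X1 * G) * L + X * M + X2 * G * (t0 ^ 2 + t1 ^ 2) +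
          2 * X1 * (t0 * g0 + t1 * g1))
          = X * (1 + X1 * G) * L + X ^ 2 * M + X2 * X * (G * (t0 ^ 2 + t1 ^ 2)) +
            2 * X1 * (t0 * (X * g0) + t1 * (X * g1)) := by ring
        _ = _ := by rw [e0, e1]; ring
    have hPn : 0 ≤ t0 ^ 2 + t1 ^ 2 := by positivity
    generalize hPP : t0 ^ 2 + t1 ^ 2 = P at *
    have hXG : 0 ≤ X1 * G := mul_nonneg hX' hg0
    have b1 : X * (1 + X1 * G) * L ≤ X * (1 + X1 * G) * C :=
      mul_le_mul_of_nonneg_left hC'.2 (mul_nonneg hX.le (by linarith))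
    have b2 : X ^ 2 * M ≤ X ^ 2 * (-(C + 1)) :=
      mul_le_mul_of_nonneg_left hlap (by positivity)
    have b3 : (X2 * X - 2 * X1 ^ 2) * (G * P) ≤ (-(C / c₁) * X1 * X) * (G * P) :=
      mul_le_mul_of_nonneg_right hi1 (mul_nonneg hg0 hPn)
    have b4 : (-(C / c₁) * X1 * X) * (G * P) ≤ -(C * X1 * X * G) := by
      have e : (-(C / c₁) * X1 * X) * (G * P) = -(C * X1 * X * G) * (P / c₁) := by
        field_simp
      rw [e]
      have h1 : 1 ≤ P / c₁ := by rw [le_div_iff₀ hc]; linarith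
      have h2 : 0 ≤ C * X1 * X * G := by positivity
      nlinarith
    have b5 : -(2 * X1 * P) ≤ -(C * (1 - X) * X) := by
      have h1 : 2 * c₁ * X1 ≤ 2 * X1 * P := by nlinarith
      linarith
    have hfin : X * ((1 + X1 * G) * L + X * M + X2 * G * P +
        2 * X1 * (t0 * g0 + t1 * g1)) ≤ -X ^ 2 := by
      rw [hmul]
      have : X * (1 + X1 * G) * C + X ^ 2 * (-(C + 1)) + -(C * X1 * X * G) +
          -(C * (1 - X) * X) = -X ^ 2 := by ring
      linarith
    by_contra hcon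
    have h1 : 0 ≤ X * ((1 + X1 * G) * L + X * M + X2 * G * P +
        2 * X1 * (t0 * g0 + t1 * g1)) := mul_nonneg hX.le (not_lt.1 hcon)
    have h2 : 0 < X ^ 2 := by positivity
    linarith

private theorem hybrid_deriv_zero {χ : ℝ → ℝ} (hχ : ContDiff ℝ ∞ χ)
    (hχ0 : ∀ u ≤ 0, χ u = 0) (u : ℝ) (hu : u ≤ 0) : deriv χ u = 0 := by
  have h1 : HasDerivAt χ (deriv χ u) u := ((hχ.differentiable (by simp)) u).hasDerivAt
  have h2 : HasDerivWithinAt χ (deriv χ u) (Iic u) u := h1.hasDerivWithinAt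
  have h3 : HasDerivWithinAt χ 0 (Iic u) u := by
    refine (hasDerivWithinAt_const u (Iic u) (0 : ℝ)).congr ?_ ?_
    · intro y hy
      exact hχ0 y (le_trans hy hu)
    · exact hχ0 u hu
  exact (uniqueDiffWithinAt_Iic u).eq_deriv _ h2 h3

/-- P8c: below the level `s` nothing changes up to second order. -/
theorem hybrid_below {t g : Plane → ℝ} (ht : ContDiff ℝ ∞ t) (hg : ContDiff ℝ ∞ g)
    {χ : ℝ → ℝ} (hχ : ContDiff ℝ ∞ χ) {s : ℝ} (hχ0 : ∀ u ≤ 0, χ u = 0) {x : Plane}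
    (hx : t x ≤ s) :
    fderiv ℝ (fun y => t y + χ (t y - s) * g y) x = fderiv ℝ t x ∧
    fderiv ℝ (fderiv ℝ (fun y => t y + χ (t y - s) * g y)) x = fderiv ℝ (fderiv ℝ t) x := by
  have hu : t x - s ≤ 0 := by linarith
  have e0 := hχ0 _ hu
  have e1 := hybrid_deriv_zero hχ hχ0 _ hu
  have e2 := hybrid_deriv_zero (hybrid_deriv_smooth hχ) (hybrid_deriv_zero hχ hχ0) _ hu
  constructor
  · rw [hybrid_fderiv ht hg hχ s]
    simp only [e0, e1, zero_mul, add_zero, one_smul, zero_smul]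
  · ext v w
    rw [hybrid_fderiv_two ht hg hχ s, e0, e1, e2]
    ring

end Pool.Agent.Lib_MP_752436_mv
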