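import Pool.Agent.Lib_MP_752436_mv.Defs
import Pool.Agent.Lib_MP_752436_gt.Lowering

/-!
P9: lowering a function near finitely many points, local form.
-/

open Metric Set Filter
open scoped ContDiff Topology

namespace Pool.Agent.Lib_MP_752436_mv

open Pool.Agent.Lib_MP_752436_gt Pool.Agent.Lib_MP_752436_tp Pool.Agent.Lib_MP_752436_rb

theorem exists_lowering_local {P : Finset Plane} {ε R : ℝ} (hε : 0 < ε) (hεR : ε < R)
    (hdisj : ∀ p ∈ P, ∀ q ∈ P, p ≠ q → 2 * R < dist p q)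
    {ψ : Plane → ℝ} (hψ : ContDiff ℝ ∞ ψ) :
    ∃ (B : Plane → ℝ) (P' : Finset Plane), ContDiff ℝ ∞ B ∧ (∀ x, 0 ≤ B x) ∧
      (∀ x, (∀ p ∈ P, R ≤ dist x p) → B x = 0) ∧
      (∀ x, (∀ p ∈ P, ε ≤ dist x p) → 0 ≤ lap B x) ∧ P'.card ≤ P.card ∧
      (∀ x ∈ P', (∃ p ∈ P, dist x p ≤ ε) ∧
        ∀ u, u ≠ 0 → 0 < fderiv ℝ (fderiv ℝ (fun y => ψ y - B y)) x u u) ∧
      ∀ x, (∃ p ∈ P, dist x p ≤ ε) → fderiv ℝ (fun y => ψ y - B y) x = 0 → x ∈ P' := by
  classical
  have hbump := fun p : EuclideanSpace ℝ (Fin 2) => exists_bump p hε hεR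
  choose b hbs hb0 hbR hbl hbM using hbump
  have hM' := fun p : EuclideanSpace ℝ (Fin 2) => hbM p ψ hψ
  choose M hM0 hM using hM'
  have huniq : ∀ p, ∀ x ∈ closedBall p ε, ∀ y ∈ closedBall p ε,
      fderiv ℝ (fun z => ψ z - M p * b p z) x = 0 →
      fderiv ℝ (fun z => ψ z - M p * b p z) y = 0 → x = y := fun p => (hM p (M p) le_rfl).1
  have hposd : ∀ p, ∀ x ∈ closedBall p ε, fderiv ℝ (fun z => ψ z - M p * b p z) x = 0 →
      ∀ u, u ≠ 0 → 0 < fderiv ℝ (fderiv ℝ (fun z => ψ z - M p * b p z)) x u u :=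
    fun p => (hM p (M p) le_rfl).2
  set B : Plane → ℝ := ∑ p ∈ P, (M p) • b p with hB
  have hval : ∀ x, B x = ∑ p ∈ P, M p * b p x := by
    intro x
    simp only [hB, Finset.sum_apply, Pi.smul_apply, smul_eq_mul]
  have hterm : ∀ p ∈ P, ContDiff ℝ ∞ ((M p) • b p) := fun p _ =>
    contDiff_const.smul (hbs p)
  have hsum : ContDiff ℝ ∞ B := by
    have h1 : ContDiff ℝ ∞ (fun x => ∑ p ∈ P, ((M p) • b p) x) := ContDiff.sum hterm
    have h2 : B = fun x => ∑ p ∈ P, ((M p) • b p) x := by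
      funext x
      exact Finset.sum_apply _ _ _
    rw [h2]
    exact h1
  set ψ' : Plane → ℝ := fun y => ψ y - B y with hψ'
  -- the local form
  have hloc : ∀ p ∈ P, ∀ x ∈ closedBall p ε, ψ' =ᶠ[𝓝 x] fun z => ψ z - M p * b p z := by
    intro p hp x hx
    have hx' : dist x p ≤ ε := mem_closedBall.1 hx
    have hev : ∀ᶠ z in 𝓝 x, ∀ q ∈ P.erase p, b q z = 0 := by
      rw [Filter.eventually_all_finset]
      intro q hq
      have hqp : q ≠ p := Finset.ne_of_mem_erase hq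
      have hqP := Finset.mem_of_mem_erase hq
      have h1 := hdisj q hqP p hp hqp
      have h2 : R < dist x q := by
        have h3 := dist_triangle q x p
        rw [dist_comm q x] at h3
        linarith
      have h4 : ∀ᶠ z in 𝓝 x, R < dist z q :=
        (continuous_id.dist continuous_const).continuousAt.eventually (lt_mem_nhds h2)
      filter_upwards [h4] with z hz
      exact hbR q z (by rw [← dist_eq_norm]; exact hz.le)
    filter_upwards [hev] with z hz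
    rw [hψ']
    simp only
    rw [hval, Finset.sum_eq_single_of_mem p hp]
    intro q hq hqp
    rw [hz q (Finset.mem_erase.2 ⟨hqp, hq⟩), mul_zero]
  have hfd : ∀ p ∈ P, ∀ x ∈ closedBall p ε,
      fderiv ℝ ψ' x = fderiv ℝ (fun z => ψ z - M p * b p z) x := fun p hp x hx =>
    (hloc p hp x hx).fderiv_eq
  have hfdd : ∀ p ∈ P, ∀ x ∈ closedBall p ε,
      fderiv ℝ (fderiv ℝ ψ') x = fderiv ℝ (fderiv ℝ (fun z => ψ z - M p * b p z)) x :=
    fun p hp x hx => ((hloc p hp x hx).fderiv).fderiv_eq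
  -- the choice of critical points
  have hch : ∀ p : Plane, ∃ y : Plane,
      (∃ x ∈ closedBall p ε, fderiv ℝ ψ' x = 0) → y ∈ closedBall p ε ∧ fderiv ℝ ψ' y = 0 := by
    intro p
    by_cases h : ∃ x ∈ closedBall p ε, fderiv ℝ ψ' x = 0
    · obtain ⟨x, hx, h0⟩ := h
      exact ⟨x, fun _ => ⟨hx, h0⟩⟩
    · exact ⟨p, fun h' => absurd h' h⟩
  choose c hc using hch
  refine ⟨B, (P.filter fun p => ∃ x ∈ closedBall p ε, fderiv ℝ ψ' x = 0).image c, hsum, ?_, ?_,
    ?_, ?_, ?_, ?_⟩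
  · intro x
    rw [hval]
    exact Finset.sum_nonneg fun p _ => mul_nonneg (hM0 p) (hb0 p x)
  · intro x hx
    rw [hval]
    apply Finset.sum_eq_zero
    intro p hp
    rw [hbR p x (by rw [← dist_eq_norm]; exact hx p hp), mul_zero]
  · intro x hx
    have h2 : lap B x = ∑ p ∈ P, M p * lap (b p) x := by
      rw [hB, lap_finset_sum hterm]
      simp only [Finset.sum_apply]
      apply Finset.sum_congr rfl
      intro p _
      rw [lap_smul _ (hbs p)]
      rfl
    rw [h2]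
    apply Finset.sum_nonneg
    intro p hp
    exact mul_nonneg (hM0 p) (hbl p x (by rw [← dist_eq_norm]; exact hx p hp))
  · exact Finset.card_image_le.trans (Finset.card_filter_le _ _)
  · intro x hx
    obtain ⟨p, hp, rfl⟩ := Finset.mem_image.1 hx
    rw [Finset.mem_filter] at hp
    obtain ⟨hc1, hc2⟩ := hc p hp.2
    refine ⟨⟨p, hp.1, mem_closedBall.1 hc1⟩, ?_⟩
    intro u hu
    rw [hfdd p hp.1 _ hc1]
    apply hposd p _ hc1 _ u hu
    rw [← hfd p hp.1 _ hc1]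
    exact hc2
  · rintro x ⟨p, hp, hxp⟩ h0
    have hxp' : x ∈ closedBall p ε := mem_closedBall.2 hxp
    have hh : ∃ x ∈ closedBall p ε, fderiv ℝ ψ' x = 0 := ⟨x, hxp', h0⟩
    obtain ⟨hc1, hc2⟩ := hc p hh
    refine Finset.mem_image.2 ⟨p, Finset.mem_filter.2 ⟨hp, hh⟩, ?_⟩
    apply huniq p _ hc1 _ hxp'
    · rw [← hfd p hp _ hc1]; exact hc2
    · rw [← hfd p hp _ hxp']; exact h0

end Pool.Agent.Lib_MP_752436_mv
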