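import Pool.Agent.Lib_MP_752436_mv.Defs

/-!
Changing the third coordinate of a slice disc by a function which does not decrease from the
undercrossing points to the overcrossing points.
-/

open Metric Set Filter
open scoped ContDiff Topology

namespace Pool.Agent.Lib_MP_752436_mv

open Pool.Agent.Lib_MP_752436_gt Pool.Agent.Lib_MP_752436_tp Pool.Agent.Lib_MP_752436_rb

variable {F : Plane → EuclideanSpace ℝ (Fin 4)}

@[simp] theorem mkDisc_two (m : Plane → Space) (z : Plane → ℝ) (x : Plane) :
    mkDisc m z x 2 = z x := rfl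

@[simp] theorem mkDisc_three (m : Plane → Space) (z : Plane → ℝ) (x : Plane) :
    mkDisc m z x 3 = m x 2 := rfl

theorem movie_mkDisc (m : Plane → Space) (z : Plane → ℝ) : movie (mkDisc m z) = m := by
  funext x
  ext i
  fin_cases i <;> rfl

theorem mkDisc_movie (F : Plane → EuclideanSpace ℝ (Fin 4)) :
    mkDisc (movie F) (fun x => F x 2) = F := by
  funext x
  ext i
  fin_cases i <;> rfl

theorem contDiff_mkDisc {m : Plane → Space} {z : Plane → ℝ} (hm : ContDiff ℝ ∞ m)
    (hz : ContDiff ℝ ∞ z) : ContDiff ℝ ∞ (mkDisc m z) := by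
  rw [contDiff_euclidean] at hm ⊢
  intro i
  fin_cases i
  · exact hm 0
  · exact hm 1
  · exact hz
  · exact hm 2

/-- The derivative of the disc with movie map `m` and third coordinate `z`. -/
theorem fderiv_mkDisc_eq_zero {m : Plane → Space} {z : Plane → ℝ} (hm : ContDiff ℝ ∞ m)
    (hz : ContDiff ℝ ∞ z) {x u : Plane} (h : fderiv ℝ (mkDisc m z) x u = 0) :
    fderiv ℝ m x u = 0 ∧ fderiv ℝ z x u = 0 := by
  have hmk : HasFDerivAt (mkDisc m z) (fderiv ℝ (mkDisc m z) x) x :=
    (((contDiff_mkDisc hm hz).differentiable (by simp)) x).hasFDerivAt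
  have hmd : HasFDerivAt m (fderiv ℝ m x) x := ((hm.differentiable (by simp)) x).hasFDerivAt
  have hcoord : ∀ j : Fin 4, HasFDerivAt (fun y => mkDisc m z y j)
      ((EuclideanSpace.proj j : EuclideanSpace ℝ (Fin 4) →L[ℝ] ℝ).comp
        (fderiv ℝ (mkDisc m z) x)) x := fun j =>
    (EuclideanSpace.proj j : EuclideanSpace ℝ (Fin 4) →L[ℝ] ℝ).hasFDerivAt.comp x hmk
  have hcoordm : ∀ i : Fin 3, HasFDerivAt (fun y => m y i)
      ((EuclideanSpace.proj i : Space →L[ℝ] ℝ).comp (fderiv ℝ m x)) x := fun i =>
    (EuclideanSpace.proj i : Space →L[ℝ] ℝ).hasFDerivAt.comp x hmd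
  have key : ∀ (i : Fin 3) (j : Fin 4), (fun y => mkDisc m z y j) = (fun y => m y i) →
      fderiv ℝ m x u i = 0 := by
    intro i j hij
    have h1 := hcoord j
    rw [hij] at h1
    have h2 := congrArg (fun l : Plane →L[ℝ] ℝ => l u) (h1.unique (hcoordm i))
    have h3 : fderiv ℝ (mkDisc m z) x u j = fderiv ℝ m x u i := h2
    rw [← h3, h]
    rfl
  constructor
  · ext i
    fin_cases i
    · exact key 0 0 rfl
    · exact key 1 1 rfl
    · exact key 2 3 rfl
  · have h1 := hcoord 2
    have h2 : HasFDerivAt z (fderiv ℝ z x) x := ((hz.differentiable (by simp)) x).hasFDerivAt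
    have h3 := congrArg (fun l : Plane →L[ℝ] ℝ => l u) (h1.unique h2)
    have h4 : fderiv ℝ (mkDisc m z) x u 2 = fderiv ℝ z x u := h3
    rw [← h4, h]
    rfl

theorem movie_congr {G : Plane → EuclideanSpace ℝ (Fin 4)} {x y : Plane} (h : G x = G y) :
    movie G x = movie G y := by
  unfold movie
  rw [h]

theorem isSliceDisc_mkDisc (hF : IsSliceDisc F)
    {w : Plane → ℝ} (hw : ContDiff ℝ ∞ w) (h : MovieRising F w) :
    IsSliceDisc (mkDisc (movie F) fun x => F x 2 + w x) := by
  have hz : ContDiff ℝ ∞ (fun x => F x 2) := contDiff_coord' hF 2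
  refine ⟨contDiff_mkDisc (contDiff_movie hF) (hz.add hw), ?_, ?_, ?_, ?_⟩
  · intro x hx y hy hxy
    have hm : movie F x = movie F y := by
      have h5 : ∀ x, movie (mkDisc (movie F) fun x => F x 2 + w x) x = movie F x := fun x =>
        congrFun (movie_mkDisc (movie F) fun x => F x 2 + w x) x
      rw [← h5 x, ← h5 y]
      exact movie_congr hxy
    have h2 : F x 2 + w x = F y 2 + w y :=
      congrArg (fun v : EuclideanSpace ℝ (Fin 4) => v 2) hxy
    rcases lt_trichotomy (F x 2) (F y 2) with h4 | h4 | h4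
    · have := h.cross y hy x hx hm.symm h4
      linarith
    · exact eq_of_movie hF hx hy hm h4
    · have := h.cross x hx y hy hm h4
      linarith
  · intro x hx
    rw [injective_iff_map_eq_zero]
    intro u hu
    obtain ⟨h1, h2⟩ := fderiv_mkDisc_eq_zero (contDiff_movie hF) (hz.add hw) hu
    have h3 : fderiv ℝ (fun y => F y 2 + w y) x u =
        fderiv ℝ (fun y => F y 2) x u + fderiv ℝ w x u := by
      rw [fderiv_fun_add ((hz.differentiable (by simp)) x) ((hw.differentiable (by simp)) x)]
      rfl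
    rw [h3] at h2
    by_contra hu0
    rcases lt_or_gt_of_ne (dz_ne_zero hF hx hu0 h1) with h4 | h4
    · have h5 := h.cap x hx (-u) (by rw [map_neg, h1, neg_zero]) (by rw [map_neg]; linarith)
      rw [map_neg] at h5
      linarith
    · have h5 := h.cap x hx u h1 h4.le
      linarith
  · intro x hx
    exact hF.boundary x hx
  · intro x hx
    exact hF.interior x hx

theorem boundaryKnot_mkDisc {z : Plane → ℝ} (h : ∀ x ∈ sphere (0 : Plane) 1, z x = F x 2) :
    boundaryKnot (mkDisc (movie F) z) = boundaryKnot F := by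
  unfold boundaryKnot
  refine image_congr fun x hx => ?_
  ext i
  fin_cases i
  · rfl
  · rfl
  · exact h x hx

/-- Multiplication of a rising function with a nonnegative function of the height. -/
theorem MovieRising.mul_height (hF : IsSliceDisc F) {w : Plane → ℝ} (hw : ContDiff ℝ ∞ w)
    (h : MovieRising F w) {β : ℝ → ℝ} (hβ : ContDiff ℝ ∞ β) (h0 : ∀ u, 0 ≤ β u) (c : ℝ) :
    MovieRising F fun x => β (F x 3) * (w x + c) where
  cross := by
    intro x hx y hy hm hz
    have h1 := h.cross x hx y hy hm hz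
    simp only
    rw [height_eq_of_movie hm]
    exact mul_le_mul_of_nonneg_left (by linarith) (h0 _)
  cap := by
    intro x hx u hu hz
    have h1 := h.cap x hx u hu hz
    have ht : ContDiff ℝ ∞ (fun x => F x 3) := contDiff_coord' hF 3
    have e1 : HasFDerivAt (fun x => F x 3) (fderiv ℝ (fun x => F x 3) x) x :=
      ((ht.differentiable (by simp)) x).hasFDerivAt
    have e2 : HasDerivAt β (deriv β (F x 3)) (F x 3) :=
      ((hβ.differentiable (by simp)) _).hasDerivAt
    have e3 : HasFDerivAt (fun x => β (F x 3)) (deriv β (F x 3) • fderiv ℝ (fun x => F x 3) x) x :=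
      e2.comp_hasFDerivAt x e1
    have e4 : HasFDerivAt (fun x => w x + c) (fderiv ℝ w x) x :=
      (((hw.differentiable (by simp)) x).hasFDerivAt).add_const c
    have e5 := e3.mul e4
    have h3 : fderiv ℝ (fun x => F x 3) x u = 0 := by
      rw [fderiv_coord_eq hF, ← (fderiv_movie hF x u).2.2, hu]
      rfl
    have e6 : fderiv ℝ (fun x => β (F x 3) * (w x + c)) x = _ := e5.fderiv
    rw [e6]
    simp only [add_apply, smul_apply, smul_eq_mul, h3, mul_zero, add_zero]
    exact mul_nonneg (h0 _) h1

end Pool.Agent.Lib_MP_752436_mv
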