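import Pool.Agent.Lib_MP_752436_mv.FlipComb
import Pool.Agent.Lib_MP_752436_mv.MkDisc
import Pool.Agent.Lib_MP_752436_tp.FlowBox

/-!
Piece P5a: over and under can be interchanged on any set of closed curves of free crossings, by
lifting the disc near the undercrossing points of these curves.
-/

open Metric Set Filter
open scoped ContDiff Topology Manifold

namespace Pool.Agent.Lib_MP_752436_mv

open Pool.Agent.Lib_MP_752436_gt Pool.Agent.Lib_MP_752436_tp Pool.Agent.Lib_MP_752436_rb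

variable {F : Plane → EuclideanSpace ℝ (Fin 4)} {s : ℝ}
  {v : Plane × Plane → Plane × Plane} {Φ : ℝ → Plane × Plane → Plane × Plane} {ι : Type}
  {G : Curves ι} {φ : ι → Prop}

theorem flipDisc_isCompact [Finite ι] (hG : IsCurves G (FreeSet F s Φ)) :
    IsCompact (flipSet G φ) := by
  have he : flipSet G φ = ⋃ i : {i // φ i}, G.c i '' Icc 0 (G.len i) := by
    ext c
    constructor
    · rintro ⟨i, hi, t, ht, he⟩
      exact mem_iUnion.2 ⟨⟨i, hi⟩, t, ht, he⟩
    · intro hc
      obtain ⟨⟨i, hi⟩, t, ht, he⟩ := mem_iUnion.1 hc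
      exact ⟨i, hi, t, ht, he⟩
  rw [he]
  exact isCompact_iUnion fun i => hG.isCompact_image i

theorem flipDisc_flow (hG : IsCurves G (FreeSet F s Φ)) (hcl : ∀ i, G.closed i)
    (hΦ : ∀ i r t, Φ r (G.c i t) = G.c i (t + r)) {c : Plane × Plane}
    (hc : c ∈ flipSet G φ) (r : ℝ) : Φ r c ∈ flipSet G φ := by
  obtain ⟨i, hi, t, ht, rfl⟩ := hc
  obtain ⟨t', ht', he⟩ := hG.exists_Icc (t := t + r) (Or.inl (hcl i))
  exact ⟨i, hi, t', ht', by rw [he, hΦ]⟩

/-- The pairs of points in the same fibre of the movie map which are not to be flipped. -/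
def flipDiscBad (F : Plane → EuclideanSpace ℝ (Fin 4)) (Fl : Set (Plane × Plane)) :
    Set (Plane × Plane) :=
  {c | (c.1 ∈ closedBall (0 : Plane) 1 ∧ c.2 ∈ closedBall (0 : Plane) 1) ∧
    movie F c.1 = movie F c.2 ∧ F c.2 2 < F c.1 2 ∧ c ∉ Fl}

theorem flipDisc_closure (hF : IsSliceDisc F) {Fl : Set (Plane × Plane)} {c : Plane × Plane}
    (hc : c ∈ closure (flipDiscBad F Fl)) :
    (c.1 ∈ closedBall (0 : Plane) 1 ∧ c.2 ∈ closedBall (0 : Plane) 1) ∧
      movie F c.1 = movie F c.2 ∧ F c.2 2 ≤ F c.1 2 := by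
  have hm : Continuous (movie F) := (contDiff_movie hF).continuous
  have hz : Continuous (fun x => F x 2) := (contDiff_coord' hF 2).continuous
  have hcl : IsClosed {c : Plane × Plane | (c.1 ∈ closedBall (0 : Plane) 1 ∧
      c.2 ∈ closedBall (0 : Plane) 1) ∧ movie F c.1 = movie F c.2 ∧ F c.2 2 ≤ F c.1 2} :=
    ((isClosed_closedBall.preimage continuous_fst).inter
      (isClosed_closedBall.preimage continuous_snd)).inter
      ((isClosed_eq (hm.comp continuous_fst) (hm.comp continuous_snd)).inter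
        (isClosed_le (hz.comp continuous_snd) (hz.comp continuous_fst)))
  have hsub : flipDiscBad F Fl ⊆ {c : Plane × Plane | (c.1 ∈ closedBall (0 : Plane) 1 ∧
      c.2 ∈ closedBall (0 : Plane) 1) ∧ movie F c.1 = movie F c.2 ∧ F c.2 2 ≤ F c.1 2} :=
    fun d hd => ⟨hd.1, hd.2.1, hd.2.2.1.le⟩
  exact closure_minimal hsub hcl hc

theorem flipDisc_notMem (hF : IsSliceDisc F) (hg : GenericMovie F s) (h : CutFlow (movie F) v Φ)
    (hG : IsCurves G (FreeSet F s Φ)) (hcl : ∀ i, G.closed i)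
    (hΦ : ∀ i r t, Φ r (G.c i t) = G.c i (t + r)) {c : Plane × Plane}
    (hc : c ∈ flipSet G φ) {x : Plane} :
    (x, c.2) ∉ closure (flipDiscBad F (flipSet G φ)) := by
  intro hx
  obtain ⟨⟨hxD, -⟩, hm, hz⟩ := flipDisc_closure hF hx
  simp only at hxD hm hz
  obtain ⟨hcr, hmv⟩ := flipComb_flipSet hG hc
  by_cases hxy : x = c.2
  · rw [hxy] at hx
    obtain ⟨N, hN, hNinj⟩ := eventually_injOn_of_strict
      (((contDiff_movie hF).contDiffAt (x := c.2)).hasStrictFDerivAt (by simp)) (hg.inj_snd hcr)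
    obtain ⟨d, hd, hbad⟩ := mem_closure_iff_nhds.1 hx (N ×ˢ N) (prod_mem_nhds hN hN)
    have h1 := hNinj hd.1 hd.2 hbad.2.1
    have h2 := hbad.2.2.1
    rw [h1] at h2
    exact lt_irrefl _ h2
  · have hs : s ≤ F x 3 := by
      rw [height_eq_of_movie hm, ← Crossings.height_eq hcr]
      exact hcr.2.2.1
    have hxc : (x, c.2) ∈ Crossings F s := by
      rcases crossings_total hF hxD hcr.2.1 hs hxy hm with h1 | h1
      · exact h1
      · exact absurd h1.2.2.2.2 (not_lt.2 hz)
    by_cases hxp : x = c.1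
    · have hxc' : (x, c.2) = c := by rw [hxp]
      rw [hxc'] at hx
      obtain ⟨O, hO, hbox⟩ := flowBox (contDiff_movie hF) h hcr.1 hcr.2.1 hcr.2.2.2.1
        (hg.inj_fst hcr) (hg.inj_snd hcr) (hg.double c.1 c.2 hcr) one_pos
      obtain ⟨d, hd, hbad⟩ := mem_closure_iff_nhds.1 hx O hO
      obtain ⟨t, -, ht⟩ := hbox d hd hbad.2.1
      exact hbad.2.2.2 (ht ▸ flipDisc_flow hG hcl hΦ hc t)
    · rcases crossings_total hF hxD hcr.1 hs hxp (hm.trans hcr.2.2.2.1.symm) with h1 | h1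
      · exact hmv ⟨x, c.1, h1, hcr⟩
      · exact hmv ⟨c.1, x, h1, hxc⟩

theorem flipDisc_exists_open (hF : IsSliceDisc F) (hs : 0 < s) (hg : GenericMovie F s)
    (h : CutFlow (movie F) v Φ) [Finite ι]
    (hG : IsCurves G (FreeSet F s Φ)) (hcl : ∀ i, G.closed i)
    (hΦ : ∀ i r t, Φ r (G.c i t) = G.c i (t + r)) (φ : ι → Prop) :
    ∃ O : Set Plane, IsOpen O ∧ (∀ c ∈ flipSet G φ, c.2 ∈ O ∧ c.1 ∉ O) ∧ O ⊆ ball 0 1 ∧
      (∀ x ∈ O, Function.Injective (fderiv ℝ (movie F) x)) ∧
      ∀ x ∈ closedBall (0 : Plane) 1, ∀ y ∈ closedBall (0 : Plane) 1, movie F x = movie F y →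
        F y 2 < F x 2 → y ∈ O → (x, y) ∈ flipSet G φ := by
  set Fl := flipSet G φ with hFl
  have hFlc : IsCompact Fl := flipDisc_isCompact hG
  have hB : IsCompact (closure (flipDiscBad F Fl)) :=
    ((isCompact_closedBall (0 : Plane) 1).prod (isCompact_closedBall (0 : Plane) 1)).of_isClosed_subset
      isClosed_closure (fun c hc => ⟨(flipDisc_closure hF hc).1.1, (flipDisc_closure hF hc).1.2⟩)
  have hinj : IsOpen {x | Function.Injective (fderiv ℝ (movie F) x)} :=
    (ContinuousLinearMap.isOpen_injective (𝕜 := ℝ) (E := Plane) (F := Space)).preimage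
      ((contDiff_movie hF).continuous_fderiv (by simp))
  refine ⟨(ball 0 1 ∩ {x | Function.Injective (fderiv ℝ (movie F) x)}) ∩
    ((Prod.fst '' Fl)ᶜ ∩ (Prod.snd '' closure (flipDiscBad F Fl))ᶜ),
    (isOpen_ball.inter hinj).inter ((hFlc.image continuous_fst).isClosed.isOpen_compl.inter
      (hB.image continuous_snd).isClosed.isOpen_compl), ?_, fun x hx => hx.1.1,
    fun x hx => hx.1.2, ?_⟩
  · intro c hc
    obtain ⟨hcr, hmv⟩ := flipComb_flipSet hG hc
    refine ⟨⟨⟨mem_ball_snd hF hs hcr, hg.inj_snd hcr⟩, ?_, ?_⟩, fun hO => hO.2.1 ⟨c, hc, rfl⟩⟩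
    · rintro ⟨d, hd, hdc⟩
      obtain ⟨hdr, hdm⟩ := flipComb_flipSet hG hd
      have h1 : (c.2, d.2) ∈ Crossings F s := by rw [← hdc]; exact hdr
      exact hdm ⟨c.1, c.2, hcr, h1⟩
    · rintro ⟨d, hd, hdc⟩
      have h1 : (d.1, c.2) ∈ closure (flipDiscBad F Fl) := by rw [← hdc]; exact hd
      exact flipDisc_notMem hF hg h hG hcl hΦ hc h1
  · intro x hx y hy hm hz hO
    by_contra hn
    exact hO.2.2 ⟨(x, y), subset_closure ⟨⟨hx, hy⟩, hm, hz, hn⟩, rfl⟩

theorem exists_flipDisc {F : Plane → EuclideanSpace ℝ (Fin 4)} {s : ℝ} (hF : IsSliceDisc F)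
    (hs : 0 < s) (hg : GenericMovie F s) {v : Plane × Plane → Plane × Plane}
    {Φ : ℝ → Plane × Plane → Plane × Plane} (h : CutFlow (movie F) v Φ) {ι : Type} [Finite ι]
    {G : Curves ι} (hG : IsCurves G (FreeSet F s Φ)) (hcl : ∀ i, G.closed i)
    (hΦ : ∀ i r t, Φ r (G.c i t) = G.c i (t + r)) (φ : ι → Prop) :
    ∃ F', IsFlipOf F F' s G φ := by
  obtain ⟨O, hO, hFlO, hOb, hOi, hOp⟩ := flipDisc_exists_open hF hs hg h hG hcl hΦ φ
  have hFlc : IsCompact (flipSet G φ) := flipDisc_isCompact hG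
  have hcr : ∀ {c}, c ∈ flipSet G φ → c ∈ Crossings F s := fun hc => (flipComb_flipSet hG hc).1
  -- the bump function
  obtain ⟨b, hbs, hb0, hb1, hb01⟩ : ∃ b : Plane → ℝ, ContDiff ℝ ∞ b ∧ (∀ x, x ∉ O → b x = 0) ∧
      (∀ c ∈ flipSet G φ, b c.2 = 1) ∧ ∀ x, 0 ≤ b x := by
    have hd : Disjoint Oᶜ (Prod.snd '' flipSet G φ) := by
      rw [disjoint_compl_left_iff_subset]
      rintro _ ⟨c, hc, rfl⟩
      exact (hFlO c hc).1
    obtain ⟨f, h0, h1, h01⟩ := exists_contMDiffMap_zero_one_of_isClosed 𝓘(ℝ, Plane) (n := ⊤)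
      hO.isClosed_compl (hFlc.image continuous_snd).isClosed hd
    exact ⟨f, f.contMDiff.contDiff, fun x hx => h0 hx, fun c hc => h1 ⟨c, hc, rfl⟩,
      fun x => (h01 x).1⟩
  have hzs : ContDiff ℝ ∞ (fun x => F x 2) := contDiff_coord' hF 2
  -- the constant
  obtain ⟨A, hA, hA0⟩ : ∃ A : ℝ, (∀ x ∈ closedBall (0 : Plane) 1, ∀ y ∈ closedBall (0 : Plane) 1,
      F x 2 - F y 2 < A) ∧ 0 ≤ A := by
    obtain ⟨C, hC⟩ := (isCompact_closedBall (0 : Plane) 1).exists_bound_of_continuousOn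
      hzs.continuous.continuousOn
    have hC0 : 0 ≤ C := (norm_nonneg _).trans (hC 0 (mem_closedBall_self zero_le_one))
    refine ⟨2 * C + 1, fun x hx y hy => ?_, by linarith⟩
    have h1 := (abs_le.1 (hC x hx)).2
    have h2 := (abs_le.1 (hC y hy)).1
    linarith
  set z : Plane → ℝ := fun x => F x 2 + A * b x with hz
  have hzd : ContDiff ℝ ∞ z := hzs.add (contDiff_const.mul hbs)
  have hms : ContDiff ℝ ∞ (movie F) := contDiff_movie hF
  have keyFl : ∀ x y, (x, y) ∈ flipSet G φ → z x < z y := by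
    intro x y hxy
    have h1 := hcr hxy
    have h2 := hb0 x (hFlO _ hxy).2
    have h3 := hb1 _ hxy
    simp only at h3
    have h4 := hA x h1.1 y h1.2.1
    simp only [hz, h2, h3]
    linarith
  have keyN : ∀ x ∈ closedBall (0 : Plane) 1, ∀ y ∈ closedBall (0 : Plane) 1,
      movie F x = movie F y → F y 2 < F x 2 → (x, y) ∉ flipSet G φ → z y < z x := by
    intro x hx y hy hm hlt hn
    have h1 := hb0 y fun hyO => hn (hOp x hx y hy hm hlt hyO)
    have h2 := mul_nonneg hA0 (hb01 x)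
    simp only [hz, h1]
    linarith
  have hne : ∀ x ∈ closedBall (0 : Plane) 1, ∀ y ∈ closedBall (0 : Plane) 1,
      movie F x = movie F y → z x = z y → x = y := by
    intro x hx y hy hm hzz
    rcases lt_trichotomy (F x 2) (F y 2) with h4 | h4 | h4
    · by_cases hfl : (y, x) ∈ flipSet G φ
      · exact absurd hzz (keyFl _ _ hfl).ne'
      · exact absurd hzz (keyN y hy x hx hm.symm h4 hfl).ne
    · exact eq_of_movie hF hx hy hm h4
    · by_cases hfl : (x, y) ∈ flipSet G φ
      · exact absurd hzz (keyFl _ _ hfl).ne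
      · exact absurd hzz (keyN x hx y hy hm h4 hfl).ne'
  have hmm : ∀ x, movie (mkDisc (movie F) z) x = movie F x := fun x =>
    congrFun (movie_mkDisc (movie F) z) x
  refine ⟨mkDisc (movie F) z, ?_, movie_mkDisc _ _, ?_, ?_⟩
  · refine ⟨contDiff_mkDisc hms hzd, ?_, ?_, ?_, ?_⟩
    · intro x hx y hy hxy
      have hm : movie F x = movie F y := by
        rw [← hmm x, ← hmm y]
        exact movie_congr hxy
      exact hne x hx y hy hm (congrArg (fun v : EuclideanSpace ℝ (Fin 4) => v 2) hxy)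
    · intro x hx
      rw [injective_iff_map_eq_zero]
      intro u hu
      obtain ⟨h1, h2⟩ := fderiv_mkDisc_eq_zero hms hzd hu
      by_cases hxO : x ∈ O
      · exact hOi x hxO (h1.trans (map_zero _).symm)
      · have h3 : fderiv ℝ b x = 0 := by
          apply IsLocalMin.fderiv_eq_zero
          refine Filter.Eventually.of_forall fun y => ?_
          rw [hb0 x hxO]
          exact hb01 y
        have h4 : fderiv ℝ z x = fderiv ℝ (fun y => F y 2) x := by
          rw [hz, fderiv_fun_add ((hzs.differentiable (by simp)) x)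
            (((hbs.differentiable (by simp)) x).const_mul A),
            fderiv_const_mul ((hbs.differentiable (by simp)) x), h3, smul_zero, add_zero]
        rw [h4] at h2
        by_contra hu0
        exact dz_ne_zero hF hx hu0 h1 h2
    · intro x hx
      exact hF.boundary x hx
    · intro x hx
      exact hF.interior x hx
  · refine boundaryKnot_mkDisc fun x hx => ?_
    have h1 : x ∉ O := fun hxO => by
      have h2 := mem_ball.1 (hOb hxO)
      rw [mem_sphere.1 hx] at h2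
      exact lt_irrefl _ h2
    simp only [hz, hb0 x h1, mul_zero, add_zero]
  · rintro ⟨x, y⟩
    constructor
    · rintro ⟨hx, hy, hsx, hm, hzz⟩
      simp only [mkDisc_two, mkDisc_three, movie_two] at hx hy hsx hm hzz
      rw [hmm, hmm] at hm
      have hxy : x ≠ y := fun he => by
        rw [he] at hzz
        exact lt_irrefl _ hzz
      rcases crossings_total hF hx hy hsx hxy hm with h1 | h1
      · exact Or.inl ⟨h1, fun hfl => lt_asymm hzz (keyFl _ _ hfl)⟩
      · refine Or.inr ?_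
        by_contra hfl
        exact lt_asymm hzz (keyN y hy x hx hm.symm h1.2.2.2.2 hfl)
    · rintro (⟨h1, hfl⟩ | hfl)
      · refine ⟨h1.1, h1.2.1, h1.2.2.1, ?_, ?_⟩
        · rw [hmm, hmm]
          exact h1.2.2.2.1
        · exact keyN x h1.1 y h1.2.1 h1.2.2.2.1 h1.2.2.2.2 hfl
      · have h1 := hcr hfl
        refine ⟨h1.2.1, h1.1, ?_, ?_, ?_⟩
        · have h2 := Crossings.height_eq h1
          have h3 := h1.2.2.1
          simp only [Prod.fst_swap, Prod.snd_swap] at h2 h3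
          show s ≤ F x 3
          rw [← h2]
          exact h3
        · rw [hmm, hmm]
          exact h1.2.2.2.1.symm
        · exact keyFl _ _ hfl

end Pool.Agent.Lib_MP_752436_mv
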