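import Pool.Agent.Lib_MP_752436_mv.MkDisc
import Pool.Agent.Lib_MP_752436_nb.Direction

/-!
Births from the critical points of a hybrid function: the height below the level `s`, and the height
plus a rising function above.
-/

open Metric Set Filter
open scoped ContDiff Topology

namespace Pool.Agent.Lib_MP_752436_mv

open Pool.Agent.Lib_MP_752436_gt Pool.Agent.Lib_MP_752436_tp Pool.Agent.Lib_MP_752436_rb
  Pool.Agent.Lib_MP_752436_nb

/-- A smooth nonnegative function which is the identity on `[1, ∞)`. -/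
noncomputable def hyZeta (x : ℝ) : ℝ := x * Real.smoothTransition (2 * x - 1)

theorem contDiff_hyZeta : ContDiff ℝ ∞ hyZeta :=
  contDiff_id.mul (Real.smoothTransition.contDiff.comp
    ((contDiff_const.mul contDiff_id).sub contDiff_const))

theorem hyZeta_nonneg (x : ℝ) : 0 ≤ hyZeta x := by
  unfold hyZeta
  rcases le_or_gt x 0 with h | h
  · rw [Real.smoothTransition.zero_of_nonpos (by linarith), mul_zero]
  · exact mul_nonneg h.le (Real.smoothTransition.nonneg _)

theorem hyZeta_of_one_le {x : ℝ} (h : 1 ≤ x) : hyZeta x = x := by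
  unfold hyZeta
  rw [Real.smoothTransition.one_of_one_le (by linarith), mul_one]

/-- The function of `R^4` used for the hybrid height. -/
noncomputable def hyPsi (χ : ℝ → ℝ) (s : ℝ) (p : EuclideanSpace ℝ (Fin 4)) : ℝ :=
  p 3 + χ (p 3 - s) * hyZeta (p 2)

theorem contDiff_hyPsi {χ : ℝ → ℝ} (hχ : ContDiff ℝ ∞ χ) (s : ℝ) : ContDiff ℝ ∞ (hyPsi χ s) := by
  have h : ∀ i : Fin 4, ContDiff ℝ ∞ fun p : EuclideanSpace ℝ (Fin 4) => p i := fun i =>
    (EuclideanSpace.proj i : EuclideanSpace ℝ (Fin 4) →L[ℝ] ℝ).contDiff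
  exact (h 3).add ((hχ.comp ((h 3).sub contDiff_const)).mul (contDiff_hyZeta.comp (h 2)))

theorem hyPsi_mono {χ : ℝ → ℝ} (hχ : ContDiff ℝ ∞ χ) (s : ℝ) (hmono : ∀ u, 0 ≤ deriv χ u)
    (p : EuclideanSpace ℝ (Fin 4)) :
    0 ≤ fderiv ℝ (hyPsi χ s) p (EuclideanSpace.single 3 1) := by
  have hcur : ∀ r : ℝ, HasDerivAt
      (fun r : ℝ => p + r • (EuclideanSpace.single 3 1 : EuclideanSpace ℝ (Fin 4)))
      (EuclideanSpace.single 3 1) r := by
    intro r
    have h1 : HasDerivAt (fun r : ℝ => r • (EuclideanSpace.single 3 1 : EuclideanSpace ℝ (Fin 4)))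
        ((1 : ℝ) • EuclideanSpace.single 3 1) r := (hasDerivAt_id r).smul_const _
    rw [one_smul] at h1
    exact h1.const_add p
  have h0 : HasDerivAt (fun r : ℝ => hyPsi χ s
      (p + r • (EuclideanSpace.single 3 1 : EuclideanSpace ℝ (Fin 4))))
      (fderiv ℝ (hyPsi χ s) p (EuclideanSpace.single 3 1)) 0 := by
    have h1 : HasFDerivAt (hyPsi χ s) (fderiv ℝ (hyPsi χ s) p)
        (p + (0 : ℝ) • (EuclideanSpace.single 3 1 : EuclideanSpace ℝ (Fin 4))) := by
      rw [zero_smul, add_zero]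
      exact (((contDiff_hyPsi hχ s).differentiable (by simp)) p).hasFDerivAt
    exact h1.comp_hasDerivAt 0 (hcur 0)
  have heq : (fun r : ℝ => hyPsi χ s
      (p + r • (EuclideanSpace.single 3 1 : EuclideanSpace ℝ (Fin 4)))) =
      fun r : ℝ => (p 3 + r) + χ (p 3 + r - s) * hyZeta (p 2) := by
    funext r
    unfold hyPsi
    have e3 : (p + r • (EuclideanSpace.single 3 1 : EuclideanSpace ℝ (Fin 4))) 3 = p 3 + r := by
      simp
    have e2 : (p + r • (EuclideanSpace.single 3 1 : EuclideanSpace ℝ (Fin 4))) 2 = p 2 := by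
      simp
    rw [e3, e2]
  have h2 : HasDerivAt (fun r : ℝ => (p 3 + r) + χ (p 3 + r - s) * hyZeta (p 2))
      (1 + deriv χ (p 3 + 0 - s) * 1 * hyZeta (p 2)) 0 := by
    have e1 : HasDerivAt (fun r : ℝ => p 3 + r) 1 0 := (hasDerivAt_id (0 : ℝ)).const_add _
    have e2 : HasDerivAt χ (deriv χ (p 3 + 0 - s)) (p 3 + 0 - s) :=
      ((hχ.differentiable (by simp)) _).hasDerivAt
    have e3 : HasDerivAt (fun r : ℝ => χ (p 3 + r - s)) (deriv χ (p 3 + 0 - s) * 1) 0 :=
      e2.comp (0 : ℝ) (e1.sub_const s)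
    exact e1.add (e3.mul_const _)
  rw [heq] at h0
  rw [h0.unique h2]
  have h3 := hmono (p 3 + 0 - s)
  have h4 := hyZeta_nonneg (p 2)
  have := mul_nonneg h3 h4
  linarith

theorem boundaryKnot_congr' {F G : Plane → EuclideanSpace ℝ (Fin 4)}
    (h : ∀ x, ∀ i, i ≠ 3 → G x i = F x i) : boundaryKnot G = boundaryKnot F := by
  unfold boundaryKnot
  refine image_congr fun x _ => ?_
  ext i
  fin_cases i
  · exact h x 0 (by decide)
  · exact h x 1 (by decide)
  · exact h x 2 (by decide)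

theorem births_of_hybrid {F : Plane → EuclideanSpace ℝ (Fin 4)} (hF : IsSliceDisc F) {s : ℝ}
    (hs : 0 < s) {w : Plane → ℝ} (hw : ContDiff ℝ ∞ w) (hrise : MovieRising F w) {χ : ℝ → ℝ}
    (hχ : ContDiff ℝ ∞ χ) (hχ0 : ∀ u ≤ 0, χ u = 0) (hmono : ∀ u, 0 ≤ deriv χ u)
    (hg1 : ∀ x ∈ closedBall (0 : Plane) 1, 1 ≤ F x 2 + w x) (P : Finset Plane)
    (hP : ∀ p ∈ P, p ∈ ball (0 : Plane) 1 ∧ ∀ u, u ≠ 0 →
      0 < fderiv ℝ (fderiv ℝ (fun y => F y 3 + χ (F y 3 - s) * (F y 2 + w y))) p u u)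
    (hcrit : ∀ x ∈ closedBall (0 : Plane) 1,
      fderiv ℝ (fun y => F y 3 + χ (F y 3 - s) * (F y 2 + w y)) x = 0 →
      (∃ u, fderiv ℝ (fderiv ℝ (fun y => F y 3 + χ (F y 3 - s) * (F y 2 + w y))) x u u < 0) ∨
        x ∈ P) :
    ∃ G, MorseDisc G ∧ (births G).encard ≤ P.card ∧ boundaryKnot G = boundaryKnot F := by
  set β : ℝ → ℝ := fun u => Real.smoothTransition (4 * u / s - 1) with hβ
  have hβs : ContDiff ℝ ∞ β := Real.smoothTransition.contDiff.comp
    (((contDiff_const.mul contDiff_id).div_const s).sub contDiff_const)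
  have hβ0 : ∀ u, 0 ≤ β u := fun u => Real.smoothTransition.nonneg _
  have hβ1 : ∀ u, s / 2 ≤ u → β u = 1 := by
    intro u hu
    apply Real.smoothTransition.one_of_one_le
    have : 2 ≤ 4 * u / s := by
      rw [le_div_iff₀ hs]; linarith
    linarith
  have hβz : β 0 = 0 := by
    apply Real.smoothTransition.zero_of_nonpos
    simp
  have hr1 := hrise.mul_height hF hw hβs hβ0 0
  have hw1 : ContDiff ℝ ∞ fun x => β (F x 3) * (w x + 0) :=
    (hβs.comp (contDiff_coord' hF 3)).mul (hw.add contDiff_const)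
  have hF1 := isSliceDisc_mkDisc hF hw1 hr1
  set F1 : Plane → EuclideanSpace ℝ (Fin 4) :=
    mkDisc (movie F) (fun x => F x 2 + β (F x 3) * (w x + 0)) with hF1d
  have hval : ∀ y, hyPsi χ s (F1 y) =
      F y 3 + χ (F y 3 - s) * hyZeta (F y 2 + β (F y 3) * (w y + 0)) := fun y => rfl
  have htc : Continuous (fun x => F x 3) := (contDiff_coord' hF 3).continuous
  have hloc : ∀ x ∈ closedBall (0 : Plane) 1, (fun y => hyPsi χ s (F1 y)) =ᶠ[𝓝 x]
      fun y => F y 3 + χ (F y 3 - s) * (F y 2 + w y) := by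
    intro x hx
    rcases le_or_gt (F x 3) (s / 2) with h | h
    · have h1 : ∀ᶠ y in 𝓝 x, F y 3 < s :=
        htc.continuousAt.eventually (gt_mem_nhds (by linarith))
      filter_upwards [h1] with y hy
      rw [hval, hχ0 _ (by linarith), zero_mul, zero_mul]
    · have hxb : x ∈ ball (0 : Plane) 1 := mem_ball_of_height hF hx (by linarith)
      have h1 : ∀ᶠ y in 𝓝 x, s / 2 < F y 3 := htc.continuousAt.eventually (lt_mem_nhds h)
      have h2 : ∀ᶠ y in 𝓝 x, y ∈ ball (0 : Plane) 1 := isOpen_ball.mem_nhds hxb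
      filter_upwards [h1, h2] with y hy hyb
      rw [hval, hβ1 _ hy.le, one_mul, add_zero,
        hyZeta_of_one_le (hg1 y (ball_subset_closedBall hyb))]
  have hfd : ∀ x ∈ closedBall (0 : Plane) 1, fderiv ℝ (fun y => hyPsi χ s (F1 y)) x =
      fderiv ℝ (fun y => F y 3 + χ (F y 3 - s) * (F y 2 + w y)) x := fun x hx =>
    (hloc x hx).fderiv_eq
  have hfdd : ∀ x ∈ closedBall (0 : Plane) 1,
      fderiv ℝ (fderiv ℝ (fun y => hyPsi χ s (F1 y))) x =
      fderiv ℝ (fderiv ℝ (fun y => F y 3 + χ (F y 3 - s) * (F y 2 + w y))) x := fun x hx =>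
    ((hloc x hx).fderiv).fderiv_eq
  obtain ⟨G, hG, hGn, hGF, -⟩ := births_of_height hF1 (contDiff_hyPsi hχ s)
    (hyPsi_mono hχ s hmono) P
    (by
      intro p hp
      obtain ⟨h1, h2⟩ := hP p hp
      refine ⟨h1, fun u hu => ?_⟩
      rw [hfdd p (ball_subset_closedBall h1)]
      exact h2 u hu)
    (by
      intro x hx h0
      rw [hfd x hx] at h0
      rw [hfdd x hx]
      exact hcrit x hx h0)
  refine ⟨G, hG, hGn, (boundaryKnot_congr' hGF).trans ?_⟩
  refine boundaryKnot_mkDisc fun x hx => ?_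
  rw [hF.boundary x hx, hβz, zero_mul, add_zero]

end Pool.Agent.Lib_MP_752436_mv
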