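import Pool.Agent.Lib_MP_752436_mv.Defs
import Pool.Agent.Lib_MP_752436_mv.CapOrbit
import Pool.Agent.Lib_MP_752436_tp.Exists

/-!
Piece P4b: Orbits.lean. The free crossings form finitely many closed curves.
-/

open Metric Set Filter
open scoped ContDiff Topology

namespace Pool.Agent.Lib_MP_752436_mv

open Pool.Agent.Lib_MP_752436_gt Pool.Agent.Lib_MP_752436_tp Pool.Agent.Lib_MP_752436_rb

section Aux

variable {F : Plane → EuclideanSpace ℝ (Fin 4)} {s : ℝ} {v : Plane × Plane → Plane × Plane}
  {Φ : ℝ → Plane × Plane → Plane × Plane}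

private theorem orbits_continuous_coord (hF : IsSliceDisc F) (i : Fin 4) :
    Continuous (fun x => F x i) := (contDiff_coord' hF i).continuous

private theorem orbits_continuous_flow (h : CutFlow (movie F) v Φ) (c : Plane × Plane) :
    Continuous fun t => Φ t c :=
  continuous_iff_continuousAt.mpr fun t => (h.flow.deriv c t).continuousAt

/-- The free set is invariant under the flow. -/
private theorem orbits_free_flow (h : CutFlow (movie F) v Φ) {c : Plane × Plane}
    (hc : c ∈ FreeSet F s Φ) (r : ℝ) : Φ r c ∈ FreeSet F s Φ := by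
  obtain ⟨⟨T, hT, hTc⟩, hr⟩ := hc
  refine ⟨⟨T, hT, ?_⟩, fun r' => ?_⟩
  · rw [← h.flow.add, add_comm, h.flow.add, hTc]
  · rw [← h.flow.add]
    exact hr _

private theorem orbits_of_flow (h : CutFlow (movie F) v Φ) {c : Plane × Plane} {r : ℝ}
    (hc : Φ r c ∈ FreeSet F s Φ) : c ∈ FreeSet F s Φ := by
  have h1 := orbits_free_flow h hc (-r)
  rw [← h.flow.add, neg_add_cancel, h.flow.zero] at h1
  exact h1

private theorem orbits_free_cross (h : CutFlow (movie F) v Φ) {c : Plane × Plane}
    (hc : c ∈ FreeSet F s Φ) : c ∈ Crossings F s := by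
  have := (hc.2 0).1
  rwa [h.flow.zero] at this

private theorem orbits_field_eq (h : CutFlow (movie F) v Φ) {c : Plane × Plane}
    (hc : c ∈ Crossings F s) : v c = field (movie F) c :=
  h.agree c (mem_ball.mpr ((mem_closedBall.mp hc.1).trans_lt (by norm_num)))
    (mem_ball.mpr ((mem_closedBall.mp hc.2.1).trans_lt (by norm_num)))

private theorem orbits_kernel (hg : GenericMovie F s) {c : Plane × Plane}
    (hc : c ∈ Crossings F s) :
    (field (movie F) c).1 ≠ 0 ∧ (field (movie F) c).2 ≠ 0 :=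
  let h := field_kernel (hg.inj_fst hc) (hg.inj_snd hc) (hg.double c.1 c.2 hc)
  ⟨h.1, h.2.1⟩

private theorem orbits_box (hF : IsSliceDisc F) (hg : GenericMovie F s)
    (h : CutFlow (movie F) v Φ) {c : Plane × Plane} (hc : c ∈ Crossings F s) {η : ℝ}
    (hη : 0 < η) : ∃ O ∈ 𝓝 c, ∀ p ∈ O, movie F p.1 = movie F p.2 → ∃ t, |t| < η ∧ Φ t c = p :=
  flowBox (contDiff_movie hF) h hc.1 hc.2.1 hc.2.2.2.1 (hg.inj_fst hc) (hg.inj_snd hc)
    (hg.double c.1 c.2 hc) hη

/-- A point at which the derivative of the movie map is injective is not a limit of crossings. -/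
private theorem orbits_not_inj (hF : IsSliceDisc F) {x : Plane} 
    (hx : (x, x) ∈ closure (FreeSet F s Φ)) (h : CutFlow (movie F) v Φ) :
    ¬ Function.Injective (fderiv ℝ (movie F) x) := by
  intro hinj
  obtain ⟨N, hN, hNinj⟩ := eventually_injOn_of_strict
    (((contDiff_movie hF).contDiffAt (x := x)).hasStrictFDerivAt (by simp)) hinj
  obtain ⟨q, hqO, hqD⟩ := mem_closure_iff_nhds.mp hx _ (prod_mem_nhds hN hN)
  have hq := orbits_free_cross h hqD
  exact Crossings.ne hq (hNinj hqO.1 hqO.2 hq.2.2.2.1)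

private theorem orbits_isCompact (hF : IsSliceDisc F) (hg : GenericMovie F s)
    (h : CutFlow (movie F) v Φ)
    (hcap : ∀ x0 ∈ closedBall (0 : Plane) 1, s ≤ F x0 3 →
      ¬ Function.Injective (fderiv ℝ (movie F) x0) →
      ∃ δ > 0, ∀ c ∈ ball (x0, x0) δ, ∀ T > 0, Φ T c = c → ¬ ∀ r, Φ r c ∈ Crossings F s) :
    IsCompact (FreeSet F s Φ) := by
  have hcomp : IsCompact (closedBall (0 : Plane) 1 ×ˢ closedBall (0 : Plane) 1) :=
    (isCompact_closedBall 0 1).prod (isCompact_closedBall 0 1)
  refine hcomp.of_isClosed_subset ?_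
    (fun p hp => ⟨(orbits_free_cross h hp).1, (orbits_free_cross h hp).2.1⟩)
  refine isClosed_of_closure_subset fun p hp => ?_
  have hmc : Continuous (movie F) := (contDiff_movie hF).continuous
  have hsub : closure (FreeSet F s Φ) ⊆ {p : Plane × Plane | p.1 ∈ closedBall (0 : Plane) 1 ∧
      p.2 ∈ closedBall (0 : Plane) 1 ∧ s ≤ F p.1 3 ∧ movie F p.1 = movie F p.2 ∧
      F p.2 2 ≤ F p.1 2} := by
    refine closure_minimal (fun q hq => ?_) ?_
    · have hq' := orbits_free_cross h hq
      exact ⟨hq'.1, hq'.2.1, hq'.2.2.1, hq'.2.2.2.1, hq'.2.2.2.2.le⟩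
    · refine IsClosed.inter (isClosed_closedBall.preimage continuous_fst)
        (IsClosed.inter (isClosed_closedBall.preimage continuous_snd)
        (IsClosed.inter (isClosed_le continuous_const
          ((orbits_continuous_coord hF 3).comp continuous_fst))
        (IsClosed.inter (isClosed_eq (hmc.comp continuous_fst) (hmc.comp continuous_snd))
        (isClosed_le ((orbits_continuous_coord hF 2).comp continuous_snd)
          ((orbits_continuous_coord hF 2).comp continuous_fst)))))
  obtain ⟨h1, h2, h3, h4, h5⟩ := hsub hp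
  have hlt : F p.2 2 < F p.1 2 := by
    refine lt_of_le_of_ne h5 fun h6 => ?_
    have hxy : p.1 = p.2 := eq_of_movie hF h1 h2 h4 h6.symm
    have hpp : p = (p.1, p.1) := Prod.ext rfl hxy.symm
    have hp' : (p.1, p.1) ∈ closure (FreeSet F s Φ) := hpp ▸ hp
    obtain ⟨δ, hδ, hno⟩ := hcap p.1 h1 h3 (orbits_not_inj hF hp' h)
    obtain ⟨q, hqO, hqD⟩ := mem_closure_iff_nhds.mp hp' _ (ball_mem_nhds _ hδ)
    obtain ⟨⟨T, hT, hTq⟩, hr⟩ := hqD
    exact hno q hqO T hT hTq fun r => (hr r).1
  have hpc : p ∈ Crossings F s := ⟨h1, h2, h3, h4, hlt⟩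
  obtain ⟨O, hO, hbox⟩ := orbits_box hF hg h hpc one_pos
  obtain ⟨q, hqO, hqD⟩ := mem_closure_iff_nhds.mp hp _ hO
  obtain ⟨t, -, ht⟩ := hbox q hqO (orbits_free_cross h hqD).2.2.2.1
  exact orbits_of_flow h (ht ▸ hqD)

private theorem orbits_oneDim (hF : IsSliceDisc F) (hg : GenericMovie F s)
    (h : CutFlow (movie F) v Φ)
    (hcap : ∀ x0 ∈ closedBall (0 : Plane) 1, s ≤ F x0 3 →
      ¬ Function.Injective (fderiv ℝ (movie F) x0) →
      ∃ δ > 0, ∀ c ∈ ball (x0, x0) δ, ∀ T > 0, Φ T c = c → ¬ ∀ r, Φ r c ∈ Crossings F s) :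
    OneDim (FreeSet F s Φ) ∅ Φ where
  compact := orbits_isCompact hF hg h hcap
  sub := empty_subset _
  zero := h.flow.zero
  add := h.flow.add
  cont := orbits_continuous_flow h
  box := by
    intro c hc η hη
    obtain ⟨O, hO, hbox⟩ := orbits_box hF hg h (orbits_free_cross h hc) hη
    exact ⟨O, hO, fun p hp => hbox p hp.2 (orbits_free_cross h hp.1).2.2.2.1⟩
  stay := fun c hc => ⟨1, one_pos, fun t _ => orbits_free_flow h hc.1 t⟩
  bd := fun c hc => absurd hc (notMem_empty c)
  move := by
    intro c hc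
    have h1 := h.flow.deriv c 0
    rw [h.flow.zero] at h1
    have hne : v c ≠ 0 := by
      rw [orbits_field_eq h (orbits_free_cross h hc)]
      intro h0
      exact (orbits_kernel hg (orbits_free_cross h hc)).1 (by rw [h0]; rfl)
    have h2 := h1.eventually_ne (c := c) hne
    obtain ⟨η, hη, hη2⟩ := Metric.eventually_nhds_iff.mp (eventually_nhdsWithin_iff.mp h2)
    exact ⟨η, hη, fun t ht0 ht => hη2 (y := t) (by simpa [Real.dist_eq] using ht)
      (abs_pos.mp ht0)⟩

/-- P4b, with the statement of P4a (no_periodic_near_cap) as a hypothesis. -/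
theorem orbits_exists_of_cap (hF : IsSliceDisc F)
    (hs : 0 < s) (hg : GenericMovie F s) (h : CutFlow (movie F) v Φ)
    (hcap : ∀ x0 ∈ closedBall (0 : Plane) 1, s ≤ F x0 3 →
      ¬ Function.Injective (fderiv ℝ (movie F) x0) →
      ∃ δ > 0, ∀ c ∈ ball (x0, x0) δ, ∀ T > 0, Φ T c = c → ¬ ∀ r, Φ r c ∈ Crossings F s) :
    ∃ (ι : Type) (_ : Finite ι) (G : Curves ι), IsCurves G (FreeSet F s Φ) ∧
      (∀ i, G.closed i) ∧ ∀ i r t, Φ r (G.c i t) = G.c i (t + r) := by
  obtain ⟨ι, hι, c, len, closed, hlen, hcov, hcl, harc, hdisj⟩ :=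
    exists_orbit_family (orbits_oneDim hF hg h hcap)
  have hall : ∀ i, closed i := fun i => by
    by_contra hi
    exact absurd (harc i hi).1 (notMem_empty _)
  have hmem : ∀ i t, Φ t (c i) ∈ Crossings F s := fun i t =>
    orbits_free_cross h ((hcl i (hall i)).2.2 t).1
  have hvc : Continuous v := h.smooth.continuous
  have hv : ∀ i t, (v (Φ t (c i))).1 ≠ 0 ∧ (v (Φ t (c i))).2 ≠ 0 := by
    intro i t
    rw [orbits_field_eq h (hmem i t)]
    exact orbits_kernel hg (hmem i t)
  refine ⟨ι, hι, ⟨fun i t => Φ t (c i), len, closed⟩, ?_, hall, fun i r t => ?_⟩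
  · exact {
      pos := hlen
      smooth := fun i => by
        have hd : ∀ t, HasDerivAt (fun t => Φ t (c i)) (v (Φ t (c i))) t := h.flow.deriv (c i)
        change ContDiff ℝ 1 (fun t => Φ t (c i))
        rw [contDiff_one_iff_deriv]
        refine ⟨fun t => (hd t).differentiableAt, ?_⟩
        have : deriv (fun t => Φ t (c i)) = fun t => v (Φ t (c i)) := funext fun t => (hd t).deriv
        rw [this]
        exact hvc.comp (orbits_continuous_flow h (c i))
      immFst := fun i t _ => by
        have hd : HasDerivAt (fun t => (Φ t (c i)).1) (v (Φ t (c i))).1 t :=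
          (h.flow.deriv (c i) t).fst
        change deriv (fun t => (Φ t (c i)).1) t ≠ 0
        rw [hd.deriv]
        exact (hv i t).1
      immSnd := fun i t _ => by
        have hd : HasDerivAt (fun t => (Φ t (c i)).2) (v (Φ t (c i))).2 t :=
          (h.flow.deriv (c i) t).snd
        change deriv (fun t => (Φ t (c i)).2) t ≠ 0
        rw [hd.deriv]
        exact (hv i t).2
      cover := hcov
      disj := fun i j hij => hdisj i j hij
      periodic := fun i _ t => by
        change Φ (t + len i) (c i) = Φ t (c i)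
        rw [h.flow.add, (hcl i (hall i)).1]
      injClosed := fun i _ => (hcl i (hall i)).2.1
      injArc := fun i hi => absurd (hall i) hi
      fstMem := fun i t _ => mem_ball_fst hF hs (hmem i t)
      sndMem := fun i t _ => (hmem i t).2.1
      sndClosed := fun i _ t => mem_ball_snd hF hs (hmem i t)
      sndArc := fun i hi => absurd (hall i) hi
      ends := fun i hi => absurd (hall i) hi }
  · change Φ r (Φ t (c i)) = Φ (t + r) (c i)
    rw [← h.flow.add, add_comm]

end Aux

/-- The free crossings form finitely many closed curves. -/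
theorem exists_freeCurves {F : Plane → EuclideanSpace ℝ (Fin 4)} {s : ℝ} (hF : IsSliceDisc F)
    (hs : 0 < s) (hg : GenericMovie F s) {v : Plane × Plane → Plane × Plane}
    {Φ : ℝ → Plane × Plane → Plane × Plane} (h : CutFlow (movie F) v Φ) :
    ∃ (ι : Type) (_ : Finite ι) (G : Curves ι), IsCurves G (FreeSet F s Φ) ∧
      (∀ i, G.closed i) ∧ ∀ i r t, Φ r (G.c i t) = G.c i (t + r) :=
  orbits_exists_of_cap hF hs hg h fun _ hx0 hxs hcap =>
    no_periodic_near_cap hF hg h hx0 hxs hcap

end Pool.Agent.Lib_MP_752436_mv
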