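import Pool.Agent.Lib_MP_752436_mv.NoTrap
import Pool.Agent.Lib_MP_752436_mv.Balls
import Pool.Agent.Lib_MP_752436_mv.HybridBirths
import Pool.Agent.Lib_MP_752436_mv.Orbits
import Pool.Agent.Lib_MP_752436_mv.FlipDisc
import Pool.Agent.Lib_MP_752436_mv.DualMovie
import Pool.Agent.Lib_MP_752436_mv.Chi
import Pool.Agent.Lib_MP_752436_mv.Hybrid
import Pool.Agent.Lib_MP_752436_mv.Lower
import Pool.Agent.Lib_MP_752436_tp.Rank

/-!
Reidemeister III moves against births: the assembly.
-/

open Metric Set Filter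
open scoped ContDiff Topology

namespace Pool.Agent.Lib_MP_752436_mv

open Pool.Agent.Lib_MP_752436_gt Pool.Agent.Lib_MP_752436_tp Pool.Agent.Lib_MP_752436_rb

/-- The flips do not remove moves. -/
theorem moves_subset_flip {F F' : Plane → EuclideanSpace ℝ (Fin 4)} {s : ℝ}
    {Φ : ℝ → Plane × Plane → Plane × Plane} {ι : Type}
    {G : Curves ι} (hG : IsCurves G (FreeSet F s Φ)) {φ : ι → Prop}
    (h : IsFlipOf F F' s G φ) : moves F s ⊆ moves F' s := by
  rintro r ⟨a, b, hab, hbr⟩
  have har := Crossings.trans hab hbr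
  have hr : r ∈ moves F s := ⟨a, b, hab, hbr⟩
  have h1 : (a, r) ∈ Crossings F' s := (h.cross _).2 (Or.inl ⟨har, fun hf =>
    (flipComb_flipSet hG hf).2 hr⟩)
  have h2 : (b, r) ∈ Crossings F' s := (h.cross _).2 (Or.inl ⟨hbr, fun hf =>
    (flipComb_flipSet hG hf).2 hr⟩)
  rcases crossings_total h.slice h1.1 h2.1 h1.2.2.1 (Crossings.ne hab)
    (h1.2.2.2.1.trans h2.2.2.2.1.symm) with h3 | h3
  · exact ⟨a, b, h3, h2⟩
  · exact ⟨b, a, h3, h1⟩

/-- The flipped disc has no traps outside the moves. -/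
theorem exists_flip_noTrap {F : Plane → EuclideanSpace ℝ (Fin 4)} {s : ℝ} (hF : IsSliceDisc F)
    (hs : 0 < s) (hg : GenericMovie F s) :
    ∃ F', IsSliceDisc F' ∧ movie F' = movie F ∧ boundaryKnot F' = boundaryKnot F ∧
      GenericMovie F' s ∧ moves F' s = moves F s ∧
      ∀ Z, IsMovieTrap F' s Z → ¬ Disjoint Z (moves F s) := by
  obtain ⟨v, Φ, hΦ⟩ := exists_cutFlow (contDiff_movie hF)
  obtain ⟨ι, hι, G, hG, hcl, hΦG⟩ := exists_freeCurves hF hs hg hΦ
  obtain ⟨φ, -, ρu, ρl, h1, h2⟩ := exists_flip hG (fun _ => True)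
  obtain ⟨F', hF'⟩ := exists_flipDisc hF hs hg hΦ hG hcl hΦG φ
  refine ⟨F', hF'.slice, hF'.same, hF'.knot, generic_flip hF hg hG hF',
    Subset.antisymm (moves_flip hF hg hG hF') (moves_subset_flip hG hF'), ?_⟩
  intro Z hZ hZm
  exact no_movieTrap hF hs hg hΦ hG hcl hF' ρu ρl (fun i => h1 i trivial)
    (fun i j => h2 i j trivial trivial) hZ hZm

theorem neg_direction_of_lap {h : Plane → ℝ} {x : Plane} (hl : lap h x < 0) :
    ∃ u, fderiv ℝ (fderiv ℝ h) x u u < 0 := by
  unfold lap at hl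
  by_contra hcon
  push Not at hcon
  have e0 := hcon (EuclideanSpace.single 0 1)
  have e1 := hcon (EuclideanSpace.single 1 1)
  linarith

theorem lap_congr_of_eventuallyEq {f g : Plane → ℝ} {x : Plane} (h : f =ᶠ[𝓝 x] g) :
    lap f x = lap g x := by
  unfold lap
  rw [(h.fderiv).fderiv_eq]

/-- The case of a regular level without moves on it. -/
theorem births_of_level {F : Plane → EuclideanSpace ℝ (Fin 4)} (hF : MorseDisc F) {s : ℝ}
    (hs : 0 < s) (hg : GenericMovie F s) (hfin : (moves F s).Finite)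
    (hreg : ∀ x ∈ closedBall (0 : Plane) 1, F x 3 = s → fderiv ℝ (fun y => F y 3) x ≠ 0)
    (hms : ∀ r ∈ moves F s, s < F r 3) :
    ∃ G, MorseDisc G ∧ boundaryKnot G = boundaryKnot F ∧
      (births G).encard ≤ (births F ∩ {x | F x 3 ≤ s}).encard + (moves F s).encard := by
  classical
  obtain ⟨F', hF', hsame, hknot, hg', hmov, hno⟩ := exists_flip_noTrap hF.slice hs hg
  have h3 : ∀ x, F' x 3 = F x 3 := fun x => by
    rw [← movie_two (F := F'), ← movie_two (F := F), hsame]
  have h3' : (fun y => F' y 3) = fun y => F y 3 := funext h3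
  set t : Plane → ℝ := fun y => F y 3 with ht
  have hts : ContDiff ℝ ∞ t := contDiff_coord' hF.slice 3
  set z : Plane → ℝ := fun y => F' y 2 with hz
  have hzs : ContDiff ℝ ∞ z := contDiff_coord' hF' 2
  set P : Finset Plane := hfin.toFinset with hP
  have hPm : ∀ p ∈ P, p ∈ moves F s := fun p hp => hfin.mem_toFinset.1 hp
  -- the strip
  obtain ⟨d1, hd1, c₁, hc₁, hstrip⟩ := exists_strip hts hreg
  obtain ⟨d₀, hd₀, hd₀1, hd₀P⟩ : ∃ d₀ > 0, d₀ ≤ d1 ∧ ∀ p ∈ P, s + d₀ < F p 3 := by
    rcases P.eq_empty_or_nonempty with he | hne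
    · exact ⟨d1, hd1, le_rfl, fun p hp => by rw [he] at hp; exact absurd hp (Finset.notMem_empty _)⟩
    · obtain ⟨e, he, hmin⟩ := P.exists_min_image (fun p => F p 3) hne
      have h1 := hms e (hPm e he)
      refine ⟨min d1 ((F e 3 - s) / 2), lt_min hd1 (by linarith), min_le_left _ _, ?_⟩
      intro p hp
      have h2 := hmin p hp
      have h4 := min_le_right d1 ((F e 3 - s) / 2)
      linarith
  -- the balls
  obtain ⟨R, hR, hball, hsep⟩ := exists_ballRadius hF' hg' P
    (fun p hp => hmov ▸ hPm p hp) (s1 := s + d₀) (by linarith)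
    (fun p hp => by rw [h3]; exact hd₀P p hp)
  set ε : ℝ := R / 2 with hε
  have hε0 : 0 < ε := by positivity
  have hεR : ε < R := by rw [hε]; linarith
  -- the compact set
  set K : Set Plane := {x | x ∈ closedBall (0 : Plane) 1 ∧ s ≤ F' x 3 ∧ ∀ p ∈ P, ε ≤ dist x p}
    with hK
  have hKc : IsCompact K := by
    have h5 : K = closedBall (0 : Plane) 1 ∩ ({x | s ≤ F' x 3} ∩
        ⋂ p ∈ P, {x | ε ≤ dist x p}) := by
      ext x
      simp only [hK, mem_inter_iff, Set.mem_ofPred_eq, mem_iInter]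
    rw [h5]
    refine (isCompact_closedBall (0 : Plane) 1).inter_right ((isClosed_le continuous_const
      (contDiff_coord' hF' 3).continuous).inter ?_)
    exact isClosed_biInter fun p _ => isClosed_le continuous_const
      (continuous_id.dist continuous_const)
  obtain ⟨φ, hφ, hφr, hφl⟩ := exists_superharmonic_movie hF' hs hg' hKc
    (fun x hx => ⟨hx.1, hx.2.1⟩) (by
      rintro ⟨Z, hZ, hZK⟩
      refine hno Z hZ (Set.disjoint_left.2 fun x hx hxm => ?_)
      have h5 := (hZK hx).2.2 x (hfin.mem_toFinset.2 hxm)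
      rw [dist_self] at h5
      linarith)
  -- the constants
  obtain ⟨μ, hμ, hμK⟩ : ∃ μ > 0, ∀ x ∈ K, lap φ x ≤ -μ := by
    rcases K.eq_empty_or_nonempty with he | hne
    · exact ⟨1, one_pos, fun x hx => by rw [he] at hx; exact absurd hx (notMem_empty x)⟩
    · obtain ⟨a, ha, hmax⟩ := hKc.exists_isMaxOn hne (continuous_lap hφ).continuousOn
      exact ⟨-lap φ a, by linarith [hφl a ha], fun x hx => by
        have h5 : lap φ x ≤ lap φ a := hmax hx
        linarith⟩
  obtain ⟨C0, hC0⟩ := (isCompact_closedBall (0 : Plane) 1).exists_bound_of_continuousOn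
    (continuous_lap hts).continuousOn
  obtain ⟨C2, hC2⟩ := (isCompact_closedBall (0 : Plane) 1).exists_bound_of_continuousOn
    (continuous_lap hzs).continuousOn
  set C : ℝ := max C0 1 with hC
  have hCpos : 0 < C := lt_of_lt_of_le one_pos (le_max_right _ _)
  have hCt : ∀ x ∈ closedBall (0 : Plane) 1, |lap t x| ≤ C := fun x hx =>
    (hC0 x hx).trans (le_max_left _ _)
  set M : ℝ := (C + 1 + max C2 0) / μ with hM
  have hM0 : 0 ≤ M := by
    have := le_max_right C2 0
    positivity
  have hMμ : M * μ = C + 1 + max C2 0 := by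
    rw [hM]; field_simp
  -- lowering
  set ψ : Plane → ℝ := fun x => t x + (z x + M * φ x) with hψ
  have hψs : ContDiff ℝ ∞ ψ := hts.add (hzs.add (contDiff_const.mul hφ))
  obtain ⟨B, P', hBs, hB0, hBR, hBl, hP'c, hP'1, hP'2⟩ :=
    exists_lowering_local hε0 hεR hsep hψs
  -- the bound for `z + M φ - B`
  set w0 : Plane → ℝ := fun x => M * φ x - B x with hw0
  have hw0s : ContDiff ℝ ∞ w0 := (contDiff_const.mul hφ).sub hBs
  obtain ⟨c0, hc0⟩ := (isCompact_closedBall (0 : Plane) 1).exists_bound_of_continuousOn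
    (f := fun x => z x + w0 x) (hzs.add hw0s).continuous.continuousOn
  set w : Plane → ℝ := fun x => w0 x + (c0 + 1) with hw
  have hws : ContDiff ℝ ∞ w := hw0s.add contDiff_const
  have hg1 : ∀ x ∈ closedBall (0 : Plane) 1, 1 ≤ F' x 2 + w x := by
    intro x hx
    have h5 := hc0 x hx
    rw [Real.norm_eq_abs, abs_le] at h5
    have h6 : F' x 2 + w x = (z x + w0 x) + (c0 + 1) := by
      simp only [hw, hz]; ring
    rw [h6]
    linarith [h5.1]
  -- `w` is rising
  have hBup : ∀ x ∈ closedBall (0 : Plane) 1, ∀ y ∈ closedBall (0 : Plane) 1,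
      movie F' x = movie F' y → F' y 2 < F' x 2 → B x = 0 := by
    intro x hx y hy hm hlt
    apply hBR
    intro p hp
    by_contra hcon
    push Not at hcon
    obtain ⟨-, h5, -, h6⟩ := hball p hp x (mem_closedBall.2 hcon.le)
    exact h6 y ⟨hx, hy, by linarith, hm, hlt⟩
  have hBd : ∀ x, ∀ u, fderiv ℝ (movie F') x u = 0 → fderiv ℝ B x u = 0 := by
    intro x u hu
    by_cases hx : ∃ p ∈ P, dist x p ≤ R
    · obtain ⟨p, hp, hxp⟩ := hx
      obtain ⟨-, -, hinj, -⟩ := hball p hp x (mem_closedBall.2 hxp)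
      have h5 : u = 0 := hinj (hu.trans (map_zero _).symm)
      rw [h5, map_zero]
    · push Not at hx
      have h5 : ∀ᶠ y in 𝓝 x, B y = 0 := by
        have h6 : ∀ᶠ y in 𝓝 x, ∀ p ∈ P, R < dist y p := by
          rw [Filter.eventually_all_finset]
          intro p hp
          exact (continuous_id.dist continuous_const).continuousAt.eventually
            (lt_mem_nhds (hx p hp))
        filter_upwards [h6] with y hy
        exact hBR y fun p hp => (hy p hp).le
      have h7 : B =ᶠ[𝓝 x] fun _ => 0 := h5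
      rw [h7.fderiv_eq]
      simp
  have hwr : MovieRising F' w := by
    refine ⟨?_, ?_⟩
    · intro x hx y hy hm hlt
      have h5 := hφr.cross x hx y hy hm hlt
      have h6 := hBup x hx y hy hm hlt
      have h7 := hB0 y
      have h8 := mul_le_mul_of_nonneg_left h5 hM0
      simp only [hw, hw0]
      linarith
    · intro x hx u hu hzu
      have h5 := hφr.cap x hx u hu hzu
      have h6 := hBd x u hu
      have e1 : HasFDerivAt φ (fderiv ℝ φ x) x := ((hφ.differentiable (by simp)) x).hasFDerivAt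
      have e2 : HasFDerivAt B (fderiv ℝ B x) x := ((hBs.differentiable (by simp)) x).hasFDerivAt
      have e3 : HasFDerivAt w (M • fderiv ℝ φ x - fderiv ℝ B x) x :=
        ((e1.const_mul M).sub e2).add_const _
      rw [e3.fderiv]
      simp only [sub_apply, smul_apply, smul_eq_mul, h6, sub_zero]
      exact mul_nonneg hM0 h5
  -- the cut off function
  obtain ⟨d, hd, hdd₀, χ, hχs, hχ0, hχ1, hχn, hχle, hχpos, hχm, hχi⟩ := exists_chi hCpos hc₁ hd₀
  set g : Plane → ℝ := fun y => F' y 2 + w y with hgd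
  have hgs : ContDiff ℝ ∞ g := hzs.add hws
  set H : Plane → ℝ := fun y => t y + χ (t y - s) * g y with hH
  have hHF : (fun y => F' y 3 + χ (F' y 3 - s) * (F' y 2 + w y)) = H := by
    funext y
    rw [h3]
  -- the form of the hybrid function near the small balls
  have hnear : ∀ x, s + d < t x → H =ᶠ[𝓝 x] fun y => (ψ y - B y) + (c0 + 1) := by
    intro x hx
    filter_upwards [hts.continuous.continuousAt.eventually (lt_mem_nhds hx)] with y hy
    simp only [hH, hgd, hψ, hw, hw0, hz]
    rw [hχ1 _ (by linarith)]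
    ring
  have hψB : ContDiff ℝ ∞ fun y => ψ y - B y := hψs.sub hBs
  have hfd : ∀ x, s + d < t x → fderiv ℝ H x = fderiv ℝ (fun y => ψ y - B y) x := by
    intro x hx
    rw [(hnear x hx).fderiv_eq, fderiv_add_const]
  have hfdd : ∀ x, s + d < t x →
      fderiv ℝ (fderiv ℝ H) x = fderiv ℝ (fderiv ℝ (fun y => ψ y - B y)) x := by
    intro x hx
    rw [((hnear x hx).fderiv).fderiv_eq]
    congr 1
    funext y
    rw [fderiv_add_const]
  have hballt : ∀ x, (∃ p ∈ P, dist x p ≤ ε) → x ∈ ball (0 : Plane) 1 ∧ s + d < t x := by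
    rintro x ⟨p, hp, hxp⟩
    obtain ⟨h5, h6, -, -⟩ := hball p hp x (mem_closedBall.2 (hxp.trans hεR.le))
    rw [h3] at h6
    exact ⟨h5, by linarith⟩
  -- the Laplacian of `g`
  have hlapg : ∀ x ∈ closedBall (0 : Plane) 1, s ≤ t x → (∀ p ∈ P, ε ≤ dist x p) →
      lap g x ≤ -(C + 1) := by
    intro x hx hsx hxp
    have hxK : x ∈ K := ⟨hx, by rw [h3]; exact hsx, hxp⟩
    have hgeq : g = (z + (M • φ + (-1 : ℝ) • B)) + fun _ => c0 + 1 := by
      funext y
      simp only [hgd, hw, hw0, hz, Pi.add_apply, Pi.smul_apply, smul_eq_mul]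
      ring
    have e1 : ContDiff ℝ ∞ (M • φ) := contDiff_const.smul hφ
    have e2 : ContDiff ℝ ∞ ((-1 : ℝ) • B) := contDiff_const.smul hBs
    have e3 : ContDiff ℝ ∞ (M • φ + (-1 : ℝ) • B) := e1.add e2
    have e4 : ContDiff ℝ ∞ (z + (M • φ + (-1 : ℝ) • B)) := hzs.add e3
    have e5 : lap g x = lap z x + (M * lap φ x + -1 * lap B x) := by
      have e6 : lap g x = lap (z + (M • φ + (-1 : ℝ) • B)) x := by
        rw [hgeq]
        unfold lap
        have e7 : fderiv ℝ ((z + (M • φ + (-1 : ℝ) • B)) + fun _ => c0 + 1) =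
            fderiv ℝ (z + (M • φ + (-1 : ℝ) • B)) := by
          funext y
          exact fderiv_add_const (c0 + 1)
        rw [e7]
      rw [e6, lap_add hzs e3, lap_add e1 e2, lap_smul _ hφ, lap_smul _ hBs]
      rfl
    rw [e5]
    have h5 := hμK x hxK
    have h6 := hC2 x hx
    rw [Real.norm_eq_abs, abs_le] at h6
    have h7 := hBl x hxp
    have h8 := mul_le_mul_of_nonneg_left h5 hM0
    have h9 := le_max_left C2 0
    have h10 : M * -μ = -(C + 1 + max C2 0) := by rw [mul_neg, hMμ]
    linarith [h6.2]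
  -- the births below
  have hbf : (births F ∩ {x | F x 3 ≤ s}).Finite :=
    (finite_critical hF).subset fun x hx => births_subset_critical hF hx.1
  set Q : Finset Plane := hbf.toFinset ∪ P' with hQ
  obtain ⟨G, hG, hGn, hGk⟩ := births_of_hybrid hF' hs hws hwr hχs hχ0 hχm hg1 Q
    (by
      intro p hp
      rw [hHF]
      rcases Finset.mem_union.1 hp with h5 | h5
      · have h6 := hbf.mem_toFinset.1 h5
        refine ⟨h6.1.1, ?_⟩
        rw [(hybrid_below hts hgs hχs hχ0 (s := s) (x := p) h6.2).2]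
        exact (births_posDef hF h6.1).2
      · obtain ⟨h6, h7⟩ := hP'1 p h5
        obtain ⟨h8, h9⟩ := hballt p h6
        refine ⟨h8, ?_⟩
        rw [hfdd p h9]
        exact h7)
    (by
      intro x hx h0
      rw [hHF] at h0 ⊢
      rcases le_or_gt (t x) s with h5 | h5
      · obtain ⟨h6, h7⟩ := hybrid_below hts hgs hχs hχ0 (s := s) (x := x) h5
        rw [h7]
        rw [h6] at h0
        rcases crit_cases hF hx h0 with h8 | h8
        · exact Or.inl h8
        · exact Or.inr (Finset.mem_union_left _ (hbf.mem_toFinset.2 ⟨h8, h5⟩))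
      · by_cases hxp : ∃ p ∈ P, dist x p ≤ ε
        · right
          obtain ⟨h6, h7⟩ := hballt x hxp
          rw [hfd x h7] at h0
          exact Finset.mem_union_right _ (hP'2 x hxp h0)
        · left
          push Not at hxp
          apply neg_direction_of_lap
          exact hybrid_lap_neg hts hgs hχs hc₁ hχn hχ1 hχle hχpos hχm hχi h5 (hCt x hx)
            (fun h6 => hstrip x hx h5.le (by linarith))
            (zero_le_one.trans (hg1 x hx))
            (hlapg x hx h5.le fun p hp => (hxp p hp).le) h0)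
  refine ⟨G, hG, hGk.trans hknot, hGn.trans ?_⟩
  have h5 : (Q.card : ℕ∞) ≤ ((hbf.toFinset.card + P'.card : ℕ) : ℕ∞) := by
    exact_mod_cast Finset.card_union_le _ _
  refine h5.trans ?_
  rw [Nat.cast_add]
  refine add_le_add ?_ ?_
  · rw [hbf.encard_eq_coe_toFinset_card]
  · rw [hfin.encard_eq_coe_toFinset_card]
    exact_mod_cast hP'c

theorem births_of_moves {F : Plane → EuclideanSpace ℝ (Fin 4)} (hF : MorseDisc F) {s : ℝ}
    (hg : GenericMovie F s) {n : ℕ} (hn : (moves F s).encard ≤ n) :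
    ∃ G, MorseDisc G ∧ boundaryKnot G = boundaryKnot F ∧
      (births G).encard ≤ (births F ∩ {x | F x 3 ≤ s}).encard + n := by
  have hfin : (moves F s).Finite := Set.finite_of_encard_le_coe hn
  obtain ⟨s', h1, h2, h3, h4, h5⟩ := exists_level hF hfin
  obtain ⟨G, hG, hGk, hGn⟩ := births_of_level hF h2 (hg.mono h1)
    (hfin.subset (moves_mono h1)) h3 h4
  refine ⟨G, hG, hGk, hGn.trans ?_⟩
  rw [h5]
  exact add_le_add_right ((encard_le_encard (moves_mono h1)).trans hn) _

end Pool.Agent.Lib_MP_752436_mv
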