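import Pool.Agent.Lib_MP_752436_mv.Defs

/-!
The kernel of the derivative of the movie map at a singular point.
-/

open Metric Set Filter
open scoped ContDiff Topology

namespace Pool.Agent.Lib_MP_752436_mv

open Pool.Agent.Lib_MP_752436_gt Pool.Agent.Lib_MP_752436_tp Pool.Agent.Lib_MP_752436_rb

/-- The unit kernel vector in the direction of which the third coordinate increases, at a singular
point of a generic movie. -/
theorem exists_kernel {F : Plane → EuclideanSpace ℝ (Fin 4)} {s : ℝ} (hF : IsSliceDisc F)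
    (hg : GenericMovie F s) {x : Plane} (hx : x ∈ closedBall (0 : Plane) 1) (hxs : s ≤ F x 3)
    (hcap : ¬ Function.Injective (fderiv ℝ (movie F) x)) :
    ∃ k : Plane, ‖k‖ = 1 ∧ fderiv ℝ (movie F) x k = 0 ∧ 0 < fderiv ℝ (fun y => F y 2) x k ∧
      ∀ v, ∃ a b, fderiv ℝ (fun y => fderiv ℝ (movie F) y k) x a + fderiv ℝ (movie F) x b = v := by
  rw [injective_iff_map_eq_zero] at hcap
  push Not at hcap
  obtain ⟨u, hu, hu0⟩ := hcap
  have hn : 0 < ‖u‖ := norm_pos_iff.2 hu0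
  have hz := dz_ne_zero hF hx hu0 hu
  have key : ∀ c : ℝ, |c| * ‖u‖ = 1 → 0 < c * fderiv ℝ (fun y => F y 2) x u →
      ∃ k : Plane, ‖k‖ = 1 ∧ fderiv ℝ (movie F) x k = 0 ∧ 0 < fderiv ℝ (fun y => F y 2) x k ∧
      ∀ v, ∃ a b, fderiv ℝ (fun y => fderiv ℝ (movie F) y k) x a +
        fderiv ℝ (movie F) x b = v := by
    intro c hc hcz
    have hk0 : fderiv ℝ (movie F) x (c • u) = 0 := by rw [map_smul, hu, smul_zero]
    have hk1 : ‖c • u‖ = 1 := by rw [norm_smul, Real.norm_eq_abs, hc]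
    refine ⟨c • u, hk1, hk0, by rw [map_smul, smul_eq_mul]; exact hcz, ?_⟩
    have hne : c • u ≠ 0 := by
      intro h0
      rw [h0, norm_zero] at hk1
      exact zero_ne_one hk1
    exact hg.branch x hx hxs (c • u) hne hk0
  rcases lt_or_gt_of_ne hz with h | h
  · refine key (-‖u‖⁻¹) ?_ ?_
    · rw [abs_neg, abs_of_pos (inv_pos.2 hn), inv_mul_cancel₀ hn.ne']
    · have := inv_pos.2 hn
      nlinarith
  · refine key (‖u‖⁻¹) ?_ (mul_pos (inv_pos.2 hn) h)
    rw [abs_of_pos (inv_pos.2 hn), inv_mul_cancel₀ hn.ne']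

end Pool.Agent.Lib_MP_752436_mv
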