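import Pool.Agent.Lib_MP_752436_mv.Defs

/-!
P3a: a box minus a subset of a Lipschitz graph over a half axis is connected.
-/

open Metric Set Filter
open scoped ContDiff Topology

namespace Pool.Agent.Lib_MP_752436_mv

open Pool.Agent.Lib_MP_752436_gt Pool.Agent.Lib_MP_752436_tp Pool.Agent.Lib_MP_752436_rb

private theorem SlitBox_inner (x y : Plane) : (inner ℝ x y : ℝ) = x 0 * y 0 + x 1 * y 1 := by
  rw [PiLp.inner_apply, Fin.sum_univ_two]
  simp only [RCLike.inner_apply, conj_trivial]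
  ring

/-- P3a: a box minus a subset of a Lipschitz graph over a half axis is connected. -/
theorem exists_slitBox {T : Set Plane} {x0 k : Plane} (hk : ‖k‖ = 1)
    (h1 : ∀ x ∈ T, ∀ x' ∈ T,
      ‖x - x' - (inner ℝ k (x - x') : ℝ) • k‖ ≤ 1 / 2 * |(inner ℝ k (x - x') : ℝ)|)
    (h2 : ∀ x ∈ T, 0 ≤ (inner ℝ k (x - x0) : ℝ)) (h3 : x0 ∈ T) {U : Set Plane} (hU : U ∈ 𝓝 x0) :
    ∃ N, IsOpen N ∧ x0 ∈ N ∧ N ⊆ U ∧ IsPreconnected (N \ T) ∧ N ⊆ closure (N \ T) := by
  obtain ⟨w, hw⟩ : ∃ w : Plane, w = !₂[-k 1, k 0] := ⟨_, rfl⟩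
  have hw0 : w 0 = -k 1 := by rw [hw]; rfl
  have hw1 : w 1 = k 0 := by rw [hw]; rfl
  have hk2 : k 0 ^ 2 + k 1 ^ 2 = 1 := by
    have h := real_inner_self_eq_norm_sq k
    rw [SlitBox_inner, hk] at h
    linarith
  have hwn : ‖w‖ = 1 := by
    have h := real_inner_self_eq_norm_sq w
    rw [SlitBox_inner, hw0, hw1] at h
    have h' : ‖w‖ ^ 2 = 1 := by rw [← h]; linarith
    nlinarith [norm_nonneg w]
  obtain ⟨φ, hφ⟩ : ∃ φ : ℝ × ℝ → Plane, ∀ a, φ a = x0 + a.1 • k + a.2 • w := ⟨_, fun _ => rfl⟩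
  have hφc : Continuous φ := by
    rw [show φ = fun a => x0 + a.1 • k + a.2 • w from funext hφ]
    fun_prop
  have hsub : ∀ a b, φ a - φ b = (a.1 - b.1) • k + (a.2 - b.2) • w := by
    intro a b
    rw [hφ, hφ, sub_smul, sub_smul]
    abel
  have hkw : (inner ℝ k w : ℝ) = 0 := by rw [SlitBox_inner, hw0, hw1]; ring
  have hkk : (inner ℝ k k : ℝ) = 1 := by rw [real_inner_self_eq_norm_sq, hk]; norm_num
  have hin : ∀ a b, (inner ℝ k (φ a - φ b) : ℝ) = a.1 - b.1 := by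
    intro a b
    rw [hsub, inner_add_right, inner_smul_right, inner_smul_right, hkw, hkk]
    ring
  have hφ0 : φ (0, 0) = x0 := by rw [hφ]; simp
  -- the graph condition
  have hgr : ∀ a b, φ a ∈ T → φ b ∈ T → |a.2 - b.2| ≤ 1 / 2 * |a.1 - b.1| := by
    intro a b ha hb
    have h := h1 _ ha _ hb
    rw [hin, hsub, add_sub_cancel_left, norm_smul, hwn, mul_one, Real.norm_eq_abs] at h
    exact h
  have hpos : ∀ a, φ a ∈ T → 0 ≤ a.1 := by
    intro a ha
    have h := h2 _ ha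
    rw [← hφ0, hin] at h
    simpa using h
  have hsl : ∀ a, φ a ∈ T → |a.2| ≤ 1 / 2 * |a.1| := by
    intro a ha
    have h := hgr a (0, 0) ha (by rw [hφ0]; exact h3)
    simpa using h
  -- coordinates
  have hco : ∀ x : Plane, φ ((inner ℝ k (x - x0) : ℝ), (inner ℝ w (x - x0) : ℝ)) = x := by
    intro x
    rw [hφ]
    ext i
    fin_cases i
    · simp only [SlitBox_inner, hw0, hw1, PiLp.add_apply, PiLp.smul_apply, smul_eq_mul,
        PiLp.sub_apply, Fin.zero_eta, Fin.isValue]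
      linear_combination (x 0 - x0 0) * hk2
    · simp only [SlitBox_inner, hw0, hw1, PiLp.add_apply, PiLp.smul_apply, smul_eq_mul,
        PiLp.sub_apply, Fin.mk_one, Fin.isValue]
      linear_combination (x 1 - x0 1) * hk2
  obtain ⟨r, hr, hrU⟩ := Metric.mem_nhds_iff.mp hU
  obtain ⟨d, hd⟩ : ∃ d, d = r / 2 := ⟨_, rfl⟩
  have hd0 : 0 < d := by rw [hd]; linarith
  obtain ⟨B, hB⟩ : ∃ B : Set (ℝ × ℝ), B = Ioo (-d) d ×ˢ Ioo (-d) d := ⟨_, rfl⟩
  have hBm : ∀ a : ℝ × ℝ, a ∈ B ↔ (-d < a.1 ∧ a.1 < d) ∧ -d < a.2 ∧ a.2 < d := by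
    intro a
    rw [hB]
    simp [Set.mem_prod]
  obtain ⟨N, hN⟩ : ∃ N : Set Plane,
      N = {x | ((inner ℝ k (x - x0) : ℝ), (inner ℝ w (x - x0) : ℝ)) ∈ B} := ⟨_, rfl⟩
  have hinw : ∀ a, (inner ℝ w (φ a - x0) : ℝ) = a.2 := by
    intro a
    rw [← hφ0, hsub, inner_add_right, inner_smul_right, inner_smul_right, real_inner_comm, hkw,
      real_inner_self_eq_norm_sq, hwn]
    simp
  have hNφ : ∀ a, φ a ∈ N ↔ a ∈ B := by
    intro a
    rw [hN]
    have h5 : (inner ℝ k (φ a - x0) : ℝ) = a.1 := by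
      have := hin a (0, 0)
      rw [hφ0] at this
      simpa using this
    rw [Set.mem_setOf_eq, h5, hinw]
  have hNimg : N \ T = φ '' {a | a ∈ B ∧ φ a ∉ T} := by
    ext x
    constructor
    · rintro ⟨hx1, hx2⟩
      refine ⟨((inner ℝ k (x - x0) : ℝ), (inner ℝ w (x - x0) : ℝ)), ⟨?_, ?_⟩, hco x⟩
      · rw [hN] at hx1
        exact hx1
      · rw [hco]
        exact hx2
    · rintro ⟨a, ⟨ha1, ha2⟩, rfl⟩
      exact ⟨(hNφ a).mpr ha1, ha2⟩
  refine ⟨N, ?_, ?_, ?_, ?_, ?_⟩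
  · rw [hN]
    have hc : Continuous fun x : Plane =>
        ((inner ℝ k (x - x0) : ℝ), (inner ℝ w (x - x0) : ℝ)) := by fun_prop
    have hBo : IsOpen B := by rw [hB]; exact isOpen_Ioo.prod isOpen_Ioo
    exact hBo.preimage hc
  · rw [← hφ0, hNφ, hBm]
    exact ⟨⟨by simpa using hd0, by simpa using hd0⟩, by simpa using hd0, by simpa using hd0⟩
  · intro x hx
    apply hrU
    rw [← hco x] at hx ⊢
    obtain ⟨a, ha⟩ : ∃ a : ℝ × ℝ, a = ((inner ℝ k (x - x0) : ℝ), (inner ℝ w (x - x0) : ℝ)) :=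
      ⟨_, rfl⟩
    rw [← ha] at hx ⊢
    rw [hNφ, hBm] at hx
    rw [mem_ball, dist_eq_norm, ← hφ0, hsub]
    calc ‖(a.1 - (0, 0).1) • k + (a.2 - (0, 0).2) • w‖
        ≤ ‖(a.1 - (0, 0).1) • k‖ + ‖(a.2 - (0, 0).2) • w‖ := norm_add_le _ _
      _ = |a.1| + |a.2| := by
          rw [norm_smul, norm_smul, hk, hwn]
          simp
      _ < r := by
          have h5 : |a.1| < d := abs_lt.mpr hx.1
          have h6 : |a.2| < d := abs_lt.mpr hx.2
          rw [hd] at h5 h6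
          linarith
  · rw [hNimg]
    refine IsPreconnected.image ?_ φ hφc.continuousOn
    -- the connected part away from the graph
    have hL : IsPreconnected (Ioo (-d) 0 ×ˢ Ioo (-d) d : Set (ℝ × ℝ)) :=
      isPreconnected_Ioo.prod isPreconnected_Ioo
    have hU' : IsPreconnected (Ioo (-d) d ×ˢ Ioo (d / 2) d : Set (ℝ × ℝ)) :=
      isPreconnected_Ioo.prod isPreconnected_Ioo
    have hD' : IsPreconnected (Ioo (-d) d ×ˢ Ioo (-d) (-(d / 2)) : Set (ℝ × ℝ)) :=
      isPreconnected_Ioo.prod isPreconnected_Ioo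
    have hLU : IsPreconnected ((Ioo (-d) 0 ×ˢ Ioo (-d) d : Set (ℝ × ℝ)) ∪
        (Ioo (-d) d ×ˢ Ioo (d / 2) d)) := by
      refine IsPreconnected.union (-(d / 2), 3 * d / 4) ?_ ?_ hL hU'
      · simp only [Set.mem_prod, Set.mem_Ioo]
        refine ⟨⟨by linarith, by linarith⟩, by linarith, by linarith⟩
      · simp only [Set.mem_prod, Set.mem_Ioo]
        refine ⟨⟨by linarith, by linarith⟩, by linarith, by linarith⟩
    have hC : IsPreconnected ((Ioo (-d) 0 ×ˢ Ioo (-d) d : Set (ℝ × ℝ)) ∪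
        (Ioo (-d) d ×ˢ Ioo (d / 2) d) ∪ (Ioo (-d) d ×ˢ Ioo (-d) (-(d / 2)))) := by
      refine IsPreconnected.union (-(d / 2), -(3 * d / 4)) ?_ ?_ hLU hD'
      · left
        simp only [Set.mem_prod, Set.mem_Ioo]
        refine ⟨⟨by linarith, by linarith⟩, by linarith, by linarith⟩
      · simp only [Set.mem_prod, Set.mem_Ioo]
        refine ⟨⟨by linarith, by linarith⟩, by linarith, by linarith⟩
    obtain ⟨C, hCd⟩ : ∃ C : Set (ℝ × ℝ), C = (Ioo (-d) 0 ×ˢ Ioo (-d) d : Set (ℝ × ℝ)) ∪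
        (Ioo (-d) d ×ˢ Ioo (d / 2) d) ∪ (Ioo (-d) d ×ˢ Ioo (-d) (-(d / 2))) := ⟨_, rfl⟩
    rw [← hCd] at hC
    have hCsub : C ⊆ {a | a ∈ B ∧ φ a ∉ T} := by
      rw [hCd]
      rintro a ((ha | ha) | ha)
      · simp only [Set.mem_prod, Set.mem_Ioo] at ha
        refine ⟨(hBm a).mpr ⟨⟨ha.1.1, by linarith [ha.1.2]⟩, ha.2⟩, fun haT => ?_⟩
        linarith [hpos a haT, ha.1.2]
      · simp only [Set.mem_prod, Set.mem_Ioo] at ha
        refine ⟨(hBm a).mpr ⟨ha.1, by linarith [ha.2.1], ha.2.2⟩, fun haT => ?_⟩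
        have h5 := hsl a haT
        have h6 : |a.1| < d := abs_lt.mpr ha.1
        have h7 := le_abs_self a.2
        linarith [ha.2.1]
      · simp only [Set.mem_prod, Set.mem_Ioo] at ha
        refine ⟨(hBm a).mpr ⟨ha.1, ha.2.1, by linarith [ha.2.2]⟩, fun haT => ?_⟩
        have h5 := hsl a haT
        have h6 : |a.1| < d := abs_lt.mpr ha.1
        have h7 := neg_abs_le a.2
        linarith [ha.2.2]
    have hc0 : ((-(d / 2), 0) : ℝ × ℝ) ∈ C := by
      rw [hCd]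
      left; left
      simp only [Set.mem_prod, Set.mem_Ioo]
      refine ⟨⟨by linarith, by linarith⟩, by linarith, by linarith⟩
    refine isPreconnected_of_forall (-(d / 2), 0) ?_
    rintro ⟨α, β⟩ ⟨haB, haT⟩
    rw [hBm] at haB
    simp only at haB
    by_cases hex : ∃ β', φ (α, β') ∈ T ∧ β < β'
    · -- go down
      obtain ⟨β', hβ', hlt⟩ := hex
      refine ⟨C ∪ ({α} ×ˢ Ioc (-d) β), ?_, Or.inl hc0, ?_, ?_⟩
      · apply Set.union_subset hCsub
        rintro ⟨α₁, β₁⟩ h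
        simp only [Set.mem_prod, Set.mem_singleton_iff, Set.mem_Ioc] at h
        obtain ⟨rfl, h5, h6⟩ := h
        refine ⟨(hBm _).mpr ⟨haB.1, h5, lt_of_le_of_lt h6 haB.2.2⟩, fun hT => ?_⟩
        have h7 := hgr _ _ hβ' hT
        simp only [sub_self, abs_zero, mul_zero] at h7
        have h8 := abs_nonpos_iff.mp h7
        linarith
      · right
        simp only [Set.mem_prod, Set.mem_singleton_iff, Set.mem_Ioc, true_and]
        exact ⟨haB.2.1, le_refl _⟩
      · have h9 : -d < min β (-(3 * d / 4)) := lt_min haB.2.1 (by linarith)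
        refine IsPreconnected.union (α, min β (-(3 * d / 4))) ?_ ?_ hC
          (isPreconnected_singleton.prod isPreconnected_Ioc)
        · rw [hCd]
          right
          simp only [Set.mem_prod, Set.mem_Ioo]
          exact ⟨haB.1, h9, lt_of_le_of_lt (min_le_right _ _) (by linarith)⟩
        · simp only [Set.mem_prod, Set.mem_singleton_iff, Set.mem_Ioc, true_and]
          exact ⟨h9, min_le_left _ _⟩
    · -- go up
      push Not at hex
      refine ⟨C ∪ ({α} ×ˢ Ico β d), ?_, Or.inl hc0, ?_, ?_⟩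
      · apply Set.union_subset hCsub
        rintro ⟨α₁, β₁⟩ h
        simp only [Set.mem_prod, Set.mem_singleton_iff, Set.mem_Ico] at h
        obtain ⟨rfl, h5, h6⟩ := h
        refine ⟨(hBm _).mpr ⟨haB.1, lt_of_lt_of_le haB.2.1 h5, h6⟩, fun hT => ?_⟩
        have h7 := hex _ hT
        have h8 : β₁ = β := le_antisymm h7 h5
        rw [h8] at hT
        exact haT hT
      · right
        simp only [Set.mem_prod, Set.mem_singleton_iff, Set.mem_Ico, true_and]
        exact ⟨le_refl _, haB.2.2⟩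
      · have h9 : max β (3 * d / 4) < d := max_lt haB.2.2 (by linarith)
        refine IsPreconnected.union (α, max β (3 * d / 4)) ?_ ?_ hC
          (isPreconnected_singleton.prod isPreconnected_Ico)
        · rw [hCd]
          left; right
          simp only [Set.mem_prod, Set.mem_Ioo]
          exact ⟨haB.1, lt_of_lt_of_le (by linarith) (le_max_right _ _), h9⟩
        · simp only [Set.mem_prod, Set.mem_singleton_iff, Set.mem_Ico, true_and]
          exact ⟨le_max_left _ _, h9⟩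
  · intro x hx
    by_cases hxT : x ∈ T
    · obtain ⟨a, ha⟩ : ∃ a : ℝ × ℝ, a = ((inner ℝ k (x - x0) : ℝ), (inner ℝ w (x - x0) : ℝ)) :=
        ⟨_, rfl⟩
      have hxa : φ a = x := by rw [ha]; exact hco x
      rw [← hxa] at hx hxT ⊢
      rw [hNφ, hBm] at hx
      have hlim : Tendsto (fun ε : ℝ => φ (a.1, a.2 + ε)) (𝓝[>] 0) (𝓝 (φ a)) := by
        have h5 : Continuous fun ε : ℝ => φ (a.1, a.2 + ε) := hφc.comp (by fun_prop)
        have h6 := h5.tendsto 0
        simp only [add_zero, Prod.mk.eta] at h6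
        exact h6.mono_left nhdsWithin_le_nhds
      refine mem_closure_of_tendsto hlim ?_
      have h7 : Ioo (0 : ℝ) (d - a.2) ∈ 𝓝[>] (0 : ℝ) := Ioo_mem_nhdsGT (by linarith [hx.2.2])
      filter_upwards [h7] with ε hε
      refine ⟨(hNφ _).mpr ((hBm _).mpr ⟨hx.1, by linarith [hx.2.1, hε.1], by linarith [hε.2]⟩),
        fun hT => ?_⟩
      have h8 := hgr _ _ hT hxT
      simp only [sub_self, abs_zero, mul_zero] at h8
      have h9 := abs_nonpos_iff.mp h8
      linarith [hε.1]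
    · exact subset_closure ⟨hx, hxT⟩

end Pool.Agent.Lib_MP_752436_mv
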