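import Pool.Agent.Lib_MP_752436_mv.CapEst
import Pool.Agent.Lib_MP_752436_mv.CapData
import Pool.Agent.Lib_MP_752436_mv.SlitBox
import Pool.Agent.Lib_MP_752436_tp.Side

/-!
P3b: a singular point of a generic movie is not on the frontier of a regular closed set, all of
whose nonsingular frontier points are overcrossing points.
-/

open Metric Set Filter
open scoped ContDiff Topology

namespace Pool.Agent.Lib_MP_752436_mv

open Pool.Agent.Lib_MP_752436_gt Pool.Agent.Lib_MP_752436_tp Pool.Agent.Lib_MP_752436_rb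

/-- A vector close to a multiple of the unit vector `k` is close to its projection. -/
private theorem CapBox_proj {k d : Plane} (hk : ‖k‖ = 1) {r : ℝ}
    (h : ‖d - r • k‖ ≤ 1 / 8 * |r|) :
    ‖d - (inner ℝ k d : ℝ) • k‖ ≤ 1 / 2 * |(inner ℝ k d : ℝ)| := by
  have hkk : (inner ℝ k k : ℝ) = 1 := by rw [real_inner_self_eq_norm_sq, hk]; norm_num
  have h1 : |(inner ℝ k d : ℝ) - r| ≤ 1 / 8 * |r| := by
    have h2 : (inner ℝ k (d - r • k) : ℝ) = inner ℝ k d - r := by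
      rw [inner_sub_right, inner_smul_right, hkk, mul_one]
    rw [← h2]
    refine (abs_real_inner_le_norm k (d - r • k)).trans ?_
    rw [hk, one_mul]
    exact h
  have h3 : ‖d - (inner ℝ k d : ℝ) • k‖ ≤ 1 / 8 * |r| + 1 / 8 * |r| := by
    have h4 : d - (inner ℝ k d : ℝ) • k = (d - r • k) - ((inner ℝ k d : ℝ) - r) • k := by
      rw [sub_smul]; abel
    rw [h4]
    refine (norm_sub_le _ _).trans (add_le_add h ?_)
    rw [norm_smul, hk, mul_one, Real.norm_eq_abs]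
    exact h1
  have h5 : |r| - |(inner ℝ k d : ℝ)| ≤ |(inner ℝ k d : ℝ) - r| := by
    rw [abs_sub_comm]
    exact abs_sub_abs_le_abs_sub _ _
  have h6 := abs_nonneg r
  linarith

/-- The partner of a point near a singular point is near the singular point. -/
theorem partner_near_cap {F : Plane → EuclideanSpace ℝ (Fin 4)} {s : ℝ} (hF : IsSliceDisc F)
    (hg : GenericMovie F s) {x0 : Plane} (hx0 : x0 ∈ closedBall (0 : Plane) 1)
    (hxs : s ≤ F x0 3) (hcap : ¬ Function.Injective (fderiv ℝ (movie F) x0)) {δ : ℝ}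
    (hδ : 0 < δ) :
    ∃ U ∈ 𝓝 x0, ∀ x ∈ U, ∀ y ∈ closedBall (0 : Plane) 1, movie F x = movie F y →
      y ∈ ball x0 δ := by
  have hm : Continuous (movie F) := (contDiff_movie hF).continuous
  have hK : IsCompact (closedBall (0 : Plane) 1 \ ball x0 δ) :=
    (isCompact_closedBall _ _).diff isOpen_ball
  have hcl : IsClosed (movie F '' (closedBall (0 : Plane) 1 \ ball x0 δ)) :=
    (hK.image hm).isClosed
  have hnot : movie F x0 ∉ movie F '' (closedBall (0 : Plane) 1 \ ball x0 δ) := by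
    rintro ⟨y, ⟨hy, hyb⟩, hyx⟩
    have hne : x0 ≠ y := fun h => hyb (h ▸ mem_ball_self hδ)
    rcases crossings_total hF hx0 hy hxs hne hyx.symm with h | h
    · exact hcap (hg.inj_fst h)
    · exact hcap (hg.inj_snd h)
  refine ⟨movie F ⁻¹' (movie F '' (closedBall (0 : Plane) 1 \ ball x0 δ))ᶜ,
    hm.continuousAt.preimage_mem_nhds (hcl.isOpen_compl.mem_nhds hnot), ?_⟩
  intro x hx y hy hxy
  by_contra hyb
  exact hx ⟨y, ⟨hy, hyb⟩, hxy.symm⟩

/-- Near a singular point the difference of the two points of a pair points in the direction of the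
kernel vector `k` for which the third coordinate increases. -/
theorem pair_direction_cap {F : Plane → EuclideanSpace ℝ (Fin 4)} (hF : IsSliceDisc F)
    {x0 k : Plane} (hk : ‖k‖ = 1) (h0 : fderiv ℝ (movie F) x0 k = 0)
    (hz : 0 < fderiv ℝ (fun y => F y 2) x0 k)
    (hW : ∀ v, ∃ a b, fderiv ℝ (fun y => fderiv ℝ (movie F) y k) x0 a +
      fderiv ℝ (movie F) x0 b = v) :
    ∃ δ > 0, ∀ x ∈ ball x0 δ, ∀ y ∈ ball x0 δ, movie F x = movie F y → F y 2 < F x 2 →
      0 < (inner ℝ k (x - y) : ℝ) := by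
  obtain ⟨δ1, hδ1, hne⟩ := capEst_ne (contDiff_movie hF) hk h0 hW
  obtain ⟨c, hc⟩ : ∃ c, c = fderiv ℝ (fun y => F y 2) x0 k := ⟨_, rfl⟩
  rw [← hc] at hz
  obtain ⟨M, hM, hM1⟩ : ∃ M : ℝ, ‖fderiv ℝ (fun y => F y 2) x0‖ ≤ M ∧ 1 ≤ M :=
    ⟨max ‖fderiv ℝ (fun y => F y 2) x0‖ 1, le_max_left _ _, le_max_right _ _⟩
  have hMpos : 0 < M := by linarith
  obtain ⟨ε, hε, hε1, hε2⟩ : ∃ ε : ℝ, 0 < ε ∧ ε ≤ 1 ∧ ε * M ≤ c / 4 := by
    refine ⟨min 1 (c / (4 * M)), lt_min one_pos (by positivity), min_le_left _ _, ?_⟩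
    calc min 1 (c / (4 * M)) * M ≤ c / (4 * M) * M :=
          mul_le_mul_of_nonneg_right (min_le_right _ _) hMpos.le
      _ = c / 4 := by field_simp
  obtain ⟨δ2, hδ2, hone⟩ := capEst_one (contDiff_movie hF) hk h0 hW hε
  have hstr : HasStrictFDerivAt (fun y => F y 2) (fderiv ℝ (fun y => F y 2) x0) x0 :=
    (contDiff_coord' hF 2).contDiffAt.hasStrictFDerivAt (by simp)
  obtain ⟨δ3, hδ3, hzz⟩ : ∃ δ3 > 0, ∀ x ∈ ball x0 δ3, ∀ y ∈ ball x0 δ3,
      |F x 2 - F y 2 - fderiv ℝ (fun y => F y 2) x0 (x - y)| ≤ c / 8 * ‖x - y‖ := by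
    have hlo := (hstr.isLittleO.def (show (0 : ℝ) < c / 8 by positivity))
    rw [Metric.eventually_nhds_iff_ball] at hlo
    obtain ⟨δ3, hδ3, h⟩ := hlo
    refine ⟨δ3, hδ3, fun x hx y hy => ?_⟩
    have := h (x, y) (by rw [← ball_prod_same]; exact ⟨hx, hy⟩)
    simpa [Real.norm_eq_abs] using this
  refine ⟨min δ1 (min δ2 δ3), lt_min hδ1 (lt_min hδ2 hδ3), fun x hx y hy hxy hzxy => ?_⟩
  have hx1 := ball_subset_ball (min_le_left _ _) hx
  have hy1 := ball_subset_ball (min_le_left _ _) hy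
  have hx2 := ball_subset_ball ((min_le_right _ _).trans (min_le_left _ _)) hx
  have hy2 := ball_subset_ball ((min_le_right _ _).trans (min_le_left _ _)) hy
  have hx3 := ball_subset_ball ((min_le_right _ _).trans (min_le_right _ _)) hx
  have hy3 := ball_subset_ball ((min_le_right _ _).trans (min_le_right _ _)) hy
  have hxne : x ≠ y := by
    rintro rfl
    exact lt_irrefl _ hzxy
  rcases lt_trichotomy (inner ℝ k (x - y) : ℝ) 0 with h | h | h
  · exfalso
    obtain ⟨ρ, hρ⟩ : ∃ ρ : ℝ, ρ = -(inner ℝ k (x - y) : ℝ) / 2 := ⟨_, rfl⟩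
    have hρ0 : 0 < ρ := by rw [hρ]; linarith
    have hin : (inner ℝ k (y - x) : ℝ) = 2 * ρ := by
      rw [← neg_sub x y, inner_neg_right, hρ]; ring
    obtain ⟨e1, e2⟩ := hone y hy2 x hx2 hxy.symm ρ hρ0 hin
    obtain ⟨e, he⟩ : ∃ e, e = y - x - (2 * ρ) • k := ⟨_, rfl⟩
    have hen : ‖e‖ ≤ 2 * (ε * ρ) := by
      have : e = (y - x0 - ρ • k) - (x - x0 + ρ • k) := by
        rw [he, two_mul, add_smul]; abel
      rw [this]
      refine (norm_sub_le _ _).trans ?_
      linarith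
    have hyx : y - x = (2 * ρ) • k + e := by rw [he]; abel
    have hyxn : ‖y - x‖ ≤ 2 * ρ + 2 * (ε * ρ) := by
      rw [hyx]
      refine (norm_add_le _ _).trans (add_le_add ?_ hen)
      rw [norm_smul, hk, mul_one, Real.norm_eq_abs, abs_of_pos (by linarith)]
    have hd := hzz y hy3 x hx3
    rw [hyx, map_add, map_smul, smul_eq_mul, ← hc, ← hyx] at hd
    have he2 : |fderiv ℝ (fun y => F y 2) x0 e| ≤ M * (2 * (ε * ρ)) := by
      rw [← Real.norm_eq_abs]
      exact (ContinuousLinearMap.le_opNorm _ _).trans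
        (mul_le_mul hM hen (norm_nonneg _) hMpos.le)
    have h1 := (abs_le.1 hd).1
    have h2 := (abs_le.1 he2).1
    have h3 : ε * ρ ≤ ρ := by nlinarith
    have h4 : M * (2 * (ε * ρ)) ≤ c / 2 * ρ := by nlinarith
    have h5 : c / 8 * ‖y - x‖ ≤ c / 2 * ρ := by nlinarith
    nlinarith
  · exact absurd h (hne x hx1 y hy1 hxy hxne)
  · exact h

/-- P3b: a cap is not on the frontier of a regular closed set, all of whose nonsingular frontier
points are overcrossing points. -/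
theorem cap_notMem_frontier {F : Plane → EuclideanSpace ℝ (Fin 4)} {s : ℝ} (hF : IsSliceDisc F)
    (hg : GenericMovie F s) {x0 : Plane} (hx0 : x0 ∈ closedBall (0 : Plane) 1)
    (hxs : s ≤ F x0 3) (hcap : ¬ Function.Injective (fderiv ℝ (movie F) x0)) {Z : Set Plane}
    (hZ : IsClosed Z) (hZi : Z ⊆ closure (interior Z))
    (hfr : ∀ x ∈ frontier Z, Function.Injective (fderiv ℝ (movie F) x) →
      ∃ y, (x, y) ∈ Crossings F s) : x0 ∉ frontier Z := by
  intro hx0Z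
  have hm := contDiff_movie hF
  obtain ⟨k, hk, hk0, hkz, hW⟩ := exists_kernel hF hg hx0 hxs hcap
  obtain ⟨δ1, hδ1, hdir⟩ := pair_direction_cap hF hk hk0 hkz hW
  obtain ⟨δ2, hδ2, hone⟩ := capEst_one hm hk hk0 hW (ε := 1 / 8) (by norm_num)
  obtain ⟨δ3, hδ3, htwo⟩ := capEst_two hm hk hk0 hW (ε := 1 / 8) (by norm_num)
  obtain ⟨δ4, hδ4, hiso⟩ := cap_isolated hm hk hk0 hW
  obtain ⟨δ, hδ, hd1, hd2, hd3⟩ : ∃ δ : ℝ, 0 < δ ∧ δ ≤ δ1 ∧ δ ≤ δ2 ∧ δ ≤ δ3 :=
    ⟨min δ1 (min δ2 δ3), lt_min hδ1 (lt_min hδ2 hδ3), min_le_left _ _,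
      (min_le_right _ _).trans (min_le_left _ _), (min_le_right _ _).trans (min_le_right _ _)⟩
  obtain ⟨U, hU, hpart⟩ := partner_near_cap hF hg hx0 hxs hcap hδ
  obtain ⟨T, hT⟩ : ∃ T : Set Plane, T = {x | x = x0 ∨ x ∈ ball x0 δ ∧ ∃ y ∈ ball x0 δ,
    movie F x = movie F y ∧ F y 2 < F x 2} := ⟨_, rfl⟩
  have key : ∀ x ∈ T, x ≠ x0 → ∃ y ∈ ball x0 δ, ∃ ρ : ℝ, x ∈ ball x0 δ ∧ 0 < ρ ∧
      movie F x = movie F y ∧ (inner ℝ k (x - y) : ℝ) = 2 * ρ ∧
      ‖x - x0 - ρ • k‖ ≤ 1 / 8 * ρ := by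
    intro x hx hne
    rw [hT] at hx
    rcases hx with hx | ⟨hx, y, hy, hxy, hz⟩
    · exact absurd hx hne
    · have hpos := hdir x (ball_subset_ball hd1 hx) y (ball_subset_ball hd1 hy) hxy hz
      have hρ : 0 < (inner ℝ k (x - y) : ℝ) / 2 := by linarith
      have hin : (inner ℝ k (x - y) : ℝ) = 2 * ((inner ℝ k (x - y) : ℝ) / 2) := by ring
      exact ⟨y, hy, _, hx, hρ, hxy, hin, (hone x (ball_subset_ball hd2 hx) y
        (ball_subset_ball hd2 hy) hxy _ hρ hin).1⟩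
  have h1 : ∀ x ∈ T, ∀ x' ∈ T,
      ‖x - x' - (inner ℝ k (x - x') : ℝ) • k‖ ≤ 1 / 2 * |(inner ℝ k (x - x') : ℝ)| := by
    intro x hx x' hx'
    by_cases hxe : x = x0
    · by_cases hxe' : x' = x0
      · rw [hxe, hxe', sub_self]
        simp
      · obtain ⟨y', hy', ρ', hxb', hρ', hxy', hin', h'⟩ := key x' hx' hxe'
        apply CapBox_proj hk (r := -ρ')
        rw [abs_neg, abs_of_pos hρ', hxe]
        have : x0 - x' - (-ρ') • k = -(x' - x0 - ρ' • k) := by
          rw [neg_smul]; abel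
        rw [this, norm_neg]
        exact h'
    · obtain ⟨y, hy, ρ, hxb, hρ, hxy, hin, h⟩ := key x hx hxe
      by_cases hxe' : x' = x0
      · apply CapBox_proj hk (r := ρ)
        rw [abs_of_pos hρ, hxe']
        exact h
      · obtain ⟨y', hy', ρ', hxb', hρ', hxy', hin', h'⟩ := key x' hx' hxe'
        apply CapBox_proj hk (r := ρ - ρ')
        exact (htwo x (ball_subset_ball hd3 hxb) y (ball_subset_ball hd3 hy) x'
          (ball_subset_ball hd3 hxb') y' (ball_subset_ball hd3 hy') hxy hxy' ρ ρ' hρ hρ' hin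
          hin').1
  have h2 : ∀ x ∈ T, 0 ≤ (inner ℝ k (x - x0) : ℝ) := by
    intro x hx
    by_cases hxe : x = x0
    · rw [hxe, sub_self, inner_zero_right]
    · obtain ⟨y, hy, ρ, hxb, hρ, hxy, hin, h⟩ := key x hx hxe
      have hkk : (inner ℝ k k : ℝ) = 1 := by rw [real_inner_self_eq_norm_sq, hk]; norm_num
      have h3 : (inner ℝ k (x - x0 - ρ • k) : ℝ) = inner ℝ k (x - x0) - ρ := by
        rw [inner_sub_right, inner_smul_right, hkk, mul_one]
      have h4 : |(inner ℝ k (x - x0 - ρ • k) : ℝ)| ≤ 1 / 8 * ρ := by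
        refine (abs_real_inner_le_norm k _).trans ?_
        rw [hk, one_mul]
        exact h
      rw [h3] at h4
      have := (abs_le.1 h4).1
      linarith
  have h3 : x0 ∈ T := by rw [hT]; exact Or.inl rfl
  obtain ⟨N, hNo, hN0, hNU, hNp, hNc⟩ := exists_slitBox hk h1 h2 h3
    (inter_mem (inter_mem hU (ball_mem_nhds x0 hδ)) (ball_mem_nhds x0 hδ4))
  have hfrN : ∀ x ∈ frontier Z, x ∈ N → x ∈ T := by
    intro x hx hxN
    obtain ⟨⟨hxU, hxδ⟩, hx4⟩ := hNU hxN
    by_cases hinj : Function.Injective (fderiv ℝ (movie F) x)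
    · obtain ⟨y, hy⟩ := hfr x hx hinj
      rw [hT]
      exact Or.inr ⟨hxδ, y, hpart x hxU y hy.2.1 hy.2.2.2.1, hy.2.2.2.1, hy.2.2.2.2⟩
    · rw [hT]
      exact Or.inl (hiso x hx4 hinj)
  have hdis : Disjoint (N \ T) (frontier (interior Z)) := by
    rw [Set.disjoint_left]
    intro x hx hx'
    exact hx.2 (hfrN x (frontier_interior_subset hx') hx.1)
  rcases subset_or_disjoint_of_frontier hNp isOpen_interior hdis with h | h
  · have hNZ : N ⊆ Z := hNc.trans ((closure_mono h).trans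
      ((closure_mono interior_subset).trans hZ.closure_subset))
    exact hx0Z.2 (mem_interior.2 ⟨N, hNZ, hNo, hN0⟩)
  · have hx0' : x0 ∈ closure (interior Z) := hZi (hZ.frontier_subset hx0Z)
    obtain ⟨p, hpN, hpZ⟩ := mem_closure_iff.1 hx0' N hNo hN0
    obtain ⟨q, hqZ, hq⟩ := mem_closure_iff.1 (hNc hpN) (interior Z) isOpen_interior hpZ
    exact Set.disjoint_left.1 h hq hqZ

end Pool.Agent.Lib_MP_752436_mv
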