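import Pool.Agent.Lib_MP_752436_mv.Defs

/-!
Pairs of points with the same image near a Whitney umbrella (piece P2).
-/

open Metric Set Filter
open scoped ContDiff Topology

namespace Pool.Agent.Lib_MP_752436_mv

open Pool.Agent.Lib_MP_752436_gt Pool.Agent.Lib_MP_752436_tp Pool.Agent.Lib_MP_752436_rb

private theorem CapEst_frame {k : Plane} (hk : ‖k‖ = 1) : ∃ w : Plane, ‖w‖ = 1 ∧
    inner ℝ k w = (0 : ℝ) ∧ ∀ v : Plane, v = (inner ℝ k v : ℝ) • k + (inner ℝ w v : ℝ) • w := by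
  have hk2 : k 0 ^ 2 + k 1 ^ 2 = 1 := by
    have h := EuclideanSpace.norm_sq_eq k
    rw [hk, Fin.sum_univ_two] at h
    simp only [Real.norm_eq_abs, sq_abs] at h
    linarith
  refine ⟨!₂[-(k 1), k 0], ?_, ?_, fun v => ?_⟩
  · have h := EuclideanSpace.norm_sq_eq (!₂[-(k 1), k 0] : Plane)
    rw [Fin.sum_univ_two] at h
    simp only [Real.norm_eq_abs, sq_abs] at h
    have h1 : ‖(!₂[-(k 1), k 0] : Plane)‖ ^ 2 = 1 := by
      rw [h]
      simp
      linarith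
    have h2 := norm_nonneg (!₂[-(k 1), k 0] : Plane)
    nlinarith
  · simp [PiLp.inner_apply, Fin.sum_univ_two]
    ring
  · ext i
    fin_cases i
    · simp [PiLp.inner_apply, Fin.sum_univ_two]
      linear_combination (-(v 0)) * hk2
    · simp [PiLp.inner_apply, Fin.sum_univ_two]
      linear_combination (-(v 1)) * hk2

/-- the linear part and the strict derivative -/
private theorem CapEst_L {m : Plane → Space} (hm : ContDiff ℝ ∞ m) {x0 k w : Plane}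
    (h0 : fderiv ℝ m x0 k = 0)
    (hfr : ∀ v : Plane, v = (inner ℝ k v : ℝ) • k + (inner ℝ w v : ℝ) • w)
    (hW : ∀ v, ∃ a b, fderiv ℝ (fun y => fderiv ℝ m y k) x0 a + fderiv ℝ m x0 b = v) :
    ∃ (L : Plane × ℝ →L[ℝ] Space) (K : ℝ), 0 < K ∧ (∀ v, ‖v‖ ≤ K * ‖L v‖) ∧
      (∀ σ : ℝ, L (0, σ) = σ • fderiv ℝ m x0 w) ∧
      ∀ ε > 0, ∃ δ > 0, ∀ z ∈ ball x0 δ, ∀ z' ∈ ball x0 δ, ∀ σ σ' : ℝ, |σ| < δ → |σ'| < δ →
        ‖fderiv ℝ m z (k + σ • w) - fderiv ℝ m z' (k + σ' • w) - L (z - z', σ - σ')‖ ≤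
          ε * ‖(z - z', σ - σ')‖ := by
  have hdm : ContDiff ℝ ∞ (fderiv ℝ m) := hm.fderiv_right (by simp)
  have hk1 : ContDiff ℝ ∞ (fun y => fderiv ℝ m y k) := hdm.clm_apply contDiff_const
  have hw1 : ContDiff ℝ ∞ (fun y => fderiv ℝ m y w) := hdm.clm_apply contDiff_const
  let G : Plane × ℝ → Space := fun p => fderiv ℝ m p.1 k + p.2 • fderiv ℝ m p.1 w
  have hG : ContDiff ℝ ∞ G :=
    (hk1.comp contDiff_fst).add (contDiff_snd.smul (hw1.comp contDiff_fst))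
  let L : Plane × ℝ →L[ℝ] Space :=
    (fderiv ℝ (fun y => fderiv ℝ m y k) x0).comp (ContinuousLinearMap.fst ℝ Plane ℝ) +
      (ContinuousLinearMap.snd ℝ Plane ℝ).smulRight (fderiv ℝ m x0 w)
  have hL : ∀ v : Plane × ℝ, L v = fderiv ℝ (fun y => fderiv ℝ m y k) x0 v.1 +
      v.2 • fderiv ℝ m x0 w := fun v => rfl
  have hd : HasFDerivAt G L (x0, 0) := by
    have h1 : HasFDerivAt (fun p : Plane × ℝ => fderiv ℝ m p.1 k)
        ((fderiv ℝ (fun y => fderiv ℝ m y k) x0).comp (ContinuousLinearMap.fst ℝ Plane ℝ))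
        (x0, 0) :=
      HasFDerivAt.comp (g := fun y => fderiv ℝ m y k) (f := Prod.fst) (x0, (0 : ℝ))
        ((hk1.differentiable (by simp)) x0).hasFDerivAt hasFDerivAt_fst
    have h2 : HasFDerivAt (fun p : Plane × ℝ => fderiv ℝ m p.1 w)
        ((fderiv ℝ (fun y => fderiv ℝ m y w) x0).comp (ContinuousLinearMap.fst ℝ Plane ℝ))
        (x0, 0) :=
      HasFDerivAt.comp (g := fun y => fderiv ℝ m y w) (f := Prod.fst) (x0, (0 : ℝ))
        ((hw1.differentiable (by simp)) x0).hasFDerivAt hasFDerivAt_fst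
    have h3 : HasFDerivAt (fun p : Plane × ℝ => p.2) (ContinuousLinearMap.snd ℝ Plane ℝ)
        (x0, (0 : ℝ)) := hasFDerivAt_snd
    have h4 := h1.add (h3.smul h2)
    refine h4.congr_fderiv ?_
    ext v
    · simp [L]
    · simp [L]
  have hstr : HasStrictFDerivAt G L (x0, 0) := by
    have h1 := (hG.contDiffAt (x := (x0, (0 : ℝ)))).hasStrictFDerivAt (by simp)
    rw [hd.fderiv] at h1
    exact h1
  have hsurj : Function.Surjective (L : Plane × ℝ →ₗ[ℝ] Space) := by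
    intro v
    obtain ⟨a, b, hab⟩ := hW v
    refine ⟨(a, inner ℝ w b), ?_⟩
    change L (a, inner ℝ w b) = v
    rw [hL, ← hab]
    congr 1
    conv_rhs => rw [hfr b]
    rw [map_add, map_smul, map_smul, h0, smul_zero, zero_add]
  have hinj : Function.Injective (L : Plane × ℝ →ₗ[ℝ] Space) := by
    refine (LinearMap.injective_iff_surjective_of_finrank_eq_finrank ?_).2 hsurj
    rw [Module.finrank_prod, finrank_euclideanSpace_fin, finrank_euclideanSpace_fin,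
      Module.finrank_self]
  obtain ⟨K, hK, hKL⟩ := LinearMap.exists_antilipschitzWith (L : Plane × ℝ →ₗ[ℝ] Space)
    (LinearMap.ker_eq_bot.2 hinj)
  refine ⟨L, K, by exact_mod_cast hK, fun v => ?_, fun σ => ?_, ?_⟩
  · have h1 := hKL.le_mul_dist v 0
    simp only [dist_zero_right, map_zero] at h1
    exact h1
  · rw [hL, map_zero, zero_add]
  · intro ε hε
    have h1 := hstr.isLittleO.def hε
    rw [Metric.eventually_nhds_iff_ball] at h1
    obtain ⟨δ, hδ, h2⟩ := h1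
    refine ⟨δ, hδ, fun z hz z' hz' σ σ' hσ hσ' => ?_⟩
    have h3 := h2 ((z, σ), (z', σ')) (by
      rw [← ball_prod_same, ← ball_prod_same]
      refine ⟨⟨hz, ?_⟩, ⟨hz', ?_⟩⟩
      · rw [mem_ball, Real.dist_eq, sub_zero]; exact hσ
      · rw [mem_ball, Real.dist_eq, sub_zero]; exact hσ')
    have h4 : ∀ (y : Plane) (τ : ℝ), fderiv ℝ m y (k + τ • w) = G (y, τ) := by
      intro y τ
      simp only [G, map_add, map_smul]
    rw [h4, h4]
    exact h3

private theorem CapEst_key {m : Plane → Space} (_hm : ContDiff ℝ ∞ m) {x0 k w : Plane}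
    {L : Plane × ℝ →L[ℝ] Space} {ε δ : ℝ} (hε : 0 < ε)
    (hs : ∀ z ∈ ball x0 δ, ∀ z' ∈ ball x0 δ, ∀ σ σ' : ℝ, |σ| < δ → |σ'| < δ →
        ‖fderiv ℝ m z (k + σ • w) - fderiv ℝ m z' (k + σ' • w) - L (z - z', σ - σ')‖ ≤
          ε * ‖(z - z', σ - σ')‖) {x y x' y' : Plane} (hx : x ∈ ball x0 δ) (hy : y ∈ ball x0 δ)
    (hx' : x' ∈ ball x0 δ) (hy' : y' ∈ ball x0 δ) {σ σ' : ℝ} (hσ : |σ| < δ) (hσ' : |σ'| < δ)
    {γ γ' : ℝ → Space}
    (hγ : ∀ s, HasDerivAt γ (fderiv ℝ m (y + s • (x - y)) (k + σ • w)) s) (hγ1 : γ 1 = γ 0)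
    (hγ' : ∀ s, HasDerivAt γ' (fderiv ℝ m (y' + s • (x' - y')) (k + σ' • w)) s)
    (hγ1' : γ' 1 = γ' 0) :
    ‖L ((1 / 2 : ℝ) • (x + y) - (1 / 2 : ℝ) • (x' + y'), σ - σ')‖ ≤
      ε * max (max ‖x - x'‖ ‖y - y'‖) |σ - σ'| := by
  let u : ℝ → Plane × ℝ := fun s =>
    (s • (y - y') + (s ^ 2 / 2) • ((x - y) - (x' - y')), s * (σ - σ'))
  let φ : ℝ → Space := fun s => γ s - γ' s - L (u s)
  have hu : ∀ s, HasDerivAt u ((y - y') + s • ((x - y) - (x' - y')), σ - σ') s := by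
    intro s
    have h1 : HasDerivAt (fun s : ℝ => s • (y - y') + (s ^ 2 / 2) • ((x - y) - (x' - y')))
        ((y - y') + s • ((x - y) - (x' - y'))) s := by
      have h2 : HasDerivAt (fun s : ℝ => s • (y - y')) ((1 : ℝ) • (y - y')) s :=
        (hasDerivAt_id s).smul_const _
      have h3 : HasDerivAt (fun s : ℝ => s ^ 2 / 2) s s := by
        have h4 := (hasDerivAt_pow 2 s).div_const 2
        refine h4.congr_deriv ?_
        norm_num
      have h5 := h2.add (h3.smul_const ((x - y) - (x' - y')))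
      rw [one_smul] at h5
      exact h5
    have h6 : HasDerivAt (fun s : ℝ => s * (σ - σ')) (σ - σ') s := by
      have h7 := (hasDerivAt_id s).mul_const (σ - σ')
      rw [one_mul] at h7
      exact h7
    exact h1.prodMk h6
  have hφ : ∀ s, HasDerivAt φ (fderiv ℝ m (y + s • (x - y)) (k + σ • w) -
      fderiv ℝ m (y' + s • (x' - y')) (k + σ' • w) -
      L ((y - y') + s • ((x - y) - (x' - y')), σ - σ')) s := by
    intro s
    exact ((hγ s).sub (hγ' s)).sub (L.hasFDerivAt.comp_hasDerivAt s (hu s))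
  have hmv := norm_image_sub_le_of_norm_deriv_le_segment_01' (f := φ)
    (C := ε * max (max ‖x - x'‖ ‖y - y'‖) |σ - σ'|)
    (fun s _ => (hφ s).hasDerivWithinAt) (fun s hs' => by
      have hz := (convex_ball x0 δ).add_smul_sub_mem hy hx ⟨hs'.1, hs'.2.le⟩
      have hz' := (convex_ball x0 δ).add_smul_sub_mem hy' hx' ⟨hs'.1, hs'.2.le⟩
      have h1 := hs _ hz _ hz' σ σ' hσ hσ'
      have h2 : y + s • (x - y) - (y' + s • (x' - y')) =
          (y - y') + s • ((x - y) - (x' - y')) := by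
        rw [smul_sub s (x - y)]
        abel
      rw [h2] at h1
      refine h1.trans (mul_le_mul_of_nonneg_left ?_ hε.le)
      rw [Prod.norm_def]
      refine max_le_max ?_ (le_of_eq (Real.norm_eq_abs _))
      have h3 : (y - y') + s • ((x - y) - (x' - y')) =
          (1 - s) • (y - y') + s • (x - x') := by
        module
      change ‖(y - y') + s • ((x - y) - (x' - y'))‖ ≤ _
      rw [h3]
      refine (norm_add_le _ _).trans ?_
      rw [norm_smul, norm_smul, Real.norm_eq_abs, Real.norm_eq_abs, abs_of_nonneg hs'.1,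
        abs_of_nonneg (by linarith [hs'.2])]
      have h4 := le_max_left ‖x - x'‖ ‖y - y'‖
      have h5 := le_max_right ‖x - x'‖ ‖y - y'‖
      have h6 : (1 - s) * ‖y - y'‖ ≤ (1 - s) * max ‖x - x'‖ ‖y - y'‖ :=
        mul_le_mul_of_nonneg_left h5 (by linarith [hs'.2])
      have h7 : s * ‖x - x'‖ ≤ s * max ‖x - x'‖ ‖y - y'‖ :=
        mul_le_mul_of_nonneg_left h4 hs'.1
      linarith)
  have hφ10 : φ 1 - φ 0 =
      -L ((1 / 2 : ℝ) • (x + y) - (1 / 2 : ℝ) • (x' + y'), σ - σ') := by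
    have h1 : u 1 = ((1 / 2 : ℝ) • (x + y) - (1 / 2 : ℝ) • (x' + y'), σ - σ') := by
      refine Prod.ext ?_ ?_
      · change (1 : ℝ) • (y - y') + ((1 : ℝ) ^ 2 / 2) • ((x - y) - (x' - y')) = _
        module
      · change 1 * (σ - σ') = σ - σ'
        ring
    have h2 : u 0 = 0 := by
      refine Prod.ext ?_ ?_
      · change (0 : ℝ) • (y - y') + ((0 : ℝ) ^ 2 / 2) • ((x - y) - (x' - y')) = 0
        simp
      · change 0 * (σ - σ') = 0
        ring
    change γ 1 - γ' 1 - L (u 1) - (γ 0 - γ' 0 - L (u 0)) = _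
    rw [h1, h2, hγ1, hγ1', map_zero]
    abel
  rw [hφ10, norm_neg] at hmv
  exact hmv

private theorem CapEst_curve {m : Plane → Space} (hm : ContDiff ℝ ∞ m) {k w x y : Plane}
    {ρ σ : ℝ} (hρ : ρ ≠ 0) (hxy : x - y = (2 * ρ) • (k + σ • w)) (hmm : m x = m y) :
    ∃ γ : ℝ → Space, (∀ s, HasDerivAt γ (fderiv ℝ m (y + s • (x - y)) (k + σ • w)) s) ∧
      γ 1 = γ 0 := by
  refine ⟨fun s => (2 * ρ)⁻¹ • m (y + s • (x - y)), fun s => ?_, ?_⟩
  · have h1 : HasDerivAt (fun s : ℝ => y + s • (x - y)) (x - y) s := by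
      have h2 := ((hasDerivAt_id s).smul_const (x - y)).const_add y
      rw [one_smul] at h2
      exact h2
    have h3 : HasDerivAt (fun s : ℝ => m (y + s • (x - y)))
        (fderiv ℝ m (y + s • (x - y)) (x - y)) s :=
      (((hm.differentiable (by simp)) (y + s • (x - y))).hasFDerivAt).comp_hasDerivAt s h1
    have h4 := h3.const_smul (2 * ρ)⁻¹
    refine h4.congr_deriv ?_
    nth_rewrite 2 [hxy]
    rw [map_smul, smul_smul, inv_mul_cancel₀ (by simpa using hρ), one_smul]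
  · change (2 * ρ)⁻¹ • m (y + (1 : ℝ) • (x - y)) = (2 * ρ)⁻¹ • m (y + (0 : ℝ) • (x - y))
    rw [one_smul, zero_smul, add_zero, add_sub_cancel, hmm]

private theorem CapEst_slope {m : Plane → Space} (hm : ContDiff ℝ ∞ m) {x0 k w : Plane}
    (hk : ‖k‖ = 1) (hw : ‖w‖ = 1)
    (h0 : fderiv ℝ m x0 k = 0) (hw0 : fderiv ℝ m x0 w ≠ 0)
    (hfr : ∀ v : Plane, v = (inner ℝ k v : ℝ) • k + (inner ℝ w v : ℝ) • w) {ε : ℝ}
    (hε : 0 < ε) :
    ∃ δ > 0, ∀ x ∈ ball x0 δ, ∀ y ∈ ball x0 δ, m x = m y →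
      |(inner ℝ w (x - y) : ℝ)| ≤ ε * |(inner ℝ k (x - y) : ℝ)| := by
  have hstr : HasStrictFDerivAt m (fderiv ℝ m x0) x0 :=
    (hm.contDiffAt (x := x0)).hasStrictFDerivAt (by simp)
  set c0 := ‖fderiv ℝ m x0 w‖ with hc0
  have hc0' : 0 < c0 := norm_pos_iff.2 hw0
  set ε' := min (c0 / 2) (ε * c0 / 2) with hε'
  have hε'0 : 0 < ε' := lt_min (by positivity) (by positivity)
  have h1 := hstr.isLittleO.def hε'0
  rw [Metric.eventually_nhds_iff_ball] at h1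
  obtain ⟨δ, hδ, h2⟩ := h1
  refine ⟨δ, hδ, fun x hx y hy hmm => ?_⟩
  have h3 := h2 (x, y) (by rw [← ball_prod_same]; exact ⟨hx, hy⟩)
  simp only [hmm, sub_self, zero_sub, norm_neg] at h3
  set α := (inner ℝ k (x - y) : ℝ) with hα
  set β := (inner ℝ w (x - y) : ℝ) with hβ
  have h4 : x - y = α • k + β • w := hfr (x - y)
  have h5 : fderiv ℝ m x0 (x - y) = β • fderiv ℝ m x0 w := by
    rw [h4, map_add, map_smul, map_smul, h0, smul_zero, zero_add]
  rw [h5, norm_smul, Real.norm_eq_abs, ← hc0] at h3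
  have h6 : ‖x - y‖ ≤ |α| + |β| := by
    rw [h4]
    refine (norm_add_le _ _).trans ?_
    rw [norm_smul, norm_smul, hk, hw, mul_one, mul_one, Real.norm_eq_abs, Real.norm_eq_abs]
  have h7 : |β| * c0 ≤ ε' * (|α| + |β|) := h3.trans (mul_le_mul_of_nonneg_left h6 hε'0.le)
  have h8 : ε' * |β| ≤ c0 / 2 * |β| := mul_le_mul_of_nonneg_right (min_le_left _ _) (abs_nonneg _)
  have h9 : ε' * |α| ≤ ε * c0 / 2 * |α| :=
    mul_le_mul_of_nonneg_right (min_le_right _ _) (abs_nonneg _)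
  have h10 : c0 / 2 * |β| ≤ c0 / 2 * (ε * |α|) := by nlinarith
  exact le_of_mul_le_mul_left h10 (by positivity)

private theorem CapEst_w_ne {m : Plane → Space} {x0 w : Plane} {L : Plane × ℝ →L[ℝ] Space}
    {K : ℝ} (hKL : ∀ v, ‖v‖ ≤ K * ‖L v‖) (hLw : ∀ σ : ℝ, L (0, σ) = σ • fderiv ℝ m x0 w) :
    fderiv ℝ m x0 w ≠ 0 := by
  intro h
  have h1 := hKL (0, 1)
  rw [hLw, h, smul_zero, norm_zero, mul_zero] at h1
  have h2 : ‖((0, 1) : Plane × ℝ)‖ = 1 := by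
    rw [Prod.norm_def]
    simp
  rw [h2] at h1
  linarith

/-- P2a: near a Whitney umbrella with kernel `k` the difference of the two points of a pair is
not orthogonal to `k`. -/
theorem capEst_ne {m : Plane → Space} (hm : ContDiff ℝ ∞ m) {x0 k : Plane} (hk : ‖k‖ = 1)
    (h0 : fderiv ℝ m x0 k = 0)
    (hW : ∀ v, ∃ a b, fderiv ℝ (fun y => fderiv ℝ m y k) x0 a + fderiv ℝ m x0 b = v) :
    ∃ δ > 0, ∀ x ∈ ball x0 δ, ∀ y ∈ ball x0 δ, m x = m y → x ≠ y → inner ℝ k (x - y) ≠ (0 : ℝ) := by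
  obtain ⟨w, hw, _, hfr⟩ := CapEst_frame hk
  obtain ⟨L, K, hK, hKL, hLw, _⟩ := CapEst_L hm h0 hfr hW
  obtain ⟨δ, hδ, h1⟩ := CapEst_slope hm hk hw h0 (CapEst_w_ne hKL hLw) hfr one_pos
  refine ⟨δ, hδ, fun x hx y hy hmm hne h2 => hne ?_⟩
  have h3 := h1 x hx y hy hmm
  rw [h2, abs_zero, mul_zero] at h3
  have h4 : (inner ℝ w (x - y) : ℝ) = 0 := abs_eq_zero.1 (le_antisymm h3 (abs_nonneg _))
  have h5 := hfr (x - y)
  rw [h2, h4, zero_smul, zero_smul, add_zero] at h5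
  exact sub_eq_zero.1 h5

/-- the normal form of a pair -/
private theorem CapEst_pair {k w : Plane}
    (hfr : ∀ v : Plane, v = (inner ℝ k v : ℝ) • k + (inner ℝ w v : ℝ) • w) {x y : Plane}
    {ρ : ℝ} (hρ : 0 < ρ) (hk : inner ℝ k (x - y) = 2 * ρ) {η : ℝ}
    (hs : |(inner ℝ w (x - y) : ℝ)| ≤ η * |(inner ℝ k (x - y) : ℝ)|) :
    ∃ σ : ℝ, |σ| ≤ η ∧ x - y = (2 * ρ) • (k + σ • w) := by
  refine ⟨(inner ℝ w (x - y) : ℝ) / (2 * ρ), ?_, ?_⟩
  · rw [abs_div, div_le_iff₀ (by positivity)]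
    rw [hk] at hs
    exact hs
  · rw [smul_add, smul_smul, mul_div_cancel₀ _ (by positivity)]
    conv_lhs => rw [hfr (x - y), hk]

/-- P2b: the position of a pair. -/
theorem capEst_one {m : Plane → Space} (hm : ContDiff ℝ ∞ m) {x0 k : Plane} (hk : ‖k‖ = 1)
    (h0 : fderiv ℝ m x0 k = 0)
    (hW : ∀ v, ∃ a b, fderiv ℝ (fun y => fderiv ℝ m y k) x0 a + fderiv ℝ m x0 b = v)
    {ε : ℝ} (hε : 0 < ε) :
    ∃ δ > 0, ∀ x ∈ ball x0 δ, ∀ y ∈ ball x0 δ, m x = m y → ∀ ρ : ℝ, 0 < ρ →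
      inner ℝ k (x - y) = 2 * ρ →
      ‖x - x0 - ρ • k‖ ≤ ε * ρ ∧ ‖y - x0 + ρ • k‖ ≤ ε * ρ := by
  obtain ⟨w, hw, _, hfr⟩ := CapEst_frame hk
  obtain ⟨L, K, hK, hKL, hLw, hstr⟩ := CapEst_L hm h0 hfr hW
  set ε' := min (1 / 4) (ε / 8) / K with hε'
  have hε'0 : 0 < ε' := div_pos (lt_min (by norm_num) (by positivity)) hK
  have hKε : K * ε' = min (1 / 4) (ε / 8) := by
    rw [hε']
    field_simp
  obtain ⟨δ1, hδ1, hs⟩ := hstr ε' hε'0
  set η := min (δ1 / 2) (min 1 (ε / 2)) with hη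
  have hη0 : 0 < η := lt_min (by positivity) (lt_min one_pos (by positivity))
  obtain ⟨δ2, hδ2, hsl⟩ := CapEst_slope hm hk hw h0 (CapEst_w_ne hKL hLw) hfr hη0
  refine ⟨min δ1 δ2, lt_min hδ1 hδ2, fun x hx y hy hmm ρ hρ hkρ => ?_⟩
  have hx1 := ball_subset_ball (min_le_left δ1 δ2) hx
  have hy1 := ball_subset_ball (min_le_left δ1 δ2) hy
  obtain ⟨σ, hσ, hxy⟩ := CapEst_pair hfr hρ hkρ
    (hsl x (ball_subset_ball (min_le_right δ1 δ2) hx) y
      (ball_subset_ball (min_le_right δ1 δ2) hy) hmm)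
  have hσ1 : |σ| < δ1 := lt_of_le_of_lt (hσ.trans (min_le_left _ _)) (by linarith)
  have hσ2 : |σ| ≤ 1 := hσ.trans ((min_le_right _ _).trans (min_le_left _ _))
  have hσ3 : |σ| ≤ ε / 2 := hσ.trans ((min_le_right _ _).trans (min_le_right _ _))
  obtain ⟨γ, hγ, hγ1⟩ := CapEst_curve hm hρ.ne' hxy hmm
  have hkey := CapEst_key hm hε'0 hs hx1 hy1 (mem_ball_self hδ1) (mem_ball_self hδ1) hσ1
    (by rw [abs_zero]; exact hδ1) hγ hγ1 (γ' := fun _ => 0)
    (fun s => by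
      have h1 : fderiv ℝ m (x0 + s • (x0 - x0)) (k + (0 : ℝ) • w) = 0 := by
        rw [sub_self, smul_zero, add_zero, zero_smul, add_zero, h0]
      rw [h1]
      exact hasDerivAt_const s 0) rfl
  have hN := (hKL _).trans (mul_le_mul_of_nonneg_left hkey hK.le)
  rw [← mul_assoc, hKε, sub_zero, Prod.norm_def] at hN
  set a := (1 / 2 : ℝ) • (x + y) - (1 / 2 : ℝ) • (x0 + x0) with ha
  change max ‖a‖ ‖σ‖ ≤ _ at hN
  have hxa : x - x0 = a + ρ • k + (ρ * σ) • w := by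
    have h1 : x - y = (2 * ρ) • k + (2 * ρ * σ) • w := by
      rw [hxy]
      module
    have h2 : x - x0 = a + (1 / 2 : ℝ) • (x - y) := by
      rw [ha]
      module
    rw [h2, h1]
    module
  have hya : y - x0 = a - ρ • k - (ρ * σ) • w := by
    have h1 : x - y = (2 * ρ) • k + (2 * ρ * σ) • w := by
      rw [hxy]
      module
    have h2 : y - x0 = a - (1 / 2 : ℝ) • (x - y) := by
      rw [ha]
      module
    rw [h2, h1]
    module
  have hnk : ‖ρ • k‖ = ρ := by rw [norm_smul, hk, mul_one, Real.norm_eq_abs, abs_of_pos hρ]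
  have hnw : ‖(ρ * σ) • w‖ = ρ * |σ| := by
    rw [norm_smul, hw, mul_one, Real.norm_eq_abs, abs_mul, abs_of_pos hρ]
  have hnx : ‖x - x0‖ ≤ ‖a‖ + 2 * ρ := by
    rw [hxa]
    refine (norm_add_le _ _).trans ?_
    have h1 := norm_add_le a (ρ • k)
    rw [hnk] at h1
    rw [hnw]
    nlinarith
  have hny : ‖y - x0‖ ≤ ‖a‖ + 2 * ρ := by
    rw [hya]
    refine (norm_sub_le _ _).trans ?_
    have h1 := norm_sub_le a (ρ • k)
    rw [hnk] at h1
    rw [hnw]
    nlinarith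
  have hmax : max (max ‖x - x0‖ ‖y - x0‖) |σ| ≤ max ‖a‖ ‖σ‖ + 2 * ρ := by
    refine max_le (max_le ?_ ?_) ?_
    · linarith [le_max_left ‖a‖ ‖σ‖]
    · linarith [le_max_left ‖a‖ ‖σ‖]
    · have := le_max_right ‖a‖ ‖σ‖
      rw [Real.norm_eq_abs] at this
      rw [Real.norm_eq_abs]
      linarith
  set N := max ‖a‖ ‖σ‖ with hNdef
  have hN0 : 0 ≤ N := le_trans (norm_nonneg _) (le_max_left _ _)
  have hm0 : (0 : ℝ) ≤ min (1 / 4) (ε / 8) := by positivity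
  have hN2 : N ≤ min (1 / 4) (ε / 8) * (N + 2 * ρ) :=
    hN.trans (mul_le_mul_of_nonneg_left hmax hm0)
  have h4 : min (1 / 4) (ε / 8) * N ≤ 1 / 4 * N :=
    mul_le_mul_of_nonneg_right (min_le_left _ _) hN0
  have h5 : min (1 / 4) (ε / 8) * (2 * ρ) ≤ ε / 8 * (2 * ρ) :=
    mul_le_mul_of_nonneg_right (min_le_right _ _) (by positivity)
  have hNf : ‖a‖ ≤ ε / 2 * ρ := by
    have := le_max_left ‖a‖ ‖σ‖
    nlinarith
  constructor
  · have h1 : x - x0 - ρ • k = a + (ρ * σ) • w := by rw [hxa]; abel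
    rw [h1]
    refine (norm_add_le _ _).trans ?_
    rw [hnw]
    nlinarith
  · have h1 : y - x0 + ρ • k = a - (ρ * σ) • w := by rw [hya]; abel
    rw [h1]
    refine (norm_sub_le _ _).trans ?_
    rw [hnw]
    nlinarith

/-- P2c: the positions of two pairs. -/
theorem capEst_two {m : Plane → Space} (hm : ContDiff ℝ ∞ m) {x0 k : Plane} (hk : ‖k‖ = 1)
    (h0 : fderiv ℝ m x0 k = 0)
    (hW : ∀ v, ∃ a b, fderiv ℝ (fun y => fderiv ℝ m y k) x0 a + fderiv ℝ m x0 b = v)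
    {ε : ℝ} (hε : 0 < ε) :
    ∃ δ > 0, ∀ x ∈ ball x0 δ, ∀ y ∈ ball x0 δ, ∀ x' ∈ ball x0 δ, ∀ y' ∈ ball x0 δ,
      m x = m y → m x' = m y' → ∀ ρ ρ' : ℝ, 0 < ρ → 0 < ρ' →
      inner ℝ k (x - y) = 2 * ρ → inner ℝ k (x' - y') = 2 * ρ' →
      ‖x - x' - (ρ - ρ') • k‖ ≤ ε * |ρ - ρ'| ∧ ‖y - y' + (ρ - ρ') • k‖ ≤ ε * |ρ - ρ'| := by
  obtain ⟨w, hw, _, hfr⟩ := CapEst_frame hk
  obtain ⟨L, K, hK, hKL, hLw, hstr⟩ := CapEst_L hm h0 hfr hW
  set ε' := min (1 / 8) (ε / 32) / K with hε'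
  have hε'0 : 0 < ε' := div_pos (lt_min (by norm_num) (by positivity)) hK
  have hKε : K * ε' = min (1 / 8) (ε / 32) := by
    rw [hε']
    field_simp
  obtain ⟨δ1, hδ1, hs⟩ := hstr ε' hε'0
  set η := min (δ1 / 2) (min 1 (ε / 4)) with hη
  have hη0 : 0 < η := lt_min (by positivity) (lt_min one_pos (by positivity))
  obtain ⟨δ2, hδ2, hsl⟩ := CapEst_slope hm hk hw h0 (CapEst_w_ne hKL hLw) hfr hη0
  refine ⟨min (min δ1 δ2) 1, lt_min (lt_min hδ1 hδ2) one_pos, fun x hx y hy x' hx' y' hy' hmm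
    hmm' ρ ρ' hρ hρ' hkρ hkρ' => ?_⟩
  have hb1 : min (min δ1 δ2) 1 ≤ δ1 := (min_le_left _ _).trans (min_le_left _ _)
  have hb2 : min (min δ1 δ2) 1 ≤ δ2 := (min_le_left _ _).trans (min_le_right _ _)
  have hb3 : min (min δ1 δ2) 1 ≤ 1 := min_le_right _ _
  obtain ⟨σ, hσ, hxy⟩ := CapEst_pair hfr hρ hkρ
    (hsl x (ball_subset_ball hb2 hx) y (ball_subset_ball hb2 hy) hmm)
  obtain ⟨σ', hσ', hxy'⟩ := CapEst_pair hfr hρ' hkρ'
    (hsl x' (ball_subset_ball hb2 hx') y' (ball_subset_ball hb2 hy') hmm')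
  have hσ1 : |σ| < δ1 := lt_of_le_of_lt (hσ.trans (min_le_left _ _)) (by linarith)
  have hσ1' : |σ'| < δ1 := lt_of_le_of_lt (hσ'.trans (min_le_left _ _)) (by linarith)
  have hσ2 : |σ| ≤ 1 := hσ.trans ((min_le_right _ _).trans (min_le_left _ _))
  have hσ3 : |σ| ≤ ε / 4 := hσ.trans ((min_le_right _ _).trans (min_le_right _ _))
  have hρ1 : ρ' ≤ 1 := by
    have h1 : ‖x' - y'‖ ≤ 2 := by
      have h2 : ‖x' - y'‖ = ‖(x' - x0) - (y' - x0)‖ := by congr 1; abel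
      rw [h2]
      refine (norm_sub_le _ _).trans ?_
      have h3 := mem_ball_iff_norm.1 (ball_subset_ball hb3 hx')
      have h4 := mem_ball_iff_norm.1 (ball_subset_ball hb3 hy')
      linarith
    have h2 := real_inner_le_norm k (x' - y')
    rw [hkρ', hk, one_mul] at h2
    linarith
  obtain ⟨γ, hγ, hγ1⟩ := CapEst_curve hm hρ.ne' hxy hmm
  obtain ⟨γ', hγ', hγ1'⟩ := CapEst_curve hm hρ'.ne' hxy' hmm'
  have hkey := CapEst_key hm hε'0 hs (ball_subset_ball hb1 hx) (ball_subset_ball hb1 hy)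
    (ball_subset_ball hb1 hx') (ball_subset_ball hb1 hy') hσ1 hσ1' hγ hγ1 hγ' hγ1'
  have hN := (hKL _).trans (mul_le_mul_of_nonneg_left hkey hK.le)
  rw [← mul_assoc, hKε, Prod.norm_def] at hN
  set a := (1 / 2 : ℝ) • (x + y) - (1 / 2 : ℝ) • (x' + y') with ha
  change max ‖a‖ ‖σ - σ'‖ ≤ _ at hN
  rw [Real.norm_eq_abs] at hN
  set r := ρ - ρ' with hr
  set t := ρ * σ - ρ' * σ' with ht
  have hdiff : (x - y) - (x' - y') = (2 * r) • k + (2 * t) • w := by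
    rw [hxy, hxy', hr, ht]
    module
  have hxa : x - x' = a + r • k + t • w := by
    have h2 : x - x' = a + (1 / 2 : ℝ) • ((x - y) - (x' - y')) := by
      rw [ha]
      module
    rw [h2, hdiff]
    module
  have hya : y - y' = a - r • k - t • w := by
    have h2 : y - y' = a - (1 / 2 : ℝ) • ((x - y) - (x' - y')) := by
      rw [ha]
      module
    rw [h2, hdiff]
    module
  have hnk : ‖r • k‖ = |r| := by rw [norm_smul, hk, mul_one, Real.norm_eq_abs]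
  have hnw : ‖t • w‖ = |t| := by rw [norm_smul, hw, mul_one, Real.norm_eq_abs]
  have ht1 : |t| ≤ |σ| * |r| + |σ - σ'| := by
    have h1 : t = σ * r + ρ' * (σ - σ') := by rw [ht, hr]; ring
    rw [h1]
    refine (abs_add_le _ _).trans ?_
    rw [abs_mul, abs_mul, abs_of_pos hρ']
    have := mul_le_mul_of_nonneg_right hρ1 (abs_nonneg (σ - σ'))
    linarith
  set N := max ‖a‖ |σ - σ'| with hNdef
  have hN0 : 0 ≤ N := le_trans (norm_nonneg _) (le_max_left _ _)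
  have hNa : ‖a‖ ≤ N := le_max_left _ _
  have hNs : |σ - σ'| ≤ N := le_max_right _ _
  have hr0 : 0 ≤ |r| := abs_nonneg r
  have ht2 : |t| ≤ |r| + N := by
    have := mul_le_mul_of_nonneg_right hσ2 hr0
    linarith
  have hnx : ‖x - x'‖ ≤ 2 * N + 2 * |r| := by
    rw [hxa]
    refine (norm_add_le _ _).trans ?_
    have h1 := norm_add_le a (r • k)
    rw [hnk] at h1
    rw [hnw]
    linarith
  have hny : ‖y - y'‖ ≤ 2 * N + 2 * |r| := by
    rw [hya]
    refine (norm_sub_le _ _).trans ?_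
    have h1 := norm_sub_le a (r • k)
    rw [hnk] at h1
    rw [hnw]
    linarith
  have hmax : max (max ‖x - x'‖ ‖y - y'‖) |σ - σ'| ≤ 2 * N + 2 * |r| :=
    max_le (max_le hnx hny) (by linarith)
  have hm0 : (0 : ℝ) ≤ min (1 / 8) (ε / 32) := by positivity
  have hN2 : N ≤ min (1 / 8) (ε / 32) * (2 * N + 2 * |r|) :=
    hN.trans (mul_le_mul_of_nonneg_left hmax hm0)
  have h4 : min (1 / 8) (ε / 32) * N ≤ 1 / 8 * N :=
    mul_le_mul_of_nonneg_right (min_le_left _ _) hN0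
  have h5 : min (1 / 8) (ε / 32) * |r| ≤ ε / 32 * |r| :=
    mul_le_mul_of_nonneg_right (min_le_right _ _) hr0
  have hNf : N ≤ ε / 8 * |r| := by nlinarith
  have ht3 : |t| ≤ ε / 4 * |r| + ε / 8 * |r| := by
    have := mul_le_mul_of_nonneg_right hσ3 hr0
    linarith
  have hεr : 0 ≤ ε * |r| := by positivity
  constructor
  · have h1 : x - x' - r • k = a + t • w := by rw [hxa]; abel
    rw [h1]
    refine (norm_add_le _ _).trans ?_
    rw [hnw]
    linarith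
  · have h1 : y - y' + r • k = a - t • w := by rw [hya]; abel
    rw [h1]
    refine (norm_sub_le _ _).trans ?_
    rw [hnw]
    linarith

/-- P2d: the singular points are isolated. -/
theorem cap_isolated {m : Plane → Space} (hm : ContDiff ℝ ∞ m) {x0 k : Plane} (hk : ‖k‖ = 1)
    (h0 : fderiv ℝ m x0 k = 0)
    (hW : ∀ v, ∃ a b, fderiv ℝ (fun y => fderiv ℝ m y k) x0 a + fderiv ℝ m x0 b = v) :
    ∃ δ > 0, ∀ x ∈ ball x0 δ, ¬ Function.Injective (fderiv ℝ m x) → x = x0 := by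
  obtain ⟨w, hw, _, hfr⟩ := CapEst_frame hk
  obtain ⟨L, K, hK, hKL, hLw, hstr⟩ := CapEst_L hm h0 hfr hW
  have hw0 := CapEst_w_ne hKL hLw
  obtain ⟨δ1, hδ1, hs⟩ := hstr (1 / 2 / K) (by positivity)
  have hdm : Continuous (fderiv ℝ m) := (hm.fderiv_right (m := ∞) (by simp)).continuous
  have hcw : Continuous (fun x => fderiv ℝ m x w) := hdm.clm_apply continuous_const
  have hck : Continuous (fun x => fderiv ℝ m x k) := hdm.clm_apply continuous_const
  have hlt : ∀ᶠ x in 𝓝 x0, ‖fderiv ℝ m x k‖ < δ1 * ‖fderiv ℝ m x w‖ := by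
    refine (hck.norm.continuousAt (x := x0)).eventually_lt
      ((continuous_const.mul hcw.norm).continuousAt (x := x0)) ?_
    rw [h0, norm_zero]
    exact mul_pos hδ1 (norm_pos_iff.2 hw0)
  rw [Metric.eventually_nhds_iff_ball] at hlt
  obtain ⟨δ2, hδ2, hlt⟩ := hlt
  refine ⟨min δ1 δ2, lt_min hδ1 hδ2, fun x hx hni => ?_⟩
  have hx1 := ball_subset_ball (min_le_left δ1 δ2) hx
  have hx2 := hlt x (ball_subset_ball (min_le_right δ1 δ2) hx)
  rw [injective_iff_map_eq_zero] at hni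
  push Not at hni
  obtain ⟨u, hu, hu0⟩ := hni
  set α := (inner ℝ k u : ℝ) with hα
  set β := (inner ℝ w u : ℝ) with hβ
  have hu1 : u = α • k + β • w := hfr u
  have hwn : 0 < ‖fderiv ℝ m x w‖ := by
    by_contra hcon
    have h1 : ‖fderiv ℝ m x w‖ = 0 := le_antisymm (not_lt.1 hcon) (norm_nonneg _)
    rw [h1, mul_zero] at hx2
    exact absurd hx2 (not_lt.2 (norm_nonneg _))
  rw [hu1, map_add, map_smul, map_smul] at hu
  have hα0 : α ≠ 0 := by
    intro h1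
    rw [h1, zero_smul, zero_add, smul_eq_zero] at hu
    rcases hu with h2 | h2
    · apply hu0
      rw [hu1, h1, h2, zero_smul, zero_smul, add_zero]
    · rw [h2, norm_zero] at hwn
      exact lt_irrefl _ hwn
  set σ := β / α with hσ
  have hker : fderiv ℝ m x (k + σ • w) = 0 := by
    have h1 : k + σ • w = α⁻¹ • (α • k + β • w) := by
      rw [smul_add, smul_smul, smul_smul, inv_mul_cancel₀ hα0, one_smul, hσ, div_eq_inv_mul]
    rw [h1, map_smul, map_add, map_smul, map_smul, hu, smul_zero]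
  have hσ1 : |σ| < δ1 := by
    rw [map_add, map_smul] at hker
    have h1 : ‖σ • fderiv ℝ m x w‖ = ‖fderiv ℝ m x k‖ := by
      rw [← norm_neg (fderiv ℝ m x k)]
      congr 1
      exact eq_neg_of_add_eq_zero_right hker
    rw [norm_smul, Real.norm_eq_abs] at h1
    rw [← h1] at hx2
    exact lt_of_mul_lt_mul_right hx2 hwn.le
  have h1 := hs x hx1 x0 (mem_ball_self hδ1) σ 0 hσ1 (by rw [abs_zero]; exact hδ1)
  rw [hker, zero_smul, add_zero, h0, sub_self, zero_sub, norm_neg] at h1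
  have h2 := (hKL _).trans (mul_le_mul_of_nonneg_left h1 hK.le)
  have h3 : K * (1 / 2 / K * ‖(x - x0, σ - 0)‖) = 1 / 2 * ‖(x - x0, σ - 0)‖ := by
    field_simp
  rw [h3] at h2
  have h4 : ‖(x - x0, σ - 0)‖ ≤ 0 := by linarith
  have h5 : (x - x0, σ - 0) = (0 : Plane × ℝ) := norm_le_zero_iff.1 h4
  exact sub_eq_zero.1 (congrArg Prod.fst h5)

end Pool.Agent.Lib_MP_752436_mv
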