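import Pool.Agent.Lib_MP_752436_tp.Defs2
import Pool.Agent.Lib_MP_752436_rb.Defs

/-!
The movie of a slice disc: the movie map forgets the third coordinate, so that its horizontal
slices are the diagrams of the movie. Crossings and Reidemeister III moves above a level.
-/

open Metric Set Filter
open scoped ContDiff Topology

namespace Pool.Agent.Lib_MP_752436_mv

open Pool.Agent.Lib_MP_752436_gt Pool.Agent.Lib_MP_752436_tp Pool.Agent.Lib_MP_752436_rb

/-- The movie map of the disc `F`: the position in the diagram plane (the first two coordinates)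
and the time (the height `F x 3`). -/
def movie (F : Plane → EuclideanSpace ℝ (Fin 4)) : Plane → Space :=
  fun x => !₂[F x 0, F x 1, F x 3]

/-- The derivative at `x` in the direction `u` of the movie map. -/
noncomputable def dmovie (F : Plane → EuclideanSpace ℝ (Fin 4)) (x u : Plane) : Space :=
  fderiv ℝ (movie F) x u

/-- The crossings of the diagrams of the movie at heights at least `s`: the pairs `(p, q)` of
points of the closed unit disc at the same height and at the same place of the diagram plane such
that `p` is the overcrossing point (its third coordinate is larger). -/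
def Crossings (F : Plane → EuclideanSpace ℝ (Fin 4)) (s : ℝ) : Set (Plane × Plane) :=
  {p | p.1 ∈ closedBall 0 1 ∧ p.2 ∈ closedBall 0 1 ∧ s ≤ F p.1 3 ∧ movie F p.1 = movie F p.2 ∧
    F p.2 2 < F p.1 2}

/-- The Reidemeister III moves of the movie at heights at least `s`: the points of the disc which
are the bottom point of a triple point of a diagram. -/
def moves (F : Plane → EuclideanSpace ℝ (Fin 4)) (s : ℝ) : Set Plane :=
  {r | ∃ p q, (p, q) ∈ Crossings F s ∧ (q, r) ∈ Crossings F s}

/-- The movie is generic at heights at least `s`: the singular points of the movie map are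
nondegenerate (Whitney umbrellas, the Reidemeister I moves), they are not at crossings, the two
sheets of the movie map at a crossing are transverse, and there are no quadruple points. -/
structure GenericMovie (F : Plane → EuclideanSpace ℝ (Fin 4)) (s : ℝ) : Prop where
  branch : ∀ x ∈ closedBall (0 : Plane) 1, s ≤ F x 3 → ∀ u, u ≠ 0 → dmovie F x u = 0 →
    ∀ v, ∃ a b, fderiv ℝ (fun y => dmovie F y u) x a + dmovie F x b = v
  immersion : ∀ p q, (p, q) ∈ Crossings F s → ∀ u, u ≠ 0 → dmovie F p u ≠ 0 ∧ dmovie F q u ≠ 0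
  double : ∀ p q, (p, q) ∈ Crossings F s → ∀ v, ∃ a b, dmovie F p a + dmovie F q b = v
  quadruple : ∀ p q r w, (p, q) ∈ Crossings F s → (q, r) ∈ Crossings F s →
    (r, w) ∉ Crossings F s

/-- The disc with movie map `m` and third coordinate `z`. -/
def mkDisc (m : Plane → Space) (z : Plane → ℝ) : Plane → EuclideanSpace ℝ (Fin 4) :=
  fun x => !₂[m x 0, m x 1, z x, m x 2]

/-- `w` does not decrease from the undercrossing point to the overcrossing point (at all heights);
infinitesimal version at the singular points of the movie map. -/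
structure MovieRising (F : Plane → EuclideanSpace ℝ (Fin 4)) (w : Plane → ℝ) : Prop where
  cross : ∀ x ∈ closedBall (0 : Plane) 1, ∀ y ∈ closedBall (0 : Plane) 1,
    movie F x = movie F y → F y 2 < F x 2 → w y ≤ w x
  cap : ∀ x ∈ closedBall (0 : Plane) 1, ∀ u, fderiv ℝ (movie F) x u = 0 →
    0 ≤ fderiv ℝ (fun y => F y 2) x u → 0 ≤ fderiv ℝ w x u

/-- A trap of the movie above the level `s`: a nonempty compact set at heights at least `s` such
that every point of the frontier is a singular point of the movie map or lies above a point of the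
set; no singular point is an isolated point of the set. -/
structure IsMovieTrap (F : Plane → EuclideanSpace ℝ (Fin 4)) (s : ℝ) (Z : Set Plane) : Prop where
  compact : IsCompact Z
  nonempty : Z.Nonempty
  sub : ∀ x ∈ Z, x ∈ closedBall (0 : Plane) 1 ∧ s ≤ F x 3
  above : ∀ x ∈ frontier Z, Function.Injective (fderiv ℝ (movie F) x) →
    ∃ y ∈ Z, (x, y) ∈ Crossings F s
  cap : ∀ x ∈ Z, ¬ Function.Injective (fderiv ℝ (movie F) x) → x ∈ closure (Z \ {x})

/-- The free crossings: the crossings whose orbit under the flow `Φ` along the double curves of the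
movie map is periodic, stays at heights at least `s`, and has no bottom point of a triple point
among its undercrossing points. -/
def FreeSet (F : Plane → EuclideanSpace ℝ (Fin 4)) (s : ℝ) (Φ : ℝ → Plane × Plane → Plane × Plane) :
    Set (Plane × Plane) :=
  {c | (∃ T > 0, Φ T c = c) ∧ ∀ r, Φ r c ∈ Crossings F s ∧ (Φ r c).2 ∉ moves F s}

section Basic

variable {F : Plane → EuclideanSpace ℝ (Fin 4)} {s : ℝ}

@[simp] theorem movie_zero (x : Plane) : movie F x 0 = F x 0 := rfl
@[simp] theorem movie_one (x : Plane) : movie F x 1 = F x 1 := rfl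
@[simp] theorem movie_two (x : Plane) : movie F x 2 = F x 3 := rfl

theorem movie_ext {x y : Plane} (h0 : F x 0 = F y 0) (h1 : F x 1 = F y 1) (h3 : F x 3 = F y 3) :
    movie F x = movie F y := by
  ext i
  fin_cases i
  · exact h0
  · exact h1
  · exact h3

theorem height_eq_of_movie {x y : Plane} (h : movie F x = movie F y) : F x 3 = F y 3 :=
  congrArg (fun v : Space => v 2) h

theorem contDiff_coord' (hF : IsSliceDisc F) (i : Fin 4) : ContDiff ℝ ∞ (fun x => F x i) :=
  contDiff_euclidean.mp hF.smooth i

theorem contDiff_movie (hF : IsSliceDisc F) : ContDiff ℝ ∞ (movie F) := by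
  rw [contDiff_euclidean]
  intro i
  fin_cases i
  · exact contDiff_coord' hF 0
  · exact contDiff_coord' hF 1
  · exact contDiff_coord' hF 3

theorem eq_of_movie (hF : IsSliceDisc F) {x y : Plane} (hx : x ∈ closedBall (0 : Plane) 1)
    (hy : y ∈ closedBall (0 : Plane) 1) (h : movie F x = movie F y) (hz : F x 2 = F y 2) :
    x = y := by
  apply hF.inj hx hy
  ext i
  fin_cases i
  · exact congrArg (fun v : Space => v 0) h
  · exact congrArg (fun v : Space => v 1) h
  · exact hz
  · exact congrArg (fun v : Space => v 2) h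

theorem Crossings.ne {p : Plane × Plane} (hp : p ∈ Crossings F s) : p.1 ≠ p.2 := fun h => by
  have := hp.2.2.2.2
  rw [h] at this
  exact lt_irrefl _ this

theorem Crossings.height_eq {p : Plane × Plane} (hp : p ∈ Crossings F s) :
    F p.1 3 = F p.2 3 := height_eq_of_movie hp.2.2.2.1

theorem Crossings.trans {x y w : Plane} (h : (x, y) ∈ Crossings F s)
    (h' : (y, w) ∈ Crossings F s) : (x, w) ∈ Crossings F s :=
  ⟨h.1, h'.2.1, h.2.2.1, h.2.2.2.1.trans h'.2.2.2.1, h'.2.2.2.2.trans h.2.2.2.2⟩

theorem Crossings.asymm {x y : Plane} (h : (x, y) ∈ Crossings F s) : (y, x) ∉ Crossings F s :=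
  fun h' => lt_asymm h.2.2.2.2 h'.2.2.2.2

theorem crossings_mono {s' : ℝ} (h : s ≤ s') : Crossings F s' ⊆ Crossings F s :=
  fun _ hp => ⟨hp.1, hp.2.1, h.trans hp.2.2.1, hp.2.2.2⟩

theorem moves_mono {s' : ℝ} (h : s ≤ s') : moves F s' ⊆ moves F s :=
  fun _ ⟨p, q, h1, h2⟩ => ⟨p, q, crossings_mono h h1, crossings_mono h h2⟩

theorem GenericMovie.mono {s' : ℝ} (hg : GenericMovie F s) (h : s ≤ s') : GenericMovie F s' where
  branch := fun x hx hs => hg.branch x hx (h.trans hs)
  immersion := fun p q hp => hg.immersion p q (crossings_mono h hp)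
  double := fun p q hp => hg.double p q (crossings_mono h hp)
  quadruple := fun p q r w h1 h2 h3 => hg.quadruple p q r w (crossings_mono h h1)
    (crossings_mono h h2) (crossings_mono h h3)

/-- Two distinct points with the same image are comparable. -/
theorem crossings_total (hF : IsSliceDisc F) {x y : Plane} (hx : x ∈ closedBall (0 : Plane) 1)
    (hy : y ∈ closedBall (0 : Plane) 1) (hs : s ≤ F x 3) (hne : x ≠ y)
    (h : movie F x = movie F y) : (x, y) ∈ Crossings F s ∨ (y, x) ∈ Crossings F s := by
  rcases lt_trichotomy (F x 2) (F y 2) with h1 | h1 | h1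
  · exact Or.inr ⟨hy, hx, (height_eq_of_movie h) ▸ hs, h.symm, h1⟩
  · exact absurd (eq_of_movie hF hx hy h h1) hne
  · exact Or.inl ⟨hx, hy, hs, h, h1⟩

theorem GenericMovie.inj_fst (hg : GenericMovie F s) {p : Plane × Plane}
    (hp : p ∈ Crossings F s) : Function.Injective (fderiv ℝ (movie F) p.1) := by
  rw [injective_iff_map_eq_zero]
  intro u hu
  by_contra h
  exact (hg.immersion p.1 p.2 hp u h).1 hu

theorem GenericMovie.inj_snd (hg : GenericMovie F s) {p : Plane × Plane}
    (hp : p ∈ Crossings F s) : Function.Injective (fderiv ℝ (movie F) p.2) := by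
  rw [injective_iff_map_eq_zero]
  intro u hu
  by_contra h
  exact (hg.immersion p.1 p.2 hp u h).2 hu

/-- A point at a positive height lies in the open disc. -/
theorem mem_ball_of_height (hF : IsSliceDisc F) {x : Plane} (hx : x ∈ closedBall (0 : Plane) 1)
    (h : 0 < F x 3) : x ∈ ball (0 : Plane) 1 := by
  rcases (mem_closedBall.mp hx).lt_or_eq with h' | h'
  · exact mem_ball.mpr h'
  · exact absurd (hF.boundary x (mem_sphere.mpr h')) h.ne'

theorem mem_ball_fst (hF : IsSliceDisc F) (hs : 0 < s) {p : Plane × Plane}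
    (hp : p ∈ Crossings F s) : p.1 ∈ ball (0 : Plane) 1 :=
  mem_ball_of_height hF hp.1 (hs.trans_le hp.2.2.1)

theorem mem_ball_snd (hF : IsSliceDisc F) (hs : 0 < s) {p : Plane × Plane}
    (hp : p ∈ Crossings F s) : p.2 ∈ ball (0 : Plane) 1 :=
  mem_ball_of_height hF hp.2.1 (Crossings.height_eq hp ▸ hs.trans_le hp.2.2.1)

/-- The coordinates of the derivative of the movie map. -/
theorem fderiv_movie (hF : IsSliceDisc F) (x u : Plane) :
    fderiv ℝ (movie F) x u 0 = fderiv ℝ F x u 0 ∧ fderiv ℝ (movie F) x u 1 = fderiv ℝ F x u 1 ∧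
      fderiv ℝ (movie F) x u 2 = fderiv ℝ F x u 3 := by
  have hm : HasFDerivAt (movie F) (fderiv ℝ (movie F) x) x :=
    (((contDiff_movie hF).differentiable (by simp)) x).hasFDerivAt
  have hf : HasFDerivAt F (fderiv ℝ F x) x := ((hF.smooth.differentiable (by simp)) x).hasFDerivAt
  have key : ∀ (i : Fin 3) (j : Fin 4), (fun y => movie F y i) = (fun y => F y j) →
      fderiv ℝ (movie F) x u i = fderiv ℝ F x u j := by
    intro i j hij
    have h1 := (EuclideanSpace.proj i : Space →L[ℝ] ℝ).hasFDerivAt.comp x hm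
    have h2 := (EuclideanSpace.proj j : EuclideanSpace ℝ (Fin 4) →L[ℝ] ℝ).hasFDerivAt.comp x hf
    have h3 : HasFDerivAt (fun y => movie F y i)
        ((EuclideanSpace.proj i : Space →L[ℝ] ℝ).comp (fderiv ℝ (movie F) x)) x := h1
    have h4 : HasFDerivAt (fun y => F y j)
        ((EuclideanSpace.proj j : EuclideanSpace ℝ (Fin 4) →L[ℝ] ℝ).comp (fderiv ℝ F x)) x := h2
    rw [hij] at h3
    exact congrArg (fun l : Plane →L[ℝ] ℝ => l u) (h3.unique h4)
  exact ⟨key 0 0 rfl, key 1 1 rfl, key 2 3 rfl⟩

theorem fderiv_coord_eq (hF : IsSliceDisc F) (j : Fin 4) (x u : Plane) :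
    fderiv ℝ (fun y => F y j) x u = fderiv ℝ F x u j := by
  have hf : HasFDerivAt F (fderiv ℝ F x) x := ((hF.smooth.differentiable (by simp)) x).hasFDerivAt
  have h2 : HasFDerivAt (fun y => F y j)
      ((EuclideanSpace.proj j : EuclideanSpace ℝ (Fin 4) →L[ℝ] ℝ).comp (fderiv ℝ F x)) x :=
    (EuclideanSpace.proj j : EuclideanSpace ℝ (Fin 4) →L[ℝ] ℝ).hasFDerivAt.comp x hf
  rw [h2.fderiv]
  rfl

/-- The third coordinate is regular in the kernel of the derivative of the movie map. -/
theorem dz_ne_zero (hF : IsSliceDisc F) {x u : Plane} (hx : x ∈ closedBall (0 : Plane) 1)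
    (hu : u ≠ 0) (h : fderiv ℝ (movie F) x u = 0) : fderiv ℝ (fun y => F y 2) x u ≠ 0 := by
  intro hz
  apply hu
  apply hF.immersion x hx
  rw [map_zero]
  obtain ⟨h0, h1, h2⟩ := fderiv_movie hF x u
  rw [h] at h0 h1 h2
  rw [fderiv_coord_eq hF] at hz
  ext i
  fin_cases i
  · exact h0.symm
  · exact h1.symm
  · exact hz
  · exact h2.symm

end Basic

end Pool.Agent.Lib_MP_752436_mv
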