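import Pool.Agent.Lib_MP_752436_mv.FlipDefs
import Pool.Agent.Lib_MP_752436_tp.Flip

/-!
Piece P5b: combinatorics of the chains of points in the same fibre of the movie map after the
interchange of over and under on closed curves of free crossings.
-/

open Metric Set Filter
open scoped ContDiff Topology

namespace Pool.Agent.Lib_MP_752436_mv

open Pool.Agent.Lib_MP_752436_gt Pool.Agent.Lib_MP_752436_tp Pool.Agent.Lib_MP_752436_rb

variable {F F' : Plane → EuclideanSpace ℝ (Fin 4)} {s : ℝ}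
  {Φ : ℝ → Plane × Plane → Plane × Plane} {ι : Type} {G : Curves ι} {φ : ι → Prop}

/-- A free crossing is a crossing and its undercrossing point is not a bottom point. -/
theorem flipComb_free {c : Plane × Plane} (hc : c ∈ FreeSet F s Φ) :
    c ∈ Crossings F s ∧ c.2 ∉ moves F s := by
  obtain ⟨⟨T, _, hT⟩, h⟩ := hc
  have := h T
  rwa [hT] at this

theorem flipComb_curve (hG : IsCurves G (FreeSet F s Φ)) {i : ι} {t : ℝ}
    (ht : t ∈ Icc 0 (G.len i)) : G.c i t ∈ FreeSet F s Φ := by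
  rw [hG.cover]
  exact mem_iUnion.2 ⟨i, t, ht, rfl⟩

theorem flipComb_flipSet (hG : IsCurves G (FreeSet F s Φ)) {c : Plane × Plane}
    (hc : c ∈ flipSet G φ) : c ∈ Crossings F s ∧ c.2 ∉ moves F s := by
  obtain ⟨i, _, t, ht, rfl⟩ := hc
  exact flipComb_free (flipComb_curve hG ht)

/-- The two points of a crossing of the flipped disc are a crossing of the disc in one of the two
orders. -/
theorem flipComb_cases (hG : IsCurves G (FreeSet F s Φ)) (h : IsFlipOf F F' s G φ)
    {p q : Plane} (hpq : (p, q) ∈ Crossings F' s) :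
    ((p, q) ∈ Crossings F s ∧ (p, q) ∉ flipSet G φ) ∨
      ((q, p) ∈ flipSet G φ ∧ (q, p) ∈ Crossings F s ∧ p ∉ moves F s) := by
  rcases (h.cross (p, q)).1 hpq with h1 | h1
  · exact Or.inl h1
  · exact Or.inr ⟨h1, flipComb_flipSet hG h1⟩

theorem moves_flip {F F' : Plane → EuclideanSpace ℝ (Fin 4)} {s : ℝ} (hF : IsSliceDisc F)
    (_hg : GenericMovie F s) {Φ : ℝ → Plane × Plane → Plane × Plane} {ι : Type}
    {G : Curves ι} (hG : IsCurves G (FreeSet F s Φ)) {φ : ι → Prop}
    (h : IsFlipOf F F' s G φ) : moves F' s ⊆ moves F s := by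
  rintro r ⟨p, q, hpq, hqr⟩
  rcases flipComb_cases hG h hpq with ⟨h1, h1'⟩ | ⟨h1, h1', h1''⟩
  · rcases flipComb_cases hG h hqr with ⟨h2, h2'⟩ | ⟨h2, h2', h2''⟩
    · exact ⟨p, q, h1, h2⟩
    · exfalso
      have hne : p ≠ r := by
        rintro rfl
        exact h1' h2
      have hm : movie F p = movie F r := h1.2.2.2.1.trans h2'.2.2.2.1.symm
      rcases crossings_total hF h1.1 h2'.1 h1.2.2.1 hne hm with h3 | h3
      · exact h2'' ⟨p, r, h3, h2'⟩
      · exact h2'' ⟨r, p, h3, h1⟩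
  · rcases flipComb_cases hG h hqr with ⟨h2, h2'⟩ | ⟨h2, h2', h2''⟩
    · have hne : p ≠ r := by
        rintro rfl
        exact h2' h1
      have hm : movie F p = movie F r := h1'.2.2.2.1.symm.trans h2.2.2.2.1
      have hs : s ≤ F p 3 := h1'.2.2.1.trans_eq (Crossings.height_eq h1')
      rcases crossings_total hF h1'.2.1 h2.2.1 hs hne hm with h3 | h3
      · exact ⟨q, p, h1', h3⟩
      · exact absurd ⟨q, r, h2, h3⟩ h1''
    · exact absurd ⟨r, q, h2', h1'⟩ h1''

theorem generic_flip {F F' : Plane → EuclideanSpace ℝ (Fin 4)} {s : ℝ} (hF : IsSliceDisc F)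
    (hg : GenericMovie F s) {Φ : ℝ → Plane × Plane → Plane × Plane} {ι : Type}
    {G : Curves ι} (hG : IsCurves G (FreeSet F s Φ)) {φ : ι → Prop}
    (h : IsFlipOf F F' s G φ) : GenericMovie F' s := by
  have hd : dmovie F' = dmovie F := by
    funext x u
    unfold dmovie
    rw [h.same]
  have ht : ∀ x, F' x 3 = F x 3 := fun x =>
    congrArg (fun f : Plane → Space => f x 2) h.same
  constructor
  · intro x hx hs u hu h0 v
    rw [hd] at h0 ⊢
    rw [ht] at hs
    exact hg.branch x hx hs u hu h0 v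
  · intro p q hpq u hu
    rw [hd]
    rcases flipComb_cases hG h hpq with ⟨h1, _⟩ | ⟨_, h1, _⟩
    · exact hg.immersion p q h1 u hu
    · exact (hg.immersion q p h1 u hu).symm
  · intro p q hpq v
    rw [hd]
    rcases flipComb_cases hG h hpq with ⟨h1, _⟩ | ⟨_, h1, _⟩
    · exact hg.double p q h1 v
    · obtain ⟨a, b, hab⟩ := hg.double q p h1 v
      exact ⟨b, a, by rw [add_comm]; exact hab⟩
  · intro p q r w hpq hqr hrw
    have hr : r ∈ moves F s := moves_flip hF hg hG h ⟨p, q, hpq, hqr⟩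
    have hw : w ∈ moves F s := moves_flip hF hg hG h ⟨q, r, hqr, hrw⟩
    rcases flipComb_cases hG h hrw with ⟨h1, _⟩ | ⟨_, h1, _⟩
    · obtain ⟨a, b, hab, hbr⟩ := hr
      exact hg.quadruple a b r w hab hbr h1
    · obtain ⟨a, b, hab, hbw⟩ := hw
      exact hg.quadruple a b w r hab hbw h1

/-- The undercrossing points of the flipped curves are not bottom points of triple points. -/
theorem flip_notMem_moves {F F' : Plane → EuclideanSpace ℝ (Fin 4)} {s : ℝ}
    (_hF : IsSliceDisc F)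
    (hg : GenericMovie F s) {Φ : ℝ → Plane × Plane → Plane × Plane} {ι : Type}
    {G : Curves ι} (hG : IsCurves G (FreeSet F s Φ)) {φ : ι → Prop}
    (h : IsFlipOf F F' s G φ) {p q : Plane} (hpq : (p, q) ∈ (G.flip φ).support) :
    (p, q) ∈ Crossings F' s ∧ q ∉ moves F s := by
  rcases mem_support_flip.1 hpq with ⟨i, hi, t, ht, he⟩ | ⟨i, hi, t, ht, he⟩
  · have hfree : (p, q) ∈ FreeSet F s Φ := he ▸ flipComb_curve hG ht
    obtain ⟨h1, h2⟩ := flipComb_free hfree
    refine ⟨(h.cross _).2 (Or.inl ⟨h1, ?_⟩), h2⟩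
    rintro ⟨j, hj, t', ht', he'⟩
    have hij : i ≠ j := by
      rintro rfl
      exact hi hj
    exact Set.disjoint_left.1 (hG.disj i j hij) ⟨t, ht, he⟩ ⟨t', ht', he'⟩
  · have hfl : (q, p) ∈ flipSet G φ := ⟨i, hi, t, ht, he⟩
    obtain ⟨h1, h2⟩ := flipComb_flipSet hG hfl
    refine ⟨(h.cross _).2 (Or.inr hfl), ?_⟩
    rintro ⟨a, b, hab, hbq⟩
    exact hg.quadruple a b q p hab hbq h1

theorem good_flip_movie {F F' : Plane → EuclideanSpace ℝ (Fin 4)} {s : ℝ} (hF : IsSliceDisc F)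
    (hg : GenericMovie F s) {Φ : ℝ → Plane × Plane → Plane × Plane} {ι : Type}
    {G : Curves ι} (hG : IsCurves G (FreeSet F s Φ)) (hcl : ∀ i, G.closed i) {φ : ι → Prop}
    (h : IsFlipOf F F' s G φ) : Good (G.flip φ) (G.flip φ).support := by
  have key := fun {p q : Plane} (hpq : (p, q) ∈ (G.flip φ).support) =>
    flip_notMem_moves hF hg hG h hpq
  have hmv := moves_flip hF hg hG h
  constructor
  · refine isCurves_flip hG (fun x y hxy hyx => ?_) (fun i _ => hcl i)
    exact Crossings.asymm (flipComb_free hxy).1 (flipComb_free hyx).1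
  · intro x hx
    exact Crossings.ne (key hx).1 rfl
  · intro x y z hxy hyz
    exact absurd (hmv ⟨x, y, (key hxy).1, (key hyz).1⟩) (key hyz).2
  · intro x y z w hxy hyz _
    exact (key hyz).2 (hmv ⟨x, y, (key hxy).1, (key hyz).1⟩)
  · intro x y z hxy hxz hne
    exfalso
    obtain ⟨h1, h1'⟩ := key hxy
    obtain ⟨h2, h2'⟩ := key hxz
    have hs : s ≤ F' y 3 := h1.2.2.1.trans_eq (Crossings.height_eq h1)
    have hm : movie F' y = movie F' z := h1.2.2.2.1.symm.trans h2.2.2.2.1
    rcases crossings_total h.slice h1.2.1 h2.2.1 hs hne hm with h3 | h3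
    · exact h2' (hmv ⟨x, y, h1, h3⟩)
    · exact h1' (hmv ⟨x, z, h2, h3⟩)

end Pool.Agent.Lib_MP_752436_mv
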