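import Pool.Agent.Lib_MP_752436_mv.Defs

/-!
Flipping of double curves of the movie map: definitions.
-/

open Metric Set Filter
open scoped ContDiff Topology

namespace Pool.Agent.Lib_MP_752436_mv

open Pool.Agent.Lib_MP_752436_gt Pool.Agent.Lib_MP_752436_tp Pool.Agent.Lib_MP_752436_rb

/-- The crossings on the curves to be flipped. -/
def flipSet {ι : Type} (G : Curves ι) (φ : ι → Prop) : Set (Plane × Plane) :=
  {c | ∃ i, φ i ∧ ∃ t ∈ Icc 0 (G.len i), G.c i t = c}

/-- `F'` is obtained from `F` by interchanging over and under on the curves with `φ`. -/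
structure IsFlipOf (F F' : Plane → EuclideanSpace ℝ (Fin 4)) (s : ℝ) {ι : Type} (G : Curves ι)
    (φ : ι → Prop) : Prop where
  slice : IsSliceDisc F'
  same : movie F' = movie F
  knot : boundaryKnot F' = boundaryKnot F
  cross : ∀ p, p ∈ Crossings F' s ↔
    (p ∈ Crossings F s ∧ p ∉ flipSet G φ) ∨ p.swap ∈ flipSet G φ

end Pool.Agent.Lib_MP_752436_mv
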