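import Pool.Agent.Lib_MP_752436_mv.Reg
import Pool.Agent.Lib_MP_752436_mv.FlipComb
import Pool.Agent.Lib_MP_752436_tp.NoTrap
import Pool.Agent.Lib_MP_752436_tp.Flip

/-!
After flipping the free curves which are not well ordered there is no movie trap without bottom
points of triple points.
-/

open Metric Set Filter
open scoped ContDiff Topology

namespace Pool.Agent.Lib_MP_752436_mv

open Pool.Agent.Lib_MP_752436_gt Pool.Agent.Lib_MP_752436_tp Pool.Agent.Lib_MP_752436_rb

/-- A closed orbit of crossings of the flipped disc, whose undercrossing points are not moves, lies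
on the flipped curves. -/
theorem mem_support_of_periodic {F F' : Plane → EuclideanSpace ℝ (Fin 4)} {s : ℝ}
    (hF : IsSliceDisc F) {Φ : ℝ → Plane × Plane → Plane × Plane} (hΦ0 : ∀ x, Φ 0 x = x)
    (hcont : ∀ c, Continuous fun t => Φ t c) {ι : Type}
    {G : Curves ι} (hG : IsCurves G (FreeSet F s Φ)) {φ : ι → Prop} (hflip : IsFlipOf F F' s G φ)
    {c : Plane × Plane} (hper : ∃ T > 0, Φ T c = c)
    (hc : ∀ t, Φ t c ∈ Crossings F' s ∧ (Φ t c).2 ∉ moves F s) : c ∈ (G.flip φ).support := by
  rw [mem_support_flip]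
  have hc0 := (hflip.cross c).1 (hΦ0 c ▸ (hc 0).1)
  rcases hc0 with ⟨hcF, hnf⟩ | hsw
  · left
    have hzc : Continuous (fun x => F x 2) := (contDiff_coord' hF 2).continuous
    have hsame : ∀ t, movie F (Φ t c).1 = movie F (Φ t c).2 := by
      intro t
      have := (hc t).1.2.2.2.1
      rwa [hflip.same] at this
    have hne : ∀ t, F (Φ t c).1 2 - F (Φ t c).2 2 ≠ 0 := by
      intro t h0
      exact Crossings.ne (hc t).1 (eq_of_movie hF (hc t).1.1 (hc t).1.2.1 (hsame t)
        (sub_eq_zero.1 h0))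
    have hpos : ∀ t, 0 < F (Φ t c).1 2 - F (Φ t c).2 2 := by
      intro t
      have hd : Continuous fun t => F (Φ t c).1 2 - F (Φ t c).2 2 :=
        (hzc.comp (continuous_fst.comp (hcont c))).sub
          (hzc.comp (continuous_snd.comp (hcont c)))
      have h0 : (0 : ℝ) < F (Φ 0 c).1 2 - F (Φ 0 c).2 2 := by
        rw [hΦ0]
        linarith [hcF.2.2.2.2]
      by_contra hcon
      push Not at hcon
      have hpre : IsPreconnected (univ : Set ℝ) := isPreconnected_univ
      obtain ⟨r, -, hr⟩ := hpre.intermediate_value (mem_univ t) (mem_univ 0) hd.continuousOn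
        ⟨hcon, h0.le⟩
      exact hne r hr
    have hfree : c ∈ FreeSet F s Φ := by
      refine ⟨hper, fun r => ⟨⟨(hc r).1.1, (hc r).1.2.1, ?_, hsame r, ?_⟩, (hc r).2⟩⟩
      · rw [show F (Φ r c).1 3 = F' (Φ r c).1 3 from by
          rw [← movie_two (F := F), ← movie_two (F := F'), hflip.same]]
        exact (hc r).1.2.2.1
      · have := hpos r
        linarith
    obtain ⟨i, t, ht, hit⟩ := hG.exists_param hfree
    exact ⟨i, fun hi => hnf ⟨i, hi, t, ht, hit⟩, t, ht, hit⟩
  · right
    obtain ⟨i, hi, t, ht, hit⟩ := hsw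
    exact ⟨i, hi, t, ht, hit⟩

theorem no_movieTrap {F F' : Plane → EuclideanSpace ℝ (Fin 4)} {s : ℝ} (hF : IsSliceDisc F)
    (hs : 0 < s) (hg : GenericMovie F s) {v : Plane × Plane → Plane × Plane}
    {Φ : ℝ → Plane × Plane → Plane × Plane} (h : CutFlow (movie F) v Φ) {ι : Type} [Finite ι]
    {G : Curves ι} (hG : IsCurves G (FreeSet F s Φ)) (hcl : ∀ i, G.closed i)
    {φ : ι → Prop} (hflip : IsFlipOf F F' s G φ) (ρu ρl : ι → ℕ) (h1 : ∀ i, ρu i ≤ ρl i)
    (h2 : ∀ i j, (G.flip φ).low i ⊆ hull ((G.flip φ).up j) →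
      Disjoint ((G.flip φ).low i) ((G.flip φ).up j) → ρl i < ρu j)
    {Z : Set Plane} (hZ : IsMovieTrap F' s Z) (hZm : Disjoint Z (moves F s)) : False := by
  have hF' : IsSliceDisc F' := hflip.slice
  have hg' : GenericMovie F' s := generic_flip hF hg hG hflip
  have hmov : moves F' s ⊆ moves F s := moves_flip hF hg hG hflip
  have hgood : Good (G.flip φ) (G.flip φ).support := good_flip_movie hF hg hG hcl hflip
  have hm' : Disjoint Z (moves F' s) := hZm.mono_right hmov
  have hR : RegTrap F' s (closure (interior Z)) := hZ.regTrap hF' hg' hm'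
  have hsub : closure (interior Z) ⊆ Z :=
    closure_minimal interior_subset hZ.compact.isClosed
  have h' : CutFlow (movie F') v Φ := by rw [hflip.same]; exact h
  have htrap : IsTrapOf (fun x y => (x, y) ∈ (G.flip φ).support) (closure (interior Z)) := by
    refine ⟨hR.compact, hR.nonempty, ?_, ?_⟩
    · intro x hx
      obtain ⟨h3, h4⟩ := hR.sub x hx
      exact mem_ball_of_height hF' h3 (hs.trans_le h4)
    · intro x hx
      obtain ⟨y, hy, hxy⟩ := hR.above x hx
      refine ⟨y, interior_subset hy, ?_⟩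
      obtain ⟨hper, hst⟩ := hR.periodic hF' hg' h' (c := (x, y)) ⟨hxy, hx, interior_subset hy⟩
      refine mem_support_of_periodic hF h.flow.zero (reg_continuous_flow h) hG hflip hper
        fun t => ⟨(hst t).1, ?_⟩
      intro hmem
      exact Set.disjoint_left.1 hZm (hsub (hst t).2.2) hmem
  obtain ⟨x, y, z, hxy, hyz, -⟩ := exists_bottom_mem hgood ρu ρl (fun i _ => h1 i)
    (fun i j _ _ => h2 i j) htrap
  obtain ⟨c1, -⟩ := flip_notMem_moves hF hg hG hflip hxy
  obtain ⟨c2, c3⟩ := flip_notMem_moves hF hg hG hflip hyz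
  exact c3 (hmov ⟨x, y, c1, c2⟩)

end Pool.Agent.Lib_MP_752436_mv
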